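import Pool.Agent.H5.M3F.All
import Pool.Agent.H5.M3F.Wgt
import Pool.Agent.H2.GEN.AttG

/-!
# Equations for closed labels with a weight, outside a small event
-/

set_option autoImplicit false

namespace Pool.FAL

open Finset Real MvPolynomial
open Pool.Agent.H49.Ent Pool.Agent.H32.Dense Pool.STK Pool.KA Pool.KSAT Pool.K2S Pool.KS3 Pool.PB
  Pool.STAT Pool.STAT.CLO Pool.GEN Pool.S6C Pool.M3F

variable {m J : ℕ}

/-- The precisions with a smaller last one. -/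
def gdn (g : ℕ → ℕ) (l : ℕ) : ℕ := if l = 2 then g 2 - 2 else g l

theorem gdn_lt {g : ℕ → ℕ} {l : ℕ} (h : l < 2) : gdn g l = g l := if_neg (by omega)

theorem gdn_two {g : ℕ → ℕ} : gdn g 2 = g 2 - 2 := if_pos rfl

theorem wid_gdn {W : ℕ} {g : ℕ → ℕ} {j : ℕ} (h : j < 3) : wid W (gdn g) j = wid W g j := by
  rcases Nat.eq_zero_or_pos j with rfl | h0
  · rfl
  · obtain ⟨j, rfl⟩ : ∃ j', j = j' + 1 := ⟨j - 1, by omega⟩
    rw [wid_succ, wid_succ]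
    exact gdn_lt (by omega)

/-- A closed label with a weight is a closed label of the extended family. -/
theorem nlab_ext {F : Fam m J} {c : ℕ → Fin m} {W sg : ℕ} {g : ℕ → ℕ} {K : ℕ} {L : ℝ}
    {A B : F.Ω → Prop} {V : Type} {z : PtT F → V} {z' : LnT F → V} {P : V → ℕ → PN}
    (hN : NLabW F c 2 W sg g K L A z z' P) (hBA : ∀ ω, B ω → A ω) (hg : 2 ≤ g 2)
    (hgJ : g 2 ≤ J) : NLab (exF F (c 2) sg) (cx' c 2) 2 W (gdn g) K L B
      (fun ξ => z (rP F (c 2) sg ξ)) (fun s => z' (rL F (c 2) sg s)) P := by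
  have hz : ∀ ω : F.Ω, rP F (c 2) sg (ptr (exF F (c 2) sg) J ω) = ptr F J ω := by
    intro ω
    rw [exF_ptr, rP_eP]
  have hs : ∀ ω : F.Ω, rL F (c 2) sg (slam (exF F (c 2) sg) W ω) = slam F W ω := by
    intro ω
    rw [exF_slam, rL_eL]
  have hpx : ∀ (ω : F.Ω) (i : ℕ), px (cx' c 2) (ptr (exF F (c 2) sg) J ω) i =
      px (cx' c 2) (eP F (c 2) sg (ptr F J ω)) i := by
    intro ω i
    rw [exF_ptr]
  have hcls : ∀ ω : F.Ω, B ω → z (rP F (c 2) sg (ptr (exF F (c 2) sg) J ω)) =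
      z' (rL F (c 2) sg (slam (exF F (c 2) sg) W ω)) := by
    intro ω hω
    rw [hz ω, hs ω]
    exact hN.cls ω (hBA ω hω)
  have hzero : ∀ ω : F.Ω, B ω → P (z (rP F (c 2) sg (ptr (exF F (c 2) sg) J ω))) 0 =
      MvPolynomial.C ((F.T1 W ω : ℝ) / 2 ^ W) := by
    intro ω hω
    rw [hz ω]
    exact hN.zero ω (hBA ω hω)
  have hpos : ∀ ω : F.Ω, B ω → ∀ i ≤ 2, |px (cx' c 2) (ptr (exF F (c 2) sg) J ω) (i + 1) -
      eval (px (cx' c 2) (ptr (exF F (c 2) sg) J ω))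
        (P (z (rP F (c 2) sg (ptr (exF F (c 2) sg) J ω))) (i + 1))| ≤ 1 / 2 ^ gdn g i := by
    intro ω hω i hi
    have e0 : (px (cx' c 2) (ptr (exF F (c 2) sg) J ω)) =
        px (cx' c 2) (eP F (c 2) sg (ptr F J ω)) := funext (hpx ω)
    rw [hz ω, e0]
    have h13 : eval (px (cx' c 2) (eP F (c 2) sg (ptr F J ω)))
        (P (z (ptr F J ω)) (i + 1)) = eval (px c (ptr F J ω)) (P (z (ptr F J ω)) (i + 1)) :=
      eval_cg (hN.tri _ (i + 1)) fun j hj => px_ext _ (by omega)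
    rw [h13]
    rcases Nat.lt_or_ge i 2 with h1 | h1
    · rw [px_ext _ (by omega), gdn_lt h1]
      exact hN.pos ω (hBA ω hω) i h1
    · have h2 : i = 2 := by omega
      subst h2
      have h14 := px_ext_r (c := c) (r := 2) (sg := sg) (ptr F J ω)
      have h12 := hN.posN ω (hBA ω hω)
      have hJ : (1 : ℝ) / 2 ^ J ≤ 1 / 2 ^ g 2 :=
        one_div_le_one_div_of_le (by positivity) (pow_le_pow_right₀ (by norm_num) hgJ)
      have h15 : (1 : ℝ) / 2 ^ gdn g 2 = 4 / 2 ^ g 2 := by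
        rw [gdn_two]
        have e1 : (2 : ℝ) ^ g 2 = 2 ^ (g 2 - 2) * 2 ^ 2 := by
          rw [← pow_add]
          congr 1
          omega
        rw [e1]
        field_simp
        norm_num
      rw [h15]
      have e2 : (4 : ℝ) / 2 ^ g 2 = 1 / 2 ^ g 2 + 1 / 2 ^ g 2 + 2 * (1 / 2 ^ g 2) := by ring
      have h16 : (0 : ℝ) ≤ 1 / 2 ^ g 2 := by positivity
      rw [e2]
      rw [abs_le] at h12 h14 ⊢
      constructor <;> linarith [h12.1, h12.2, h14.1, h14.2]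
  have hgrad : ∀ ω : F.Ω, B ω → ∀ b : ℕ → ℝ,
      CLO.Bxr 4 (wid W (gdn g)) (P (z (rP F (c 2) sg (ptr (exF F (c 2) sg) J ω)))) (2 + 1) b →
      ∀ i ≤ 2 + 1, ∀ l < i,
        |eval b (pderiv l (P (z (rP F (c 2) sg (ptr (exF F (c 2) sg) J ω))) i))| ≤ L := by
    intro ω hω b hb
    rw [hz ω] at hb ⊢
    exact hN.grad ω (hBA ω hω) b fun j hj => by
      rw [← wid_gdn (W := W) (g := g) (by omega)]
      exact hb j hj
  exact ⟨hN.deg, hN.tri, hcls, hzero, hpos, hgrad⟩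

/-- **Equations for closed labels with a weight**, outside a small event. -/
theorem jet_ev : ∃ D : ℕ, ∀ {m : ℕ} (S : PCl m),
    (∀ (τ : ℝ) (J : ℕ) (F : Fam m J) (A : F.Ω → Prop), S.St τ J F A →
      F.Tr ∧ F.Tm (τ * J) ∧ F.Rb (τ * J) ∧ Real.exp (-(τ * J)) ≤ Pe F.p A) →
    ∀ (c : ℕ → Fin m) (w : ℝ) (g : ℕ → ℝ), 0 ≤ w → w ≤ 1 → (∀ l < 2, w ≤ g l) →
    (∀ ρ : ℝ, 0 < ρ → ExvY S w (fun J F ω (i : Fin 2) => F.X J ω (c i))
      ((∑ l ∈ range 2, (1 - g l)) - ρ)) →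
    ∀ (K : ℕ) (γ δ : ℝ), 0 < γ → 0 < δ → ∃ φ : ℝ, 0 < φ ∧ ∀ κ : ℝ, 0 < κ → Bas S (fun J F A =>
      ∀ (g' : ℕ → ℕ) (sg : ℕ) (L : ℝ) (V : Type) (z : PtT F → V) (z' : LnT F → V)
        (P : V → ℕ → PN),
      (∀ l < 2, (g l - φ) * J ≤ g' l) → (∀ l < 2, (g' l : ℝ) + γ * J ≤ g' 2) →
      (w + γ) * J ≤ g' 2 → g' 2 ≤ J → 0 ≤ L → Real.log (1 + L) ≤ φ * J →
      NLabW F c 2 ⌊w * J⌋₊ sg g' K L A z z' P →
      Pe F.p (fun ω => A ω ∧ ¬ ∃ (Q : PN) (S : ℝ) (k : ℕ), (k : ℝ) ≤ δ * J ∧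
        Jet 2 D (wid ⌊w * J⌋₊ g') (P (z (ptr F J ω))) Q (2 ^ (k + 2) / 2 ^ g' 2) S) ≤
          κ * Pe F.p A) := by
  classical
  obtain ⟨D, hD⟩ := m3f_nlab 2
  refine ⟨D, ?_⟩
  intro m S hmem c w g hw hw1 hwg hex K γ δ hγ hδ
  obtain ⟨φ, hφ, hmain⟩ := hD (exS S (c 2)) (by
      intro τ J F' A' h
      cases h with
      | mk F sg A h =>
        obtain ⟨h1, h2, h3, h4⟩ := hmem τ J F A h
        exact ⟨h1, exF_Tm (c 2) sg h2, exF_Rb (c 2) sg h3, h4⟩)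
    (cx' c 2) w g hw hw1 hwg (by
      intro ρ hρ
      obtain ⟨τe, hτe, Je, hexe⟩ := hex ρ hρ
      refine ⟨τe, hτe, Je, ?_⟩
      intro J hJ F' A' h
      cases h with
      | mk F sg A h =>
        intro V z z' hz
        have h1 := hexe J hJ F A h V (fun ξ => z (eP F (c 2) sg ξ)) (fun s => z' (eL F (c 2) sg s))
          (fun ω hω => by
            have h2 := hz ω hω
            rw [exF_ptr, exF_slam] at h2
            exact h2)
        have h3 : (fun (ω : F.Ω) (i : Fin 2) => F.X J ω (c i)) =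
            fun ω (i : Fin 2) => (exF F (c 2) sg).X J ω (cx' c 2 i) := by
          funext ω i
          rw [exF_X, cx'_lt i.2, sn_cs]
        beta_reduce at h1
        rw [h3] at h1
        exact h1) K (γ / 2) δ (by positivity) hδ
  refine ⟨φ, hφ, fun κ hκ => ?_⟩
  obtain ⟨τ, hτ, J₀, hmn⟩ := Pool.CHT.bas_ev hmain hκ
  obtain ⟨J₁, hJ₁⟩ := exists_nat_gt (4 / γ)
  refine ⟨τ, hτ, max J₀ J₁, ?_⟩
  intro J hJ F A hS g' sg L V z z' P hg1 hg2 hg3 hg4 hL hLφ hN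
  have hJ0 : J₀ ≤ J := (le_max_left _ _).trans hJ
  have hJ1 : (J₁ : ℝ) ≤ J := by exact_mod_cast (le_max_right _ _).trans hJ
  have hγJ : 4 ≤ γ * J := by
    have h1 : 4 / γ < J := hJ₁.trans_le hJ1
    rw [div_lt_iff₀ hγ] at h1
    linarith
  have hwJ : 0 ≤ w * J := by positivity
  have h2g : (2 : ℝ) ≤ g' 2 := by
    have : (w + γ) * J = w * J + γ * J := by ring
    linarith
  have h2g' : 2 ≤ g' 2 := by exact_mod_cast h2g
  have hgd : ((gdn g' 2 : ℕ) : ℝ) = g' 2 - 2 := by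
    rw [gdn_two]
    push_cast [Nat.cast_sub h2g']
    ring
  by_contra hcon
  rw [not_le] at hcon
  obtain ⟨B, hB⟩ : ∃ B : F.Ω → Prop, B = fun ω => A ω ∧ ¬ ∃ (Q : PN) (S : ℝ) (k : ℕ),
      (k : ℝ) ≤ δ * J ∧ Jet 2 D (wid ⌊w * J⌋₊ g') (P (z (ptr F J ω))) Q
        (2 ^ (k + 2) / 2 ^ g' 2) S := ⟨_, rfl⟩
  have hBA : ∀ ω, B ω → A ω := fun ω hω => by
    rw [hB] at hω
    exact hω.1
  have hBP : κ * Pe F.p A ≤ Pe F.p B := by
    rw [hB]
    exact hcon.le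
  obtain ⟨ω, hω, -, Q, S', k, hk, hJt⟩ := hmn J hJ0 (exF F (c 2) sg) A (ExSt.mk F sg A hS) B hBA
    hBP (gdn g') L V _ _ P (fun l hl => by
      rw [gdn_lt hl]
      exact hg1 l hl) (fun l hl => by
      rw [gdn_lt hl, hgd]
      have := hg2 l hl
      linarith) (by
      rw [hgd]
      linarith) (by
      rw [gdn_two]
      omega) hL hLφ (nlab_ext hN hBA h2g' hg4)
  have e1 : ∀ ω : F.Ω, rP F (c 2) sg (ptr (exF F (c 2) sg) J ω) = ptr F J ω := by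
    intro ω
    rw [exF_ptr, rP_eP]
  rw [e1 ω] at hJt
  have h1 := hJt.congr (wd' := wid ⌊w * J⌋₊ g') fun j hj => wid_gdn hj
  rw [hB] at hω
  refine hω.2 ⟨Q, S', k, hk, ?_⟩
  have e2 : (2 : ℝ) ^ (k + 2) / 2 ^ g' 2 = 2 ^ k / 2 ^ gdn g' 2 := by
    rw [gdn_two]
    have e3 : (2 : ℝ) ^ g' 2 = 2 ^ (g' 2 - 2) * 2 ^ 2 := by
      rw [← pow_add]
      congr 1
      omega
    rw [e3, pow_add]
    field_simp
  rw [e2]
  exact h1

end Pool.FAL
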