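import Pool.Agent.H57.FAL.End
import Pool.Agent.H57.FAL.Jts

/-!
# (FALLN) in a class

`falS`: two labels of the window `w1` on a line of the window `w0` are separated by a polynomial, if
the fall of the last coordinate is large against the number `h` of the separation.
-/

set_option autoImplicit false

namespace Pool.FAL

open Finset Real MvPolynomial
open Pool.Agent.H49.Ent Pool.Agent.H32.Dense Pool.STK Pool.KAF Pool.KAL Pool.KS3 Pool.M3F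
open Pool.KJA Pool.KA Pool.K2S Pool.KSAT Pool.PB Pool.STAT Pool.STAT.CLO Pool.GEN Pool.CLO37
open Pool.PLN

/-- The labels with a larger slack. -/
def dup {m J : ℕ} {N : Nums} {φ φ' : ℝ} {K : ℕ} {F : Fam m J} {c : ℕ → Fin m} {A : F.Ω → Prop}
    (d : Dat N φ K F c A) (h : φ ≤ φ') : Dat N φ' K F c A :=
  have hJ : φ * J ≤ φ' * J := mul_le_mul_of_nonneg_right h (Nat.cast_nonneg J)
  { V := d.V
    V0 := d.V0
    z := d.z
    z' := d.z'
    P := d.P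
    g' := d.g'
    sg := d.sg
    zz := d.zz
    zz' := d.zz'
    P0 := d.P0
    g0' := d.g0'
    sg0 := d.sg0
    pr := d.pr
    kap := d.kap
    L := d.L
    G0 := d.G0
    a := d.a
    lab := d.lab
    lab0 := d.lab0
    prz := d.prz
    dg := d.dg
    dg0 := d.dg0
    num := fun l hl => (d.num l hl).trans hJ
    num0 := fun l hl => (d.num0 l hl).trans hJ
    nums := d.nums.trans hJ
    nums0 := d.nums0.trans hJ
    numz := d.numz.trans hJ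
    top := d.top
    top0 := d.top0
    srt := d.srt
    srt0 := d.srt0
    win := d.win
    win0 := d.win0
    kapφ := d.kapφ.trans hJ
    L0 := d.L0
    L1 := d.L1.trans hJ
    pos0 := d.pos0
    siz0 := fun ω hω i => (d.siz0 ω hω i).trans (Real.exp_le_exp.2 hJ) }

theorem falS : ∃ D₀ : ℕ, ∀ D ≥ D₀, ∃ C : ℝ, 1 ≤ C ∧ ∀ {m : ℕ} (S : PCl m),
    (∀ (τ : ℝ) (J : ℕ) (F : Fam m J) (A : F.Ω → Prop), S.St τ J F A →
      F.Tr ∧ F.Tm (τ * J) ∧ F.Rb (τ * J) ∧ Real.exp (-(τ * J)) ≤ Pe F.p A) →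
    ∀ (c : ℕ → Fin m) (w0 w1 : ℝ) (β0 β1 : ℕ → ℝ) (e₀ e₀' γ : ℝ), Inj c 3 → 0 < w0 → w0 ≤ 1 →
    0 ≤ w1 → w1 ≤ 1 → (∀ l < 2, w1 ≤ β1 l) → w0 ≤ β0 2 →
    (∀ ρ : ℝ, 0 < ρ → ExvY S w1 (fun J F ω (i : Fin 2) => F.X J ω (c i))
      ((∑ l ∈ range 2, (1 - β1 l)) - ρ)) →
    Pool.CHT.RelvC S c 3 β0 w0 w0 e₀ → 0 < e₀' → e₀' < e₀ → 0 < γ → ∀ h : ℝ, 0 < h →
    ∃ φ₂ : ℝ, 0 < φ₂ ∧ ∀ K : ℕ, ∃ φ₁ : ℝ, 0 < φ₁ ∧ ∀ N : Nums, N.w0 = w0 → N.w1 = w1 →
      (∀ l < 2, β1 l - φ₁ ≤ N.g l) → (∀ l < 2, |N.g0 l - β0 l| ≤ φ₁) →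
      (N.g0 2 - N.s0) - β0 2 ≤ φ₁ → β0 2 - (N.g0 2 - N.s0) ≤ φ₂ →
      (∀ l < 2, N.g l + 2 * γ ≤ N.g 2) → w1 + 2 * γ ≤ N.g 2 → N.g0 2 < 1 →
      N.g0 2 ≤ max (N.g0 1) (N.g0 2 - N.s0) + e₀' → C * h ≤ N.mv → C * h ≤ N.g 2 - N.g0 2 →
      ∀ (c₀ : ℝ), 0 < c₀ → ∀ q : ℝ, LrS S c N K D q h (c₀ / 4) → FalS S c N K D h c₀ := by
  classical
  obtain ⟨Dj, hjet⟩ := jet_ev
  refine ⟨Dj, fun D hD => ?_⟩
  obtain ⟨Mb, hMb⟩ : ∃ Mb, Mb = nmb (Option (Fin 3)) D := ⟨_, rfl⟩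
  obtain ⟨B2, hB2⟩ : ∃ B2 : ℕ, B2 = 2 ^ Mb := ⟨_, rfl⟩
  refine ⟨3 * B2 + 4, by
    have : (0 : ℝ) ≤ B2 := Nat.cast_nonneg B2
    linarith, ?_⟩
  intro m S hmem c w0 w1 β0 β1 e₀ e₀' γ hc hw0 hw01 hw1 hw11 hβ1 hβ0 hex hrel he₀' hee hγ h hh
  obtain ⟨φH, hφH, hH⟩ := hrel D (h / 4) (by positivity)
  refine ⟨min (φH 2 0 / 2) (w0 / 2), lt_min (half_pos (hφH _ _)) (half_pos hw0), fun K => ?_⟩
  obtain ⟨φj, hφj, hj⟩ := hjet S hmem c w1 β1 hw1 hw11 hβ1 hex K γ h hγ hh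
  obtain ⟨cn, hmd⟩ := mem_end D K Mb
  obtain ⟨E4, hE4⟩ : ∃ E4 : ℕ, E4 = (K + D) * (K + D + 1) ^ 4 := ⟨_, rfl⟩
  obtain ⟨E5, hE5⟩ : ∃ E5 : ℕ, E5 = (K + D) * (K + D + 1) ^ 5 := ⟨_, rfl⟩
  have hE40 : (0 : ℝ) ≤ E4 := Nat.cast_nonneg _
  have hE50 : (0 : ℝ) ≤ E5 := Nat.cast_nonneg _
  obtain ⟨Δ, hΔ⟩ : ∃ Δ : ℝ, Δ = e₀ - e₀' := ⟨_, rfl⟩
  have hΔ0 : 0 < Δ := by
    rw [hΔ]
    linarith
  obtain ⟨φ₁, hφ₁0, t1, t2, t3, t4, t5⟩ : ∃ φ₁ : ℝ, 0 < φ₁ ∧ φ₁ ≤ φj / 2 ∧ φ₁ ≤ φH 1 K / 2 ∧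
      φ₁ ≤ φH 0 (1 + K) / 2 ∧ φ₁ * (E5 + 1) ≤ h / 16 ∧ φ₁ * (E4 + 1) ≤ Δ / 16 := by
    refine ⟨min (min (φj / 2) (min (φH 1 K / 2) (φH 0 (1 + K) / 2)))
      (min (h / 16 / (E5 + 1)) (Δ / 16 / (E4 + 1))), ?_, ?_, ?_, ?_, ?_, ?_⟩
    · exact lt_min (lt_min (half_pos hφj) (lt_min (half_pos (hφH _ _)) (half_pos (hφH _ _))))
        (lt_min (by positivity) (by positivity))
    · exact (min_le_left _ _).trans (min_le_left _ _)
    · exact (min_le_left _ _).trans ((min_le_right _ _).trans (min_le_left _ _))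
    · exact (min_le_left _ _).trans ((min_le_right _ _).trans (min_le_right _ _))
    · rw [← le_div_iff₀ (by positivity)]
      exact (min_le_right _ _).trans (min_le_left _ _)
    · rw [← le_div_iff₀ (by positivity)]
      exact (min_le_right _ _).trans (min_le_right _ _)
  refine ⟨φ₁, hφ₁0, ?_⟩
  intro N hNw0 hNw1 hg1 hg0 hg02 hg02' hgap hgap1 hg0v hwt hmv hmv2 c₀ hc₀ q hLr
  obtain ⟨φL, hφL, hL⟩ := hLr
  obtain ⟨φ, hφ0, s1, s2, s3, s4, s5, s6, s7, s8, s9, s10, s11⟩ : ∃ φ : ℝ, 0 < φ ∧ φ ≤ φj / 2 ∧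
      φ ≤ φH 2 0 / 6 ∧ φ ≤ φH 1 K / 6 ∧ φ ≤ φH 0 (1 + K) / 6 ∧ φ * (E5 + 1) ≤ h / 80 ∧
      φ * (E4 + 1) ≤ Δ / 80 ∧ φ ≤ γ / 30 ∧ φ ≤ (1 - N.g0 2) / 8 ∧ φ ≤ w0 / 8 ∧
      φ * (11 * D + 20) ≤ h / 4 ∧ φ ≤ φL := by
    have h1 : 0 < 1 - N.g0 2 := by linarith
    refine ⟨min (min (min (φj / 2) (φH 2 0 / 6)) (min (φH 1 K / 6) (φH 0 (1 + K) / 6)))
      (min (min (min (h / 80 / (E5 + 1)) (Δ / 80 / (E4 + 1))) (min (γ / 30) ((1 - N.g0 2) / 8)))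
        (min (w0 / 8) (min (h / 4 / (11 * D + 20)) φL))), ?_, ?_, ?_, ?_, ?_, ?_, ?_, ?_, ?_, ?_,
        ?_, ?_⟩
    · have := hφH 2 0
      have := hφH 1 K
      have := hφH 0 (1 + K)
      refine lt_min (lt_min (lt_min ?_ ?_) (lt_min ?_ ?_)) (lt_min (lt_min (lt_min ?_ ?_)
        (lt_min ?_ ?_)) (lt_min ?_ (lt_min ?_ hφL))) <;> positivity
    · exact (min_le_left _ _).trans ((min_le_left _ _).trans (min_le_left _ _))
    · exact (min_le_left _ _).trans ((min_le_left _ _).trans (min_le_right _ _))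
    · exact (min_le_left _ _).trans ((min_le_right _ _).trans (min_le_left _ _))
    · exact (min_le_left _ _).trans ((min_le_right _ _).trans (min_le_right _ _))
    · rw [← le_div_iff₀ (by positivity)]
      exact (min_le_right _ _).trans ((min_le_left _ _).trans ((min_le_left _ _).trans
        (min_le_left _ _)))
    · rw [← le_div_iff₀ (by positivity)]
      exact (min_le_right _ _).trans ((min_le_left _ _).trans ((min_le_left _ _).trans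
        (min_le_right _ _)))
    · exact (min_le_right _ _).trans ((min_le_left _ _).trans ((min_le_right _ _).trans
        (min_le_left _ _)))
    · exact (min_le_right _ _).trans ((min_le_left _ _).trans ((min_le_right _ _).trans
        (min_le_right _ _)))
    · exact (min_le_right _ _).trans ((min_le_right _ _).trans (min_le_left _ _))
    · rw [← le_div_iff₀ (by positivity)]
      exact (min_le_right _ _).trans ((min_le_right _ _).trans ((min_le_right _ _).trans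
        (min_le_left _ _)))
    · exact (min_le_right _ _).trans ((min_le_right _ _).trans ((min_le_right _ _).trans
        (min_le_right _ _)))
  refine ⟨φ, hφ0, ?_⟩
  -- the defects
  obtain ⟨dd, hdd⟩ : ∃ dd : ℕ → ℝ, dd = fun l =>
      if l < 2 then max (β0 l - N.g0 l) 0 + 3 * φ
      else max (β0 2 - (N.g0 2 - N.s0)) 0 + 3 * φ := ⟨_, rfl⟩
  have hd1 : ∀ l < 2, dd l = max (β0 l - N.g0 l) 0 + 3 * φ := by
    intro l hl
    rw [hdd]
    simp only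
    rw [if_pos hl]
  have hd2 : dd 2 = max (β0 2 - (N.g0 2 - N.s0)) 0 + 3 * φ := by
    rw [hdd]
    simp only
    rw [if_neg (by omega)]
  have hdl : ∀ l < 2, dd l ≤ φ₁ + 3 * φ := by
    intro l hl
    rw [hd1 l hl]
    have h1 := abs_le.1 (hg0 l hl)
    have h2 : max (β0 l - N.g0 l) 0 ≤ φ₁ := max_le (by linarith [h1.1]) hφ₁0.le
    linarith
  have hhie : Pool.CHT.Hie φH 3 (kcl K) dd := by
    intro l hl
    have i2 : Finset.Ioo 2 3 = (∅ : Finset ℕ) := by decide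
    have i1 : Finset.Ioo 1 3 = ({2} : Finset ℕ) := by decide
    have i0 : Finset.Ioo 0 3 = ({1, 2} : Finset ℕ) := by decide
    rcases Nat.lt_or_ge l 2 with h1 | h1
    · refine ⟨?_, ?_⟩
      · rw [hd1 l h1]
        have := le_max_right (β0 l - N.g0 l) 0
        linarith
      · refine (hdl l h1).trans ?_
        rcases Nat.lt_or_ge l 1 with h2 | h2
        · have h3 : l = 0 := by omega
          subst h3
          rw [i0]
          have e1 : ∑ l' ∈ ({1, 2} : Finset ℕ), kcl K l' = 1 + K := by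
            rw [Finset.sum_pair (by omega)]
            rfl
          rw [e1]
          linarith
        · have h3 : l = 1 := by omega
          subst h3
          rw [i1]
          have e1 : ∑ l' ∈ ({2} : Finset ℕ), kcl K l' = K := by
            rw [Finset.sum_singleton]
            rfl
          rw [e1]
          linarith
    · have h3 : l = 2 := by omega
      subst h3
      refine ⟨?_, ?_⟩
      · rw [hd2]
        have := le_max_right (β0 2 - (N.g0 2 - N.s0)) 0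
        linarith
      · rw [hd2, i2, Finset.sum_empty]
        have h4 : max (β0 2 - (N.g0 2 - N.s0)) 0 ≤ φH 2 0 / 2 := by
          refine max_le (hg02'.trans (min_le_left _ _)) ?_
          have := hφH 2 0
          positivity
        linarith
  obtain ⟨κ, hκ⟩ : ∃ κ : ℝ, κ = c₀ / 4 / 2 ^ cn := ⟨_, rfl⟩
  have hκ0 : 0 < κ := by
    rw [hκ]
    positivity
  obtain ⟨τ₁, hτ₁, J₁, hR⟩ := Pool.CHT.bas_ev (hH 3 le_rfl (kcl K) dd hhie (1 / 2) (by norm_num))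
    hκ0
  obtain ⟨τ₂, hτ₂, J₂, hJ⟩ := hj (c₀ / 4) (by positivity)
  obtain ⟨τ₃, hτ₃, J₃, hLJ⟩ := hL
  have hv0 : 0 < 1 - N.g0 2 := by linarith
  obtain ⟨J₄, hJ₄⟩ := Pool.CHT.big 2 hφ0
  obtain ⟨J₅, hJ₅⟩ := Pool.CHT.big 38 hγ
  obtain ⟨J₆, hJ₆⟩ := Pool.CHT.big (2 * cn + 38 * D + 44 + B2 * (cn + 2)) hh
  obtain ⟨J₇, hJ₇⟩ := Pool.CHT.big (max 8 (4 * (cn + 2 * E4 + 2))) hΔ0
  obtain ⟨J₈, hJ₈⟩ := Pool.CHT.big (4 * (cn + 2 * E5 + 1)) hh
  obtain ⟨J₉, hJ₉⟩ := Pool.CHT.big 6 hv0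
  obtain ⟨J₁₀, hJ₁₀⟩ := Pool.CHT.big 4 hw0
  refine ⟨min τ₁ (min τ₂ τ₃), lt_min hτ₁ (lt_min hτ₂ hτ₃),
    max (max (max J₁ J₂) (max J₃ J₄)) (max (max (max J₅ J₆) (max J₇ J₈)) (max J₉ J₁₀)), ?_⟩
  intro J hJJ F A hS d
  have l4 := hJ₄ J (by omega)
  have l5 := hJ₅ J (by omega)
  have l6 := hJ₆ J (by omega)
  have l7 := hJ₇ J (by omega)
  have l8 := hJ₈ J (by omega)
  have l9 := hJ₉ J (by omega)
  have l10 := hJ₁₀ J (by omega)
  have l7a : 8 ≤ Δ * J := (le_max_left _ _).trans l7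
  have l7b : 4 * ((cn : ℝ) + 2 * E4 + 2) ≤ Δ * J := (le_max_right _ _).trans l7
  have hA : 0 < Pe F.p A := lt_of_lt_of_le (Real.exp_pos _) (hmem _ J F A hS).2.2.2
  have hpl : IsLaw (pA F A) := isLaw_cond F.isLaw hA
  have hJ0 : (0 : ℝ) ≤ J := Nat.cast_nonneg J
  have hcn0 : (0 : ℝ) ≤ cn := Nat.cast_nonneg _
  have hD0 : (0 : ℝ) ≤ D := Nat.cast_nonneg _
  have hB20 : (0 : ℝ) ≤ B2 := Nat.cast_nonneg _
  have hG1 := hR J (by omega) F A (S.mono (min_le_left _ _) hS)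
  have hG2 := hJ J (by omega) F A (S.mono ((min_le_right _ _).trans (min_le_left _ _)) hS)
  have hG3 := hLJ J (by omega) F A (S.mono ((min_le_right _ _).trans (min_le_right _ _)) hS)
    (dup d s11)
  -- the numbers
  obtain ⟨n, hn⟩ : ∃ n : ℕ, n = ⌈2 * (φ * J)⌉₊ := ⟨_, rfl⟩
  have hn1 : 2 * (φ * J) ≤ n := by
    rw [hn]
    exact Nat.le_ceil _
  have hn2 : (n : ℝ) ≤ 2 * (φ * J) + 1 := by
    rw [hn]
    exact (Nat.ceil_lt_add_one (by positivity)).le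
  obtain ⟨nh, hnh⟩ : ∃ nh : ℕ, nh = ⌈h * J⌉₊ := ⟨_, rfl⟩
  have hnh1 : h * J ≤ nh := by
    rw [hnh]
    exact Nat.le_ceil _
  have hnh2 : (nh : ℝ) ≤ h * J + 1 := by
    rw [hnh]
    exact (Nat.ceil_lt_add_one (by positivity)).le
  obtain ⟨n₁, hn₁⟩ : ∃ n₁ : ℕ, n₁ = ⌊h * J⌋₊ := ⟨_, rfl⟩
  have hn₁1 : (n₁ : ℝ) ≤ h * J := by
    rw [hn₁]
    exact Nat.floor_le (by positivity)
  have hn₁2 : h * J - 1 < n₁ := by
    rw [hn₁]
    exact lt_floor' _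
  obtain ⟨N', hN'⟩ : ∃ N' : ℕ, N' = ⌊h / 2 * J⌋₊ := ⟨_, rfl⟩
  have hN'1 : (N' : ℝ) ≤ h / 2 * J := by
    rw [hN']
    exact Nat.floor_le (by positivity)
  have hN'2 : h / 2 * J - 1 < N' := by
    rw [hN']
    exact lt_floor' _
  have hM1 : (⌊h / 4 * J⌋₊ : ℝ) ≤ h / 4 * J := Nat.floor_le (by positivity)
  obtain ⟨e', he'⟩ : ∃ e' : ℕ, e' = ⌊Δ / 2 * J⌋₊ := ⟨_, rfl⟩
  have he'1 : (e' : ℝ) ≤ Δ / 2 * J := by
    rw [he']
    exact Nat.floor_le (by positivity)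
  have he'2 : Δ / 2 * J - 1 < e' := by
    rw [he']
    exact lt_floor' _
  obtain ⟨r, hr⟩ : ∃ r : ℕ, r = ⌈(φ₁ + 5 * φ) * J + 1⌉₊ := ⟨_, rfl⟩
  have hr1 : (φ₁ + 5 * φ) * J + 1 ≤ r := by
    rw [hr]
    exact Nat.le_ceil _
  have hr2 : (r : ℝ) ≤ (φ₁ + 5 * φ) * J + 2 := by
    rw [hr]
    have := (Nat.ceil_lt_add_one (show 0 ≤ (φ₁ + 5 * φ) * (J : ℝ) + 1 by positivity)).le
    linarith
  obtain ⟨μ, hμ⟩ : ∃ μ : ℕ, μ = ⌊((3 * B2 + 4) * h - 5 * φ) * J⌋₊ := ⟨_, rfl⟩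
  have hφh : φ * 20 ≤ h / 4 := by
    refine le_trans ?_ s10
    have : 0 ≤ φ * (11 * D) := by positivity
    linarith
  have hμ0 : 0 ≤ ((3 * (B2 : ℝ) + 4) * h - 5 * φ) * J := by
    refine mul_nonneg ?_ hJ0
    have : 0 ≤ 3 * (B2 : ℝ) * h := by positivity
    linarith
  have hμ1 : (μ : ℝ) ≤ ((3 * B2 + 4) * h - 5 * φ) * J := by
    rw [hμ]
    exact Nat.floor_le hμ0
  have hμ2 : ((3 * (B2 : ℝ) + 4) * h - 5 * φ) * J - 1 < μ := by
    rw [hμ]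
    exact lt_floor' _
  have hxJ : φ * 20 * J ≤ h / 4 * J := mul_le_mul_of_nonneg_right hφh hJ0
  -- the precisions
  have hgA : ∀ l ≤ 2, (N.g l - φ) * J ≤ d.g' l ∧ (d.g' l : ℝ) ≤ (N.g l + φ) * J := by
    intro l hl
    have h1 := abs_le.1 (d.num l hl)
    constructor <;> linarith [h1.1, h1.2]
  have hgB : ∀ l ≤ 2, (N.g0 l - φ) * J ≤ d.g0' l ∧ (d.g0' l : ℝ) ≤ (N.g0 l + φ) * J := by
    intro l hl
    have h1 := abs_le.1 (d.num0 l hl)
    constructor <;> linarith [h1.1, h1.2]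
  have hsA := abs_le.1 d.nums
  have hsB := abs_le.1 d.nums0
  have hW1 : (⌊N.w1 * J⌋₊ : ℝ) ≤ w1 * J := by
    rw [hNw1]
    exact Nat.floor_le (by positivity)
  have hW0 : w0 * J - 1 < (⌊N.w0 * J⌋₊ : ℝ) := by
    rw [hNw0]
    exact lt_floor' _
  have hg2lo := (hgA 2 le_rfl).1
  have hγJ : (w1 + 2 * γ) * J ≤ N.g 2 * J := mul_le_mul_of_nonneg_right hgap1 hJ0
  have hφγ : φ * J ≤ γ / 30 * J := mul_le_mul_of_nonneg_right s7 hJ0
  have hLn : 1 + d.L ≤ 2 ^ n := by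
    have h1 : 1 + d.L = Real.exp (Real.log (1 + d.L)) := by
      rw [Real.exp_log]
      have := d.L0
      linarith
    rw [h1]
    refine exp_le_two ?_
    have := d.L1
    linarith
  have hkn : d.kap ≤ n := by
    have h1 : (d.kap : ℝ) ≤ n := by
      have := d.kapφ
      have : 0 ≤ φ * J := by positivity
      linarith
    exact_mod_cast h1
  have hW1g : ⌊N.w1 * J⌋₊ ≤ d.g' 2 := by
    have h1 : (⌊N.w1 * J⌋₊ : ℝ) ≤ d.g' 2 := by
      have e1 : (w1 + 2 * γ) * (J : ℝ) = w1 * J + 2 * (γ * J) := by ring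
      have e2 : (N.g 2 - φ) * (J : ℝ) = N.g 2 * J - φ * J := by ring
      have e3 : γ / 30 * (J : ℝ) = γ * J / 30 := by ring
      linarith
    exact_mod_cast h1
  have hgp : ∀ i < 3, wid ⌊N.w1 * J⌋₊ d.g' i + (11 * n + 27) ≤ d.g' 2 := by
    intro i hi
    have e2 : (N.g 2 - φ) * (J : ℝ) = N.g 2 * J - φ * J := by ring
    have e3 : γ / 30 * (J : ℝ) = γ * J / 30 := by ring
    have h2 : ((wid ⌊N.w1 * J⌋₊ d.g' i + (11 * n + 27) : ℕ) : ℝ) ≤ d.g' 2 := by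
      push_cast
      rcases Nat.eq_zero_or_pos i with rfl | h0
      · rw [wid_zero]
        have e1 : (w1 + 2 * γ) * (J : ℝ) = w1 * J + 2 * (γ * J) := by ring
        linarith
      · obtain ⟨l, rfl⟩ : ∃ l, i = l + 1 := ⟨i - 1, by omega⟩
        rw [wid_succ]
        have h3 := (hgA l (by omega)).2
        have h4 := mul_le_mul_of_nonneg_right (hgap l (by omega)) hJ0
        have e4 : (N.g l + φ) * (J : ℝ) = N.g l * J + φ * J := by ring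
        have e5 : (N.g l + 2 * γ) * (J : ℝ) = N.g l * J + 2 * (γ * J) := by ring
        linarith
    exact_mod_cast h2
  have hmv' : ((3 * (B2 : ℝ) + 4) * h) * J ≤ N.mv * J := mul_le_mul_of_nonneg_right hmv hJ0
  have hmv2' : ((3 * (B2 : ℝ) + 4) * h) * J ≤ (N.g 2 - N.g0 2) * J :=
    mul_le_mul_of_nonneg_right hmv2 hJ0
  have eμ : ((3 * (B2 : ℝ) + 4) * h - 5 * φ) * J = ((3 * (B2 : ℝ) + 4) * h) * J - 5 * (φ * J) := by
    ring
  have hm1 : d.g0' 2 + μ ≤ d.g' 2 := by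
    have h1 : ((d.g0' 2 + μ : ℕ) : ℝ) ≤ d.g' 2 := by
      push_cast
      have h2 := (hgB 2 le_rfl).2
      have e2 : (N.g 2 - φ) * (J : ℝ) = N.g 2 * J - φ * J := by ring
      have e3 : (N.g0 2 + φ) * (J : ℝ) = N.g0 2 * J + φ * J := by ring
      have e4 : (N.g 2 - N.g0 2) * (J : ℝ) = N.g 2 * J - N.g0 2 * J := by ring
      linarith
    exact_mod_cast h1
  have hm2 : d.g0' 2 + d.sg + μ ≤ d.g' 2 + d.sg0 := by
    have h1 : ((d.g0' 2 + d.sg + μ : ℕ) : ℝ) ≤ ((d.g' 2 + d.sg0 : ℕ) : ℝ) := by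
      push_cast
      have h2 := (hgB 2 le_rfl).2
      have e2 : (N.g 2 - φ) * (J : ℝ) = N.g 2 * J - φ * J := by ring
      have e3 : (N.g0 2 + φ) * (J : ℝ) = N.g0 2 * J + φ * J := by ring
      have e4 : N.mv * (J : ℝ) = N.g 2 * J - N.s * J - (N.g0 2 * J - N.s0 * J) := by
        unfold Nums.mv
        ring
      linarith [hsA.2, hsB.1]
    exact_mod_cast h1
  have hbig : 2 * cn + D * (11 * n + 27) + 2 * nh + 12 * n + 29 + 2 ^ Mb * (cn + 2 * nh + n₁) ≤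
      μ := by
    rw [← hB2]
    have h1 : ((2 * cn + D * (11 * n + 27) + 2 * nh + 12 * n + 29 +
        B2 * (cn + 2 * nh + n₁) : ℕ) : ℝ) ≤ μ := by
      push_cast
      have h2 : (D : ℝ) * (11 * n + 27) ≤ D * (11 * (2 * (φ * J) + 1) + 27) :=
        mul_le_mul_of_nonneg_left (by linarith) hD0
      have h3 : (B2 : ℝ) * (cn + 2 * nh + n₁) ≤ B2 * (cn + 2 * (h * J + 1) + h * J) :=
        mul_le_mul_of_nonneg_left (by linarith) hB20
      have h4 : φ * (11 * D + 20) * J ≤ h / 4 * J := mul_le_mul_of_nonneg_right s10 hJ0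
      have e1 : φ * (11 * D + 20) * (J : ℝ) = 11 * (D * (φ * J)) + 20 * (φ * J) := by ring
      have e2 : (D : ℝ) * (11 * (2 * (φ * J) + 1) + 27) = 22 * (D * (φ * J)) + 38 * D := by ring
      have e3 : (B2 : ℝ) * (cn + 2 * (h * J + 1) + h * J) =
          B2 * (cn + 2) + 3 * (B2 * (h * J)) := by ring
      have e4 : (3 * (B2 : ℝ) + 4) * h * J = 3 * (B2 * (h * J)) + 4 * (h * J) := by ring
      have e5 : h / 4 * (J : ℝ) = h * J / 4 := by ring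
      linarith
    exact_mod_cast h1
  obtain ⟨gc, hgc⟩ : ∃ gc : ℕ → ℕ, gc = fun l => ⌊(β0 l - dd l) * J⌋₊ := ⟨_, rfl⟩
  have hφΔ : (φ + φ₁) * J ≤ Δ / 8 * J := by
    refine mul_le_mul_of_nonneg_right ?_ hJ0
    have h1 : φ ≤ φ * (E4 + 1) := le_mul_of_one_le_right hφ0.le (by linarith)
    have h2 : φ₁ ≤ φ₁ * (E4 + 1) := le_mul_of_one_le_right hφ₁0.le (by linarith)
    linarith
  obtain ⟨q1, q2, q3, q4, q5⟩ := chn_num d (β0 := β0) (dd := dd) (φ₁ := φ₁) (e₀ := e₀)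
    (e₀' := e₀') (r := r) (e' := e') hgc hφ0 l4 hd1 hd2 hg0 hg02 hφ₁0.le (fun l hl => by
      have h1 := d.win0 (l + 1) (by omega)
      rw [wid_succ] at h1
      have h2 : (⌊N.w0 * J⌋₊ : ℝ) ≤ d.g0' l + d.kap := by exact_mod_cast h1
      have h3 := d.kapφ
      have h4 : φ * J ≤ w0 / 8 * J := mul_le_mul_of_nonneg_right s9 hJ0
      have h5 : (1 : ℝ) ≤ d.g0' l := by
        have e1 : w0 / 8 * (J : ℝ) = w0 * J / 8 := by ring
        linarith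
      exact_mod_cast h5) (by
      have h1 := hg02'.trans (min_le_right _ _)
      linarith) hr1 (by
      have e1 : (e₀' + φ + φ₁) * (J : ℝ) = e₀' * J + (φ + φ₁) * J := by ring
      have e2 : e₀ * (J : ℝ) = e₀' * J + Δ * J := by
        rw [hΔ]
        ring
      have e3 : Δ / 8 * (J : ℝ) = Δ * J / 8 := by ring
      have e4 : Δ / 2 * (J : ℝ) = Δ * J / 2 := by ring
      linarith) hwt
  have hnJ : n + 2 + d.g0' 2 + d.kap ≤ J := by
    have h1 : ((n + 2 + d.g0' 2 + d.kap : ℕ) : ℝ) ≤ J := by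
      push_cast
      have h2 := (hgB 2 le_rfl).2
      have h3 := d.kapφ
      have h4 : φ * J ≤ (1 - N.g0 2) / 8 * J := mul_le_mul_of_nonneg_right s8 hJ0
      have e1 : (N.g0 2 + φ) * (J : ℝ) = N.g0 2 * J + φ * J := by ring
      have e2 : (1 - N.g0 2) / 8 * (J : ℝ) = (J - N.g0 2 * J) / 8 := by ring
      have e3 : (1 - N.g0 2) * (J : ℝ) = J - N.g0 2 * J := by ring
      linarith
    exact_mod_cast h1
  have hrE : ∀ E : ℝ, 0 ≤ E → (r : ℝ) * E ≤ φ₁ * E * J + 5 * (φ * E * J) + 2 * E := by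
    intro E hE
    have h1 := mul_le_mul_of_nonneg_right hr2 hE
    have e1 : ((φ₁ + 5 * φ) * (J : ℝ) + 2) * E = φ₁ * E * J + 5 * (φ * E * J) + 2 * E := by ring
    linarith
  have hi4 : cn + n + r * ((K + D) * (K + D + 1) ^ 4) ≤ e' := by
    rw [← hE4]
    have h1 : ((cn + n + r * E4 : ℕ) : ℝ) ≤ e' := by
      push_cast
      have h2 := hrE E4 hE40
      have h3 : φ₁ * (E4 + 1) * J ≤ Δ / 16 * J := mul_le_mul_of_nonneg_right t5 hJ0
      have h4 : φ * (E4 + 1) * J ≤ Δ / 80 * J := mul_le_mul_of_nonneg_right s6 hJ0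
      have e1 : φ₁ * ((E4 : ℝ) + 1) * J = φ₁ * E4 * J + φ₁ * J := by ring
      have e2 : φ * ((E4 : ℝ) + 1) * J = φ * E4 * J + φ * J := by ring
      have e3 : Δ / 16 * (J : ℝ) = Δ * J / 16 := by ring
      have e4 : Δ / 80 * (J : ℝ) = Δ * J / 80 := by ring
      have e5 : Δ / 2 * (J : ℝ) = Δ * J / 2 := by ring
      have h5 : 0 ≤ φ₁ * J := by positivity
      have h6 : 0 ≤ φ * E4 * J := by positivity
      linarith
    exact_mod_cast h1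
  have hi5 : cn + r * ((K + D) * (K + D + 1) ^ 5) + N' ≤ n₁ := by
    rw [← hE5]
    have h1 : ((cn + r * E5 + N' : ℕ) : ℝ) ≤ n₁ := by
      push_cast
      have h2 := hrE E5 hE50
      have h3 : φ₁ * (E5 + 1) * J ≤ h / 16 * J := mul_le_mul_of_nonneg_right t4 hJ0
      have h4 : φ * (E5 + 1) * J ≤ h / 80 * J := mul_le_mul_of_nonneg_right s5 hJ0
      have e1 : φ₁ * ((E5 : ℝ) + 1) * J = φ₁ * E5 * J + φ₁ * J := by ring
      have e2 : φ * ((E5 : ℝ) + 1) * J = φ * E5 * J + φ * J := by ring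
      have e3 : h / 16 * (J : ℝ) = h * J / 16 := by ring
      have e4 : h / 80 * (J : ℝ) = h * J / 80 := by ring
      have e5 : h / 2 * (J : ℝ) = h * J / 2 := by ring
      have h5 : 0 ≤ φ₁ * J := by positivity
      have h6 : 0 ≤ φ * J := by positivity
      linarith
    exact_mod_cast h1
  have hi6 : cn + ⌊h / 4 * J⌋₊ < N' := by
    have h1 : ((cn + ⌊h / 4 * J⌋₊ : ℕ) : ℝ) < N' := by
      push_cast
      have e4 : h / 4 * (J : ℝ) = h * J / 4 := by ring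
      have e5 : h / 2 * (J : ℝ) = h * J / 2 := by ring
      linarith
    exact_mod_cast h1
  have hk1 : Pe (p2 F A ⌊N.w0 * J⌋₊) (Evf d D ⌊q * J⌋₊ (PLN.ex h J) (PLN.ex (-h) J)
      (2 ^ (nh + 2))) ≤ 2 ^ cn * κ := by
    subst hMb
    refine hmd d (mn := mnb (Option (Fin 3)) D) (q := ⌊q * J⌋₊) (n := n)
      (μ := μ) (nh := nh) (n₁ := n₁) (r := r)
      (e := ⌊e₀ * J⌋₊) (e' := e') (M := ⌊h / 4 * J⌋₊) (N' := N') (gc := gc) (h := h) (κ := κ)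
      deg_mnb (fun v hv => inj_mnb hv) (fun P hP => rep_mnb hP) hc ?_ ?_ hW1g hA hLn hkn hgp hm1
      hm2 ?_ hnh1 hbig q1 q2 q3 q4 q5 hnJ hi4 ?_ ?_ hi5 hi6 hκ0 ?_
    · rw [hNw0]
      refine Nat.floor_le_of_le ?_
      exact mul_le_of_le_one_left hJ0 hw01
    · rw [hNw1]
      refine Nat.floor_le_of_le ?_
      exact mul_le_of_le_one_left hJ0 hw11
    · have h1 : (0 : ℝ) ≤ E5 := hE50
      linarith
    · rw [he']
      refine Nat.floor_le_floor ?_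
      refine mul_le_mul_of_nonneg_right ?_ hJ0
      rw [hΔ]
      linarith
    · have h1 : (1 : ℝ) ≤ r := by
        have : 0 ≤ (φ₁ + 5 * φ) * (J : ℝ) := by positivity
        linarith
      exact_mod_cast h1
    · intro A' hA' hP
      have h1 := hG1 A' hA' hP
      rw [hNw0, hgc]
      exact h1
  have hk2 : Pe (p2 F A ⌊N.w0 * J⌋₊) (fun v => ¬ d.Lr D ⌊q * J⌋₊ (PLN.ex (-h) J) v.1) ≤
      c₀ / 4 := by
    have h1 := pe_marg (fun ω => Pool.KM7.P2_fst hpl (slam F ⌊N.w0 * J⌋₊) ω)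
      (fun ω => ¬ d.Lr D ⌊q * J⌋₊ (PLN.ex (-h) J) ω)
    rw [h1]
    exact hG3
  have hk3 : Pe (p2 F A ⌊N.w0 * J⌋₊) (fun v => ¬ Jt d D (2 ^ (nh + 2)) v.1) ≤ c₀ / 4 := by
    have h1 := pe_marg (fun ω => Pool.KM7.P2_fst hpl (slam F ⌊N.w0 * J⌋₊) ω)
      (fun ω => ¬ Jt d D (2 ^ (nh + 2)) ω)
    rw [h1, Pe_cond, div_le_iff₀ hA]
    refine le_trans (pe_mono F.isLaw.nonneg fun ω _ hω => ?_) (hG2 d.g' d.sg d.L d.V d.z d.z' d.P
      (fun l hl => ?_) (fun l hl => ?_) ?_ d.top d.L0 ?_ (by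
        rw [← hNw1]
        exact d.lab))
    · refine ⟨hω.1, ?_⟩
      rintro ⟨Q, S', k, hk, hJt⟩
      refine hω.2 ⟨Q, S', k, ?_, ?_⟩
      · refine pow_le_pow_right₀ (by norm_num) ?_
        have h2 : (k : ℝ) ≤ nh := hk.trans hnh1
        have h3 : k ≤ nh := by exact_mod_cast h2
        omega
      · rw [hNw1]
        exact hJt.deg_mono hD
    · refine le_trans (mul_le_mul_of_nonneg_right ?_ hJ0) (hgA l (by omega)).1
      have := hg1 l hl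
      linarith
    · have h3 := (hgA l (by omega)).2
      have h4 := mul_le_mul_of_nonneg_right (hgap l (by omega)) hJ0
      have e2 : (N.g 2 - φ) * (J : ℝ) = N.g 2 * J - φ * J := by ring
      have e3 : γ / 30 * (J : ℝ) = γ * J / 30 := by ring
      have e4 : (N.g l + φ) * (J : ℝ) = N.g l * J + φ * J := by ring
      have e5 : (N.g l + 2 * γ) * (J : ℝ) = N.g l * J + 2 * (γ * J) := by ring
      linarith
    · have e1 : (w1 + 2 * γ) * (J : ℝ) = (w1 + γ) * J + γ * J := by ring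
      have e2 : (N.g 2 - φ) * (J : ℝ) = N.g 2 * J - φ * J := by ring
      have e3 : γ / 30 * (J : ℝ) = γ * J / 30 := by ring
      linarith
    · refine d.L1.trans (mul_le_mul_of_nonneg_right ?_ hJ0)
      linarith
  have hcκ : 2 ^ cn * κ = c₀ / 4 := by
    rw [hκ]
    field_simp
  rw [hcκ] at hk1
  have hnn : ∀ v, 0 ≤ p2 F A ⌊N.w0 * J⌋₊ v := (Pool.KM7.P2_isLaw hpl _).nonneg
  have h1 := pe_le_add hnn (A := fun v => ¬ d.Fal D (PLN.ex h J) (d.κ v.1) (d.κ v.2) ∧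
      ¬ d.Fal D (PLN.ex h J) (d.κ v.2) (d.κ v.1))
    (B := Evf d D ⌊q * J⌋₊ (PLN.ex h J) (PLN.ex (-h) J) (2 ^ (nh + 2)))
    (C := fun v => ¬ d.Lr D ⌊q * J⌋₊ (PLN.ex (-h) J) v.1 ∨ ¬ Jt d D (2 ^ (nh + 2)) v.1)
    (fun v _ hv => by
      by_cases h2 : d.Lr D ⌊q * J⌋₊ (PLN.ex (-h) J) v.1
      · by_cases h3 : Jt d D (2 ^ (nh + 2)) v.1
        · exact Or.inl ⟨hv.1, hv.2, h2, h3⟩
        · exact Or.inr (Or.inr h3)
      · exact Or.inr (Or.inl h2))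
  have h2 := pe_le_add hnn (A := fun v : F.Ω × F.Ω =>
      ¬ d.Lr D ⌊q * J⌋₊ (PLN.ex (-h) J) v.1 ∨ ¬ Jt d D (2 ^ (nh + 2)) v.1)
    (B := fun v => ¬ d.Lr D ⌊q * J⌋₊ (PLN.ex (-h) J) v.1)
    (C := fun v => ¬ Jt d D (2 ^ (nh + 2)) v.1) (fun v _ hv => hv)
  linarith

end Pool.FAL
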