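import Pool.Agent.H57.FAL.Num

/-!
# The precisions of the chain of the labels
-/

set_option autoImplicit false

namespace Pool.FAL

open Finset Real MvPolynomial
open Pool.Agent.H49.Ent Pool.Agent.H32.Dense Pool.STK Pool.KAF Pool.KAL Pool.KS3 Pool.M3F
open Pool.KJA Pool.KA Pool.K2S Pool.KSAT Pool.PB Pool.STAT Pool.STAT.CLO Pool.GEN Pool.CLO37
open Pool.PLN

variable {m J : ℕ} {N : Nums} {φ : ℝ} {K : ℕ} {F : Fam m J} {c : ℕ → Fin m} {A : F.Ω → Prop}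

theorem floor_le_max (x : ℝ) : (⌊x⌋₊ : ℝ) ≤ max x 0 := by
  rcases le_total 0 x with h | h
  · exact (Nat.floor_le h).trans (le_max_left _ _)
  · rw [Nat.floor_of_nonpos h, Nat.cast_zero]
    exact le_max_right _ _

theorem lt_floor' (x : ℝ) : x - 1 < (⌊x⌋₊ : ℝ) := by
  have := Nat.lt_floor_add_one x
  linarith

/-- **The precisions of the chain.** -/
theorem chn_num (d : Dat N φ K F c A) {β0 dd : ℕ → ℝ} {φ₁ e₀ e₀' : ℝ} {r e' : ℕ} {gc : ℕ → ℕ}
    (hgc : gc = fun l => ⌊(β0 l - dd l) * J⌋₊) (hφ : 0 < φ) (hJ : 2 ≤ φ * J)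
    (hd1 : ∀ l < 2, dd l = max (β0 l - N.g0 l) 0 + 3 * φ)
    (hd2 : dd 2 = max (β0 2 - (N.g0 2 - N.s0)) 0 + 3 * φ)
    (hb1 : ∀ l < 2, |N.g0 l - β0 l| ≤ φ₁) (hb2 : (N.g0 2 - N.s0) - β0 2 ≤ φ₁) (hφ₁ : 0 ≤ φ₁)
    (hpos : ∀ l < 2, 1 ≤ d.g0' l) (hpos2 : 4 * φ ≤ N.g0 2 - N.s0)
    (hr : (φ₁ + 5 * φ) * J + 1 ≤ r) (he : e' + (e₀' + φ + φ₁) * J + 2 ≤ e₀ * J)
    (hw : N.g0 2 ≤ max (N.g0 1) (N.g0 2 - N.s0) + e₀') :
    (∀ l < 2, gc l + 1 ≤ d.g0' l) ∧ gc 2 + d.sg0 + 2 ≤ d.g0' 2 ∧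
      (∀ l < 2, d.g0' l ≤ r + gc l) ∧ d.g0' 2 ≤ r + (d.sg0 + gc 2) ∧
      e' + d.sg0 ≤ ⌊e₀ * J⌋₊ + (gc 1 - gc 2) := by
  have hJ0 : (0 : ℝ) ≤ J := Nat.cast_nonneg J
  have hg : ∀ l ≤ 2, (N.g0 l - φ) * J ≤ d.g0' l ∧ (d.g0' l : ℝ) ≤ (N.g0 l + φ) * J := by
    intro l hl
    have h1 := abs_le.1 (d.num0 l hl)
    constructor <;> linarith [h1.1, h1.2]
  have hs : (N.s0 - φ) * J ≤ d.sg0 ∧ (d.sg0 : ℝ) ≤ (N.s0 + φ) * J := by
    have h1 := abs_le.1 d.nums0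
    constructor <;> linarith [h1.1, h1.2]
  have hgl : ∀ l, (gc l : ℝ) ≤ max ((β0 l - dd l) * J) 0 := by
    intro l
    rw [hgc]
    exact floor_le_max _
  have hgu : ∀ l, (β0 l - dd l) * J - 1 < gc l := by
    intro l
    rw [hgc]
    exact lt_floor' _
  -- the defects
  have k1 : ∀ l < 2, β0 l - dd l ≤ N.g0 l - 3 * φ := by
    intro l hl
    have := le_max_left (β0 l - N.g0 l) 0
    rw [hd1 l hl]
    linarith
  have k2 : β0 2 - dd 2 ≤ N.g0 2 - N.s0 - 3 * φ := by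
    have := le_max_left (β0 2 - (N.g0 2 - N.s0)) 0
    rw [hd2]
    linarith
  have k3 : ∀ l < 2, N.g0 l - (β0 l - dd l) ≤ φ₁ + 3 * φ := by
    intro l hl
    have h1 := abs_le.1 (hb1 l hl)
    rw [hd1 l hl]
    rcases max_cases (β0 l - N.g0 l) 0 with h | h
    · linarith [h.1]
    · linarith [h.1, h1.2]
  have k4 : (N.g0 2 - N.s0) - (β0 2 - dd 2) ≤ φ₁ + 3 * φ := by
    rw [hd2]
    rcases max_cases (β0 2 - (N.g0 2 - N.s0)) 0 with h | h
    · linarith [h.1]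
    · linarith [h.1]
  refine ⟨fun l hl => ?_, ?_, fun l hl => ?_, ?_, ?_⟩
  · rcases le_total 0 ((β0 l - dd l) * (J : ℝ)) with h | h
    · have h1 := hgl l
      rw [max_eq_left h] at h1
      have h2 := mul_le_mul_of_nonneg_right (k1 l hl) hJ0
      have h3 := (hg l (by omega)).1
      have h4 : ((gc l + 1 : ℕ) : ℝ) ≤ d.g0' l := by
        push_cast
        have e1 : (N.g0 l - 3 * φ) * J = (N.g0 l - φ) * J - 2 * (φ * J) := by ring
        linarith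
      exact_mod_cast h4
    · have h1 := hgl l
      rw [max_eq_right h] at h1
      have h2 : gc l = 0 := by
        have : (gc l : ℝ) = 0 := le_antisymm h1 (Nat.cast_nonneg _)
        exact_mod_cast this
      have := hpos l hl
      omega
  · have h3 := (hg 2 le_rfl).1
    have h4 : ((gc 2 + d.sg0 + 2 : ℕ) : ℝ) ≤ d.g0' 2 := by
      push_cast
      have h1 := hgl 2
      rcases le_total 0 ((β0 2 - dd 2) * (J : ℝ)) with h | h
      · rw [max_eq_left h] at h1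
        have h2 := mul_le_mul_of_nonneg_right k2 hJ0
        have e1 : (N.g0 2 - N.s0 - 3 * φ) * J = (N.g0 2 - φ) * J - (N.s0 + φ) * J - φ * J := by
          ring
        linarith [hs.2]
      · rw [max_eq_right h] at h1
        have h2 := mul_le_mul_of_nonneg_right hpos2 hJ0
        have e1 : (N.g0 2 - N.s0) * J - 4 * φ * J =
          (N.g0 2 - φ) * J - (N.s0 + φ) * J - 2 * (φ * J) := by ring
        linarith [hs.2]
    exact_mod_cast h4
  · have h4 : (d.g0' l : ℝ) ≤ ((r + gc l : ℕ) : ℝ) := by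
      push_cast
      have h1 := hgu l
      have h2 := (hg l (by omega)).2
      have h3 := mul_le_mul_of_nonneg_right (k3 l hl) hJ0
      have e1 : (N.g0 l - (β0 l - dd l)) * J = (N.g0 l + φ) * J - (β0 l - dd l) * J - φ * J := by
        ring
      have e2 : (φ₁ + 5 * φ) * (J : ℝ) = (φ₁ + 3 * φ) * J + 2 * (φ * J) := by ring
      linarith
    exact_mod_cast h4
  · have h4 : (d.g0' 2 : ℝ) ≤ ((r + (d.sg0 + gc 2) : ℕ) : ℝ) := by
      push_cast
      have h1 := hgu 2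
      have h2 := (hg 2 le_rfl).2
      have h3 := mul_le_mul_of_nonneg_right k4 hJ0
      have e1 : (N.g0 2 - N.s0 - (β0 2 - dd 2)) * J =
        (N.g0 2 + φ) * J - (N.s0 - φ) * J - (β0 2 - dd 2) * J - 2 * (φ * J) := by
        ring
      have e2 : (φ₁ + 5 * φ) * (J : ℝ) = (φ₁ + 3 * φ) * J + 2 * (φ * J) := by ring
      linarith [hs.1]
    exact_mod_cast h4
  · have he1 := lt_floor' (e₀ * (J : ℝ))
    have hs2 := hs.2
    rcases le_total (N.g0 1) (N.g0 2 - N.s0) with h | h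
    · rw [max_eq_right h] at hw
      have h5 : N.s0 * J ≤ e₀' * J := mul_le_mul_of_nonneg_right (by linarith) hJ0
      have h6 : 0 ≤ φ₁ * J := by positivity
      have h4 : ((e' + d.sg0 : ℕ) : ℝ) ≤ (⌊e₀ * J⌋₊ : ℝ) := by
        push_cast
        have e2 : (N.s0 + φ) * (J : ℝ) = N.s0 * J + φ * J := by ring
        have e3 : (e₀' + φ + φ₁) * (J : ℝ) = e₀' * J + φ * J + φ₁ * J := by ring
        linarith
      have h7 : e' + d.sg0 ≤ ⌊e₀ * J⌋₊ := by exact_mod_cast h4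
      omega
    · rw [max_eq_left h] at hw
      have h8 : (gc 1 : ℝ) - gc 2 ≤ ((gc 1 - gc 2 : ℕ) : ℝ) := by
        rw [sub_le_iff_le_add]
        have h14 : gc 1 ≤ gc 1 - gc 2 + gc 2 := by omega
        exact_mod_cast h14
      have h9 := hgu 1
      have h10 := hgl 2
      have h11 := mul_le_mul_of_nonneg_right (k3 1 (by omega)) hJ0
      have h12 : (gc 2 : ℝ) ≤ (N.g0 2 - N.s0 - 3 * φ) * J := by
        refine h10.trans (max_le (mul_le_mul_of_nonneg_right k2 hJ0) ?_)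
        exact mul_nonneg (by linarith) hJ0
      have h13 : N.s0 * J ≤ (N.g0 1 - (N.g0 2 - N.s0) + e₀') * J :=
        mul_le_mul_of_nonneg_right (by linarith) hJ0
      have h4 : ((e' + d.sg0 : ℕ) : ℝ) ≤ ((⌊e₀ * J⌋₊ + (gc 1 - gc 2) : ℕ) : ℝ) := by
        push_cast
        have e1 : (N.s0 + φ) * (J : ℝ) = N.s0 * J + φ * J := by ring
        have e3 : (e₀' + φ + φ₁) * (J : ℝ) = e₀' * J + φ * J + φ₁ * J := by ring
        have e4 : (N.g0 1 - (N.g0 2 - N.s0) + e₀') * (J : ℝ) =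
          N.g0 1 * J - (N.g0 2 - N.s0) * J + e₀' * J := by ring
        have e5 : (N.g0 1 - (β0 1 - dd 1)) * (J : ℝ) = N.g0 1 * J - (β0 1 - dd 1) * J := by ring
        have e6 : (N.g0 2 - N.s0 - 3 * φ) * (J : ℝ) = (N.g0 2 - N.s0) * J - 3 * (φ * J) := by
          ring
        have e7 : (φ₁ + 3 * φ) * (J : ℝ) = φ₁ * J + 3 * (φ * J) := by ring
        linarith
      exact_mod_cast h4

end Pool.FAL
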