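import Pool.Agent.H57.FAL.Rel

/-!
# The labels are a chain; closed relations of the labels
-/

set_option autoImplicit false

namespace Pool.FAL

open Finset Real MvPolynomial
open Pool.Agent.H49.Ent Pool.Agent.H32.Dense Pool.STK Pool.KAF Pool.KAL Pool.KS3 Pool.M3F
open Pool.KJA Pool.KA Pool.K2S Pool.KSAT Pool.PB Pool.STAT Pool.STAT.CLO Pool.GEN Pool.CLO37
open Pool.S6C

variable {m J : ℕ} {F : Fam m J}

/-- The exact position and the rounded position. -/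
theorem px_near (c : ℕ → Fin m) (ω : F.Ω) (n : ℕ) :
    |(if n = 0 then F.t ω else F.x ω (c (n - 1))) - px c (ptr F J ω) n| ≤ 1 / 2 ^ J := by
  rcases Nat.eq_zero_or_pos n with rfl | hn
  · rw [if_pos rfl, px_zero, sub_self, abs_zero]
    positivity
  · obtain ⟨n, rfl⟩ : ∃ n', n = n' + 1 := ⟨n - 1, by omega⟩
    rw [if_neg (by omega), px_succ]
    show |F.x ω (c n) - ((⌊(2 : ℝ) ^ J * F.x ω (c n)⌋ : ℤ) : ℝ) / 2 ^ J| ≤ _
    have hJ : (0 : ℝ) < 2 ^ J := by positivity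
    have h1 := Int.floor_le ((2 : ℝ) ^ J * F.x ω (c n))
    have h2 := Int.lt_floor_add_one ((2 : ℝ) ^ J * F.x ω (c n))
    have e1 : F.x ω (c n) - ((⌊(2 : ℝ) ^ J * F.x ω (c n)⌋ : ℤ) : ℝ) / 2 ^ J =
        (2 ^ J * F.x ω (c n) - ((⌊(2 : ℝ) ^ J * F.x ω (c n)⌋ : ℤ) : ℝ)) / 2 ^ J := by
      field_simp
    rw [e1, abs_div, abs_of_pos hJ]
    refine div_le_div_of_nonneg_right ?_ hJ.le
    rw [abs_le]
    constructor <;> linarith

/-- The exact position in the variables of the label. -/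
theorem lab_bt (c : ℕ → Fin m) (sg : ℕ) (ω : F.Ω) :
    (∀ l < 3, |lab c sg (bt F ω) l - lbp c sg (ptr F J ω) l| ≤ 1 / 2 ^ J) ∧
      |lab c sg (bt F ω) 3 - lbp c sg (ptr F J ω) 3| ≤ 1 / 2 ^ J := by
  constructor
  · intro l hl
    have h1 := px_near c ω l
    rw [lbp_lt hl]
    have e1 : lab c sg (bt F ω) l = if l = 0 then F.t ω else F.x ω (c (l - 1)) := by
      unfold lab
      split_ifs
      · rfl
      · rfl
    rw [e1]
    exact h1
  · have h1 := px_near c ω 3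
    rw [if_neg (by omega)] at h1
    rw [lbp_three]
    have e1 : lab c sg (bt F ω) 3 = F.x ω (c 2) / 2 ^ sg := by
      unfold lab
      rw [if_neg (by omega), if_neg (by omega), if_pos rfl]
      rfl
    have hs : (0 : ℝ) < 2 ^ sg := by positivity
    rw [e1, ← sub_div, abs_div, abs_of_pos hs]
    refine le_trans (div_le_self (abs_nonneg _) (one_le_pow₀ (by norm_num))) ?_
    exact h1

/-- **The labels are a chain.** -/
theorem gch_ok (KK : ℕ) : ∃ C : ℝ, 1 ≤ C ∧ ∀ {m J K : ℕ} {F : Fam m J} {c : ℕ → Fin m}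
    {W0 sg0 : ℕ} {g0 gc : ℕ → ℕ} {L ρ : ℝ} {A A' : F.Ω → Prop} {V : Type} {z : PtT F → V}
    {z' : LnT F → V} {P : V → ℕ → PN} {e e' : ℕ},
    Inj c 3 → NLabW F c 2 W0 sg0 g0 K L A z z' P → K ≤ KK →
    (∀ v, ∀ i < 3, (P v i).totalDegree ≤ 1) → 0 ≤ L → W0 ≤ J → g0 2 ≤ J → (∀ ω, A' ω → A ω) →
    (∀ l < 2, gc l + 1 ≤ g0 l) → gc 2 + sg0 + 2 ≤ g0 2 → 2 ≤ ρ →
    (∀ l < 2, (2 : ℝ) ^ (g0 l) ≤ ρ * 2 ^ gc l) → (2 : ℝ) ^ g0 2 ≤ ρ * (2 ^ sg0 * 2 ^ gc 2) →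
    (∀ i < 3, (1 + 3 * L) * (1 / 2 ^ J) ≤ 1 / 2 ^ wid W0 g0 i) →
    (1 + 3 * L) * (1 / 2 ^ J) ≤ 1 / 2 ^ g0 2 → C * L * ρ ^ (KK * (KK + 1) ^ 4) ≤ 2 ^ e' →
    e' ≤ e → e' + sg0 ≤ e + (gc 1 - gc 2) →
    ChOK F c 3 (kcl K) W0 W0 e gc A' (fun y i => gch c sg0 (P (z y)) i)
      (fun s i => gch c sg0 (P (z' s)) i) := by
  obtain ⟨C, hC, hdil⟩ := dil 3 KK
  refine ⟨C, hC, ?_⟩
  intro m J K F c W0 sg0 g0 gc L ρ A A' V z z' P e e' hc hN hKK h1d hL hWJ hgJ hA' hgc hgc2 hρ hρ1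
    hρ2 hJw hJg he' hee hes
  have hcell : ∀ ω, |F.t ω - (F.T1 W0 ω : ℝ) / 2 ^ W0| ≤ 1 / 2 ^ W0 := fun ω =>
    CLO.t_cell F hWJ ω
  have hLJ : 3 * (1 / 2 ^ J * L) ≤ (1 + 3 * L) * (1 / 2 ^ J) - 1 / 2 ^ J :=
    le_of_eq (by ring)
  refine ⟨fun y i => gch_deg (h1d _) (hN.deg _ 3) i, fun s i => gch_deg (h1d _) (hN.deg _ 3) i,
    fun y i => gch_dep (hN.tri _) i, fun s i => gch_dep (hN.tri _) i, ?_, ?_, ?_⟩
  · intro ω hω i hi
    obtain ⟨b1, b2⟩ := lab_bt c sg0 ω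
    obtain ⟨h1, h2⟩ := nbr hN hL hWJ hgJ (hA' ω hω) (by positivity) hJw b1 b2
    rcases Nat.lt_or_ge i 2 with h3 | h3
    · rw [gch_lt (hN.tri _) h3]
      have h4 := h1 (i + 1) (by omega)
      rw [wid_succ] at h4
      have e1 : lab c sg0 (bt F ω) (i + 1) = F.x ω (c i) := by
        unfold lab
        rw [if_neg (by omega), if_pos (by omega)]
        rfl
      rw [e1] at h4
      refine h4.trans ?_
      rw [div_le_div_iff₀ (by positivity) (by positivity), one_mul, ← pow_succ']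
      exact pow_le_pow_right₀ (by norm_num) (hgc i h3)
    · have h4 : i = 2 := by omega
      subst h4
      rw [gch_two (hN.tri _)]
      have e1 : lab c sg0 (bt F ω) 3 = F.x ω (c 2) / 2 ^ sg0 := by
        unfold lab
        rw [if_neg (by omega), if_neg (by omega), if_pos rfl]
        rfl
      have hs : (0 : ℝ) < 2 ^ sg0 := by positivity
      have e2 : F.x ω (c 2) = 2 ^ sg0 * lab c sg0 (bt F ω) 3 := by
        rw [e1]
        field_simp
      rw [e2, ← mul_sub, abs_mul, abs_of_pos hs]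
      have h5 : |lab c sg0 (bt F ω) 3 - eval (lab c sg0 (bt F ω)) (P (z (ptr F J ω)) 3)| ≤
          3 / 2 ^ g0 2 := by
        have e3 : (3 : ℝ) / 2 ^ g0 2 = 2 / 2 ^ g0 2 + 1 / 2 ^ g0 2 := by ring
        rw [e3]
        linarith
      calc 2 ^ sg0 * |lab c sg0 (bt F ω) 3 -
            eval (lab c sg0 (bt F ω)) (P (z (ptr F J ω)) 3)| ≤ 2 ^ sg0 * (3 / 2 ^ g0 2) :=
            mul_le_mul_of_nonneg_left h5 hs.le
        _ ≤ 2 ^ sg0 * (2 ^ 2 / 2 ^ g0 2) := by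
            refine mul_le_mul_of_nonneg_left ?_ hs.le
            exact div_le_div_of_nonneg_right (by norm_num) (by positivity)
        _ = 2 ^ (2 + sg0) / 2 ^ g0 2 := by rw [pow_add]; ring
        _ ≤ 1 / 2 ^ gc 2 := by
            rw [div_le_div_iff₀ (by positivity) (by positivity), one_mul, ← pow_add]
            exact pow_le_pow_right₀ (by norm_num) (by omega)
  · intro ω hω i _ b _
    rw [hN.cls ω (hA' ω hω), sub_self, abs_zero]
    positivity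
  · intro ω hω i hi b hb l hl
    have hi2 : i ≤ 2 := by omega
    have hb' := nbx_bxr (hN.tri (z (ptr F J ω))) (hN.zero ω (hA' ω hω)) (hcell ω) hρ hρ1 hρ2
      (by omega : i ≤ 3) hb
    have hval : |eval (lab c sg0 b) (pderiv (l + 1) (P (z (ptr F J ω)) (i + 1)))| ≤ 2 ^ e' := by
      have h1 := hdil (P (z (ptr F J ω))) (wid W0 g0) (pderiv (l + 1) (P (z (ptr F J ω)) (i + 1)))
        (i + 1) L ρ (hN.tri _) (fun j => (hN.deg _ j).trans hKK) (by omega)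
        ((NEAR.vars_pd _ _).trans (hN.tri _ _))
        (SML.totalDegree_pderiv_le _ _ KK (((hN.deg _ _).trans hKK).trans (Nat.le_succ _)))
        (by linarith) (fun b' hb'1 => by
          obtain ⟨b'', hb1, hb2⟩ := bxr_ext (hN.tri (z (ptr F J ω))) zero_le_one hb'1 3
          have h2 := hN.grad ω (hA' ω hω) b'' (hb2.mono (by norm_num) le_rfl) (i + 1) (by omega)
            (l + 1) (by omega)
          have h3 : eval b'' (pderiv (l + 1) (P (z (ptr F J ω)) (i + 1))) =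
              eval b' (pderiv (l + 1) (P (z (ptr F J ω)) (i + 1))) :=
            eval_cg ((NEAR.vars_pd _ _).trans (hN.tri _ _)) fun k hk => hb1 k hk
          rw [← h3]
          exact h2) _ hb'
      exact h1.trans he'
    rcases Nat.lt_or_ge i 2 with h3 | h3
    · have e1 : gch c sg0 (P (z (ptr F J ω))) i = bk c (P (z (ptr F J ω)) (i + 1)) := if_pos h3
      rw [e1, pd_bk (sg := sg0) hc hi2 hl (hN.tri _ _)]
      refine hval.trans (pow_le_pow_right₀ (by norm_num) ?_)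
      omega
    · have h4 : i = 2 := by omega
      subst h4
      have e1 : gch c sg0 (P (z (ptr F J ω))) 2 =
          MvPolynomial.C ((2 : ℝ) ^ sg0) * bk c (P (z (ptr F J ω)) 3) := by
        unfold gch
        rw [if_neg (by omega), if_pos rfl]
      have hs : (0 : ℝ) < 2 ^ sg0 := by positivity
      rw [e1, pderiv_C_mul, map_mul, eval_C, pd_bk (sg := sg0) hc le_rfl hl (hN.tri _ _), abs_mul,
        abs_of_pos hs]
      have h5 : gc 1 ≤ (Finset.Icc l 2).sup gc :=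
        Finset.le_sup (f := gc) (Finset.mem_Icc.2 ⟨by omega, by omega⟩)
      calc 2 ^ sg0 * |eval (lab c sg0 b) (pderiv (l + 1) (P (z (ptr F J ω)) 3))| ≤
            2 ^ sg0 * 2 ^ e' := mul_le_mul_of_nonneg_left hval hs.le
        _ = 2 ^ (sg0 + e') := (pow_add _ _ _).symm
        _ ≤ _ := by
            refine pow_le_pow_right₀ (by norm_num) ?_
            unfold nlp
            omega

/-- **No relation**, for one member. -/
def RelM (F : Fam m J) (c : ℕ → Fin m) (Kv : ℕ → ℕ) (W e : ℕ) (gc : ℕ → ℕ) (D M : ℕ) (η' : ℝ)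
    (A : F.Ω → Prop) : Prop :=
  ∀ (G : PtT F → ℕ → MvPolynomial (Option (Fin m)) ℝ)
    (H : LnT F → ℕ → MvPolynomial (Option (Fin m)) ℝ), ChOK F c 3 Kv W W e gc A G H →
    ∀ (Dx : PtT F → MvPolynomial (Option (Fin m)) ℝ)
      (Dl : LnT F → MvPolynomial (Option (Fin m)) ℝ) (N : ℕ),
      (∀ y, (Dx y).totalDegree ≤ D) → (∀ s, (Dl s).totalDegree ≤ D) →
      (∀ y, DepC c 3 (Dx y)) → (∀ s, DepC c 3 (Dl s)) →
      (∀ ω, A ω → |eval (bt F ω) (Dx (ptr F J ω))| ≤ 1 / 2 ^ N) →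
      (∀ ω, A ω → ∀ b, NBx c (G (ptr F J ω)) gc W (F.t ω) 3 b →
        |eval b (Dx (ptr F J ω)) - eval b (Dl (slam F W ω))| ≤ 1 / 2 ^ N) →
      ∃ B : F.Ω → Prop, Sub B A ∧ (1 - η') * Pe F.p A ≤ Pe F.p B ∧ ∀ ω, B ω →
        ∀ b, NBx c (G (ptr F J ω)) gc W (F.t ω) 3 b →
          |eval b (Dx (ptr F J ω))| ≤ 2 ^ M / 2 ^ N

/-- The exact position in the scaled variables. -/
theorem spt_bt (c : ℕ → Fin m) {W sg sg0 : ℕ} {a : ℝ} (ha : a = 2 ^ sg0 / 2 ^ sg) (ω : F.Ω)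
    (o : Option (Fin 3)) : |spt W a (lab c sg0 (bt F ω)) o - zsw c 2 W sg (ptr F J ω) o| ≤
      2 ^ W / 2 ^ J := by
  have hW : (0 : ℝ) < 2 ^ W := by positivity
  cases o with
  | none =>
    have h1 := px_near c ω 3
    rw [if_neg (by omega)] at h1
    have e1 : lab c sg0 (bt F ω) 3 = F.x ω (c 2) / 2 ^ sg0 := by
      unfold lab
      rw [if_neg (by omega), if_neg (by omega), if_pos rfl]
      rfl
    show |2 ^ W * a * lab c sg0 (bt F ω) 3 - 2 ^ W * (px c (ptr F J ω) 3 / 2 ^ sg)| ≤ _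
    have e2 : 2 ^ W * a * lab c sg0 (bt F ω) 3 - 2 ^ W * (px c (ptr F J ω) 3 / 2 ^ sg) =
        2 ^ W * ((F.x ω (c (3 - 1)) - px c (ptr F J ω) 3) / 2 ^ sg) := by
      rw [e1, ha]
      field_simp
    rw [e2, abs_mul, abs_of_pos hW, abs_div, abs_of_pos (by positivity : (0 : ℝ) < 2 ^ sg)]
    calc 2 ^ W * (|F.x ω (c (3 - 1)) - px c (ptr F J ω) 3| / 2 ^ sg) ≤ 2 ^ W * (1 / 2 ^ J) := by
          refine mul_le_mul_of_nonneg_left ?_ hW.le
          exact (div_le_self (abs_nonneg _) (one_le_pow₀ (by norm_num))).trans h1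
      _ = 2 ^ W / 2 ^ J := by ring
  | some i =>
    have h1 := px_near c ω i.val
    have hi := i.2
    show |2 ^ W * lab c sg0 (bt F ω) i.val - 2 ^ W * px c (ptr F J ω) i.val| ≤ _
    have e1 : lab c sg0 (bt F ω) i.val =
        if i.val = 0 then F.t ω else F.x ω (c (i.val - 1)) := by
      unfold lab
      split_ifs
      · rfl
      · rfl
    rw [e1, ← mul_sub, abs_mul, abs_of_pos hW]
    calc 2 ^ W * |(if i.val = 0 then F.t ω else F.x ω (c (i.val - 1))) -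
          px c (ptr F J ω) i.val| ≤ 2 ^ W * (1 / 2 ^ J) := mul_le_mul_of_nonneg_left h1 hW.le
      _ = 2 ^ W / 2 ^ J := by ring

/-- **There is no closed relation with gain.** -/
theorem rel_end (D KK : ℕ) (hD : D ≤ KK) : ∃ C : ℝ, 1 ≤ C ∧ ∀ {m J K : ℕ} {F : Fam m J}
    {c : ℕ → Fin m} {W0 sg0 : ℕ} {g0 gc : ℕ → ℕ} {L ρ : ℝ} {A A' : F.Ω → Prop} {V : Type}
    {z : PtT F → V} {z' : LnT F → V} {P : V → ℕ → PN} {e e' : ℕ} {W1 sg M N : ℕ} {a h0 η' : ℝ}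
    {vq : PtT F → MvPolynomial (Option (Fin 3)) ℝ} {lq : LnT F → MvPolynomial (Option (Fin 3)) ℝ},
    Inj c 3 → NLabW F c 2 W0 sg0 g0 K L A z z' P → K ≤ KK →
    (∀ v, ∀ i < 3, (P v i).totalDegree ≤ 1) → 0 ≤ L → W0 ≤ J → g0 2 ≤ J → (∀ ω, A' ω → A ω) →
    (∀ l < 2, gc l + 1 ≤ g0 l) → gc 2 + sg0 + 2 ≤ g0 2 → 2 ≤ ρ →
    (∀ l < 2, (2 : ℝ) ^ (g0 l) ≤ ρ * 2 ^ gc l) → (2 : ℝ) ^ g0 2 ≤ ρ * (2 ^ sg0 * 2 ^ gc 2) →
    (∀ i < 3, (1 + 3 * L) * (1 / 2 ^ J) ≤ 1 / 2 ^ wid W0 g0 i) →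
    (1 + 3 * L) * (1 / 2 ^ J) ≤ 1 / 2 ^ g0 2 → C * L * ρ ^ (KK * (KK + 1) ^ 4) ≤ 2 ^ e' →
    e' ≤ e → e' + sg0 ≤ e + (gc 1 - gc 2) → a = 2 ^ sg0 / 2 ^ sg →
    RelM F c (kcl K) W0 e gc D M η' A' → 0 < Pe F.p A' → η' < 1 → (2 : ℝ) ^ W1 / 2 ^ J ≤ h0 →
    (∀ y, (vq y).totalDegree ≤ D) → (∀ s, (lq s).totalDegree ≤ D) →
    (∀ ω, A' ω → Psi (vq (ptr F J ω)) h0 (zsw c 2 W1 sg (ptr F J ω)) ≤ 1 / 2 ^ N) →
    (∀ ω, A' ω → nz W1 a (wid W0 g0) (P (z (ptr F J ω))) (vq (ptr F J ω) - lq (slam F W0 ω)) *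
      ρ ^ (KK * (KK + 1) ^ 5) ≤ 1 / 2 ^ N) →
    (∀ ω, A' ω → 1 ≤ nz W1 a (wid W0 g0) (P (z (ptr F J ω))) (vq (ptr F J ω))) →
    1 ≤ C * (2 ^ M / 2 ^ N) := by
  obtain ⟨C₁, hC₁, hch⟩ := gch_ok KK
  obtain ⟨C₂, hC₂, hle⟩ := nz_le KK
  refine ⟨max C₁ C₂, le_max_of_le_left hC₁, ?_⟩
  intro m J K F c W0 sg0 g0 gc L ρ A A' V z z' P e e' W1 sg M N a h0 η' vq lq hc hN hKK h1d hL hWJ
    hgJ hA' hgc hgc2 hρ hρ1 hρ2 hJw hJg he' hee hes ha hR hA0 hη hh0 hvd hld hv1 hv2 hv3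
  have hρ0 : (1 : ℝ) ≤ ρ := by linarith
  have he1 : C₁ * L * ρ ^ (KK * (KK + 1) ^ 4) ≤ 2 ^ e' := by
    refine le_trans ?_ he'
    refine mul_le_mul_of_nonneg_right ?_ (by positivity)
    exact mul_le_mul_of_nonneg_right (le_max_left _ _) hL
  have hok := hch hc hN hKK h1d hL hWJ hgJ hA' hgc hgc2 hρ hρ1 hρ2 hJw hJg he1 hee hes
  have hcell : ∀ ω, |F.t ω - (F.T1 W0 ω : ℝ) / 2 ^ W0| ≤ 1 / 2 ^ W0 := fun ω =>
    CLO.t_cell F hWJ ω
  obtain ⟨B, hBA, hBP, hB⟩ := hR _ _ hok (fun y => adx c W1 sg (vq y))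
    (fun s => adx c W1 sg (lq s)) N (fun y => (deg_adx _).trans (hvd y))
    (fun s => (deg_adx _).trans (hld s)) (fun y => dep_adx _) (fun s => dep_adx _)
    (fun ω hω => by
      rw [eval_adx ha]
      refine le_trans ?_ (hv1 ω hω)
      refine abs_eval_le_Psi_of_near _ h0 (le_trans (by positivity) hh0) _ _ fun o => ?_
      exact (spt_bt c ha ω o).trans hh0)
    (fun ω hω b hb => by
      have hb' := nbx_bxr (hN.tri (z (ptr F J ω))) (hN.zero ω (hA' ω hω)) (hcell ω) hρ hρ1 hρ2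
        (le_refl 3) hb
      rw [eval_adx ha, eval_adx ha, ← map_sub]
      refine le_trans ?_ (hv2 ω hω)
      exact nz_ev (hN.tri _) (fun j => (hN.deg _ j).trans hKK)
        ((totalDegree_sub _ _).trans (max_le ((hvd _).trans hD) ((hld _).trans hD))) hρ0 hb')
  -- a sample
  obtain ⟨ω, hω⟩ : ∃ ω, B ω := by
    by_contra hcon
    push Not at hcon
    have h1 : Pe F.p B = 0 := by
      rw [Pe_eq]
      exact Finset.sum_eq_zero fun ω _ => by rw [if_neg (hcon ω)]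
    rw [h1] at hBP
    have h2 : 0 < (1 - η') * Pe F.p A' := mul_pos (by linarith) hA0
    linarith
  have hωA := hBA ω hω
  have h1 := hle W1 a (wid W0 g0) (P (z (ptr F J ω))) (vq (ptr F J ω))
    ((F.T1 W0 ω : ℝ) / 2 ^ W0) (F.t ω) (2 ^ M / 2 ^ N) (hN.tri _)
    (fun j => (hN.deg _ j).trans hKK) ((hvd _).trans hD) (hN.zero ω (hA' ω hωA)) (by
      rw [abs_sub_comm]
      exact hcell ω) fun b hb => by
      have h2 := hB ω hω (amb c sg0 b) (nbx_amb hc (hN.tri _) (fun l hl => by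
        have := hgc l hl
        omega) (by omega) hb)
      rw [eval_adx ha] at h2
      have e1 : spt W1 a (lab c sg0 (amb c sg0 b)) = spt W1 a b := by
        funext o
        cases o with
        | none =>
          show 2 ^ W1 * a * lab c sg0 (amb c sg0 b) 3 = 2 ^ W1 * a * b 3
          rw [lab_amb hc b (by omega)]
        | some i =>
          have hi := i.2
          show 2 ^ W1 * lab c sg0 (amb c sg0 b) i.val = 2 ^ W1 * b i.val
          rw [lab_amb hc b (by omega)]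
      rw [e1] at h2
      exact h2
  refine (hv3 ω hωA).trans (h1.trans ?_)
  exact mul_le_mul_of_nonneg_right (le_max_right _ _) (by positivity)

end Pool.FAL
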