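import Pool.Agent.H57.FAL.Chm
import Pool.Agent.H57.FAL.Chn

/-!
# (FALLN) for one member: the end
-/

set_option autoImplicit false

namespace Pool.FAL

open Finset Real MvPolynomial
open Pool.Agent.H49.Ent Pool.Agent.H32.Dense Pool.STK Pool.KAF Pool.KAL Pool.KS3 Pool.M3F
open Pool.KJA Pool.KA Pool.K2S Pool.KSAT Pool.PB Pool.STAT Pool.STAT.CLO Pool.GEN Pool.CLO37
open Pool.PLN

theorem wid_kap {m J : ℕ} {N : Nums} {φ : ℝ} {K : ℕ} {F : Fam m J} {c : ℕ → Fin m}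
    {A : F.Ω → Prop} (d : Dat N φ K F c A) {i : ℕ} (hi : i < 3) :
    wid ⌊N.w0 * J⌋₊ d.g0' i ≤ d.g0' 2 + d.kap := by
  rcases Nat.eq_zero_or_pos i with rfl | h0
  · rw [wid_zero]
    have h1 := d.win0 1 (by omega)
    rw [wid_succ] at h1
    have h2 := d.srt0 0 (by omega)
    omega
  · obtain ⟨j, rfl⟩ : ∃ j, i = j + 1 := ⟨i - 1, by omega⟩
    rw [wid_succ]
    have h2 := d.srt0 j (by omega)
    omega

theorem mul_two_le {x y : ℝ} {a b n : ℕ} (hx : x ≤ 2 ^ a) (hy : y ≤ 2 ^ b) (hy0 : 0 ≤ y)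
    (h : a + b ≤ n) : x * y ≤ 2 ^ n := by
  calc x * y ≤ 2 ^ a * 2 ^ b := mul_le_mul hx hy hy0 (by positivity)
    _ = 2 ^ (a + b) := (pow_add _ _ _).symm
    _ ≤ 2 ^ n := pow_le_pow_right₀ (by norm_num) h

theorem mem_end (D K Mb : ℕ) : ∃ c₀ : ℕ, ∀ {m J : ℕ} {N : Nums} {φ : ℝ} {F : Fam m J}
    {c : ℕ → Fin m} {A : F.Ω → Prop} (d : Dat N φ K F c A)
    {mn : Fin Mb → MvPolynomial (Option (Fin 3)) ℝ} {q n μ nh n₁ r e e' M N' : ℕ}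
    {gc : ℕ → ℕ} {h κ : ℝ},
    (∀ i, (mn i).totalDegree ≤ D) → (∀ v, v ≠ 0 → pol mn v ≠ 0) →
    (∀ P : MvPolynomial (Option (Fin 3)) ℝ, P.totalDegree ≤ D → ∃ v, pol mn v = P) →
    Inj c 3 → ⌊N.w0 * J⌋₊ ≤ J → ⌊N.w1 * J⌋₊ ≤ J → ⌊N.w1 * J⌋₊ ≤ d.g' 2 → 0 < Pe F.p A →
    1 + d.L ≤ 2 ^ n → d.kap ≤ n →
    (∀ i < 3, wid ⌊N.w1 * J⌋₊ d.g' i + (11 * n + 27) ≤ d.g' 2) →
    d.g0' 2 + μ ≤ d.g' 2 → d.g0' 2 + d.sg + μ ≤ d.g' 2 + d.sg0 → 1 ≤ h * J → h * J ≤ nh →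
    2 * c₀ + D * (11 * n + 27) + 2 * nh + 12 * n + 29 + 2 ^ Mb * (c₀ + 2 * nh + n₁) ≤ μ →
    (∀ l < 2, gc l + 1 ≤ d.g0' l) → gc 2 + d.sg0 + 2 ≤ d.g0' 2 →
    (∀ l < 2, d.g0' l ≤ r + gc l) → d.g0' 2 ≤ r + (d.sg0 + gc 2) →
    e' + d.sg0 ≤ e + (gc 1 - gc 2) → n + 2 + d.g0' 2 + d.kap ≤ J →
    c₀ + n + r * ((K + D) * (K + D + 1) ^ 4) ≤ e' → e' ≤ e → 1 ≤ r →
    c₀ + r * ((K + D) * (K + D + 1) ^ 5) + N' ≤ n₁ → c₀ + M < N' → 0 < κ →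
    (∀ A' : F.Ω → Prop, Sub A' A → κ * Pe F.p A ≤ Pe F.p A' →
      RelM F c (kcl K) ⌊N.w0 * J⌋₊ e gc D M (1 / 2) A') →
    Pe (p2 F A ⌊N.w0 * J⌋₊) (Evf d D q (PLN.ex h J) (PLN.ex (-h) J) (2 ^ (nh + 2))) ≤
      2 ^ c₀ * κ := by
  obtain ⟨Cr, hCr, hrel⟩ := rel_mem D K Mb
  obtain ⟨Ce, hCe, hend⟩ := rel_end D (K + D) (Nat.le_add_left D K)
  obtain ⟨c₁, hc₁⟩ := pow_unbounded_of_one_lt Cr (one_lt_two (α := ℝ))
  obtain ⟨c₂, hc₂⟩ := pow_unbounded_of_one_lt Ce (one_lt_two (α := ℝ))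
  obtain ⟨c₀, hc₀⟩ : ∃ c₀, c₀ = c₁ + c₂ := ⟨_, rfl⟩
  have hCr2 : Cr ≤ 2 ^ c₀ := hc₁.le.trans (pow_le_pow_right₀ (by norm_num) (by omega))
  have hCe2 : Ce ≤ 2 ^ c₀ := hc₂.le.trans (pow_le_pow_right₀ (by norm_num) (by omega))
  refine ⟨c₀, ?_⟩
  intro m J N φ F c A d mn q n μ nh n₁ r e e' M N' gc h κ hdeg hinj hrep hc hW0J hW1J hW1 hA hLn
    hkn hgap hμ1 hμ2 hh1 hh2 hμ hg1 hg2 hg3 hg4 hes hnJ he1 he2 hr1 hN1 hN2 hκ hR
  by_contra hcon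
  rw [not_le] at hcon
  obtain ⟨k1, k2, k3⟩ := cl_le d.L0 hLn hkn
  have hL := d.L0
  have hcl := clC_ge (r := 2) (kap := d.kap) d.L0
  have hs0 := sz_pos d
  have hh0 := h0_pos d
  have hrat := hs_le d hW1 hLn hkn hμ1 hμ2
  have hrat0 : 0 ≤ d.h0 / sz d := by positivity
  have hεF : 0 < PLN.ex h J := ex_pos _ _
  have hεF2 : PLN.ex h J ≤ 1 / 2 := by
    have h1 := ex_le_two (h := h) (J := J) (n := 1) (by push_cast; exact hh1)
    rwa [pow_one] at h1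
  have hh0' : 0 ≤ h := by
    by_contra hcon2
    push Not at hcon2
    have : h * J ≤ 0 := mul_nonpos_of_nonpos_of_nonneg hcon2.le (Nat.cast_nonneg J)
    linarith
  have hH : 1 ≤ PLN.ex (-h) J := one_le_ex_neg hh0'
  have hH2 : PLN.ex (-h) J ≤ 2 ^ nh := ex_neg_le hh2
  have hRk : (1 : ℝ) ≤ 2 ^ (nh + 2) := one_le_pow₀ one_le_two
  -- the floor
  obtain ⟨X₀, hX₀⟩ : ∃ X₀ : ℝ, X₀ = (2 + (1 + 3 * d.L) * clC 2 d.kap d.L) ^ D *
      PLN.ex (-h) J * 2 ^ (nh + 2) * (d.h0 / sz d) := ⟨_, rfl⟩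
  have hX₀0 : 0 ≤ X₀ := by
    rw [hX₀]
    positivity
  have hX : X₀ ≤ 2 ^ (D * (11 * n + 27) + 2 * nh + 12 * n + 28) / 2 ^ μ := by
    have h1 : (2 + (1 + 3 * d.L) * clC 2 d.kap d.L) ^ D ≤ 2 ^ (D * (11 * n + 27)) := by
      rw [mul_comm D, pow_mul]
      exact pow_le_pow_left₀ (by positivity) k3 D
    have h2 : (2 + (1 + 3 * d.L) * clC 2 d.kap d.L) ^ D * PLN.ex (-h) J ≤
        2 ^ (D * (11 * n + 27) + nh) := mul_two_le h1 hH2 (ex_pos _ _).le le_rfl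
    have h3 : (2 + (1 + 3 * d.L) * clC 2 d.kap d.L) ^ D * PLN.ex (-h) J * 2 ^ (nh + 2) ≤
        2 ^ (D * (11 * n + 27) + nh + (nh + 2)) :=
      mul_two_le h2 (le_refl ((2 : ℝ) ^ (nh + 2))) (by positivity) le_rfl
    rw [hX₀]
    calc _ ≤ 2 ^ (D * (11 * n + 27) + nh + (nh + 2)) * ((2 : ℝ) ^ (12 * n + 26) / 2 ^ μ) :=
          mul_le_mul h3 hrat hrat0 (by positivity)
      _ = _ := by
          rw [mul_div_assoc', ← pow_add]
          congr 2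
          ring
  have hX1 : Cr * X₀ ≤ 2 ^ (c₀ + (D * (11 * n + 27) + 2 * nh + 12 * n + 28)) / 2 ^ μ := by
    calc Cr * X₀ ≤ 2 ^ c₀ * (2 ^ (D * (11 * n + 27) + 2 * nh + 12 * n + 28) / 2 ^ μ) :=
          mul_le_mul hCr2 hX hX₀0 (by positivity)
      _ = _ := by rw [mul_div_assoc', ← pow_add]
  have hfl1 : Cr * X₀ ≤ 1 := by
    refine hX1.trans ?_
    rw [div_le_one (by positivity)]
    exact pow_le_pow_right₀ (by norm_num) (by omega)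
  obtain ⟨K', hK'⟩ : ∃ K' : ℝ, K' = Cr / (PLN.ex h J ^ 2 * (1 / 2 ^ n₁)) := ⟨_, rfl⟩
  have hK'0 : 0 < K' := by
    rw [hK']
    positivity
  have hK'2 : K' ≤ 2 ^ (c₀ + 2 * nh + n₁) := by
    rw [hK', div_le_iff₀ (by positivity)]
    have h1 : (1 / 2 ^ nh) ^ 2 ≤ PLN.ex h J ^ 2 :=
      pow_le_pow_left₀ (by positivity) (two_le_ex hh2) 2
    have h2 : (2 : ℝ) ^ (c₀ + 2 * nh + n₁) * ((1 / 2 ^ nh) ^ 2 * (1 / 2 ^ n₁)) = 2 ^ c₀ := by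
      rw [pow_add, pow_add, pow_mul' 2 2 nh]
      field_simp
    calc Cr ≤ 2 ^ c₀ := hCr2
      _ = (2 : ℝ) ^ (c₀ + 2 * nh + n₁) * ((1 / 2 ^ nh) ^ 2 * (1 / 2 ^ n₁)) := h2.symm
      _ ≤ _ := mul_le_mul_of_nonneg_left (mul_le_mul_of_nonneg_right h1 (by positivity))
          (by positivity)
  have hsg : Cr * (Cr * X₀) < CLO37.sg K' Mb := by
    refine lt_of_lt_of_le ?_ (sg_anti hK'0 hK'2 Mb)
    unfold CLO37.sg
    have h1 : Cr * (Cr * X₀) ≤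
        2 ^ (c₀ + (c₀ + (D * (11 * n + 27) + 2 * nh + 12 * n + 28))) / 2 ^ μ := by
      calc Cr * (Cr * X₀) ≤ 2 ^ c₀ *
            (2 ^ (c₀ + (D * (11 * n + 27) + 2 * nh + 12 * n + 28)) / 2 ^ μ) :=
            mul_le_mul hCr2 hX1 (mul_nonneg (by linarith) hX₀0) (by positivity)
        _ = _ := by rw [mul_div_assoc', ← pow_add]
    refine lt_of_le_of_lt h1 ?_
    rw [div_lt_div_iff₀ (by positivity) (by positivity), one_mul, ← pow_mul, ← pow_add]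
    refine pow_lt_pow_right₀ (by norm_num) ?_
    have h2 : (c₀ + 2 * nh + n₁) * (2 ^ Mb - 1) ≤ 2 ^ Mb * (c₀ + 2 * nh + n₁) := by
      rw [mul_comm]
      exact Nat.mul_le_mul_right _ (Nat.sub_le _ _)
    omega
  have hhs : d.h0 ≤ sz d := by
    have h1 : d.h0 / sz d ≤ 1 := by
      refine hrat.trans ?_
      rw [div_le_one (by positivity)]
      exact pow_le_pow_right₀ (by norm_num) (by omega)
    rwa [div_le_one hs0] at h1
  have hEv : 0 < Pe (p2 F A ⌊N.w0 * J⌋₊)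
      (Evf d D q (PLN.ex h J) (PLN.ex (-h) J) (2 ^ (nh + 2))) :=
    lt_of_le_of_lt (by positivity) hcon
  obtain ⟨vq, lq, B', hB', hvd, hld, hB⟩ := hrel d (q := q) (εF := PLN.ex h J)
    (H := PLN.ex (-h) J) (Rk := 2 ^ (nh + 2)) (fl := Cr * X₀) (ε := 1 / 2 ^ n₁) (K' := K')
    hdeg hinj hrep hW0J hW1J hW1 (fun i hi => gap_le d hW1 hLn hkn (hgap i hi)) hA hεF hεF2 hH
    hRk hhs (by rw [hX₀]) hfl1 (by positivity) (by
      rw [div_le_one (by positivity)]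
      exact one_le_pow₀ one_le_two) hK' hsg hEv
  -- the event
  obtain ⟨A', hA'⟩ : ∃ A' : F.Ω → Prop, A' = fun ω => A ω ∧ B' ω := ⟨_, rfl⟩
  have hA'A : ∀ ω, A' ω → A ω := fun ω hω => by
    rw [hA'] at hω
    exact hω.1
  have hA'B : ∀ ω, A' ω → B' ω := fun ω hω => by
    rw [hA'] at hω
    exact hω.2
  have hpB : κ * Pe F.p A ≤ Pe F.p A' := by
    have h1 : 2 ^ c₀ * κ < 2 ^ c₀ * Pe (pA F A) B' := by
      refine hcon.trans_le (hB'.trans ?_)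
      exact mul_le_mul_of_nonneg_right hCr2 (Pe_nonneg (isLaw_cond F.isLaw hA) _)
    have h2 : κ < Pe (pA F A) B' := lt_of_mul_lt_mul_left h1 (by positivity)
    have h3 := Pe_cond (p := F.p) (A := A) B'
    rw [h3, lt_div_iff₀ hA] at h2
    rw [hA']
    exact h2.le
  have hA'0 : 0 < Pe F.p A' := lt_of_lt_of_le (mul_pos hκ hA) hpB
  have hRA := hR A' (fun ω hω => hA'A ω hω) hpB
  have hr2 : (2 : ℝ) ≤ 2 ^ r := by
    calc (2 : ℝ) = 2 ^ 1 := (pow_one 2).symm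
      _ ≤ 2 ^ r := pow_le_pow_right₀ (by norm_num) hr1
  have hJb : ∀ x : ℕ, n + 2 + x ≤ J → (1 + 3 * d.L) * (1 / 2 ^ J) ≤ 1 / 2 ^ x := by
    intro x hx
    rw [mul_one_div, div_le_div_iff₀ (by positivity) (by positivity), one_mul]
    calc (1 + 3 * d.L) * 2 ^ x ≤ 2 ^ (n + 2) * 2 ^ x :=
          mul_le_mul_of_nonneg_right k1 (by positivity)
      _ = 2 ^ (n + 2 + x) := (pow_add _ _ _).symm
      _ ≤ 2 ^ J := pow_le_pow_right₀ (by norm_num) hx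
  have hLn' : d.L ≤ 2 ^ n := by linarith
  have hfin := hend (W0 := ⌊N.w0 * J⌋₊) (sg0 := d.sg0) (g0 := d.g0') (gc := gc) (L := d.L)
    (ρ := 2 ^ r) (A := A) (A' := A') (e := e) (e' := e') (W1 := ⌊N.w1 * J⌋₊) (sg := d.sg)
    (M := M) (N := N') (a := wa d) (h0 := d.h0) (η' := 1 / 2) (vq := vq) (lq := lq) hc d.lab0
    (Nat.le_add_right K D) d.dg0 hL hW0J d.top0 hA'A hg1 hg2 hr2
    (fun l hl => by
      rw [← pow_add]
      exact pow_le_pow_right₀ (by norm_num) (hg3 l hl)) (by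
      rw [← pow_add, ← pow_add]
      exact pow_le_pow_right₀ (by norm_num) hg4)
    (fun i hi => hJb _ (by
      have := wid_kap d hi
      omega)) (hJb _ (by omega)) (by
      rw [← pow_mul]
      refine (mul_two_le (mul_two_le hCe2 hLn' hL (le_refl (c₀ + n)))
        (le_refl ((2 : ℝ) ^ (r * ((K + D) * (K + D + 1) ^ 4)))) (by positivity) le_rfl).trans ?_
      exact pow_le_pow_right₀ (by norm_num) he1) he2 hes rfl hRA hA'0 (by norm_num) (by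
      unfold Dat.h0
      rw [div_le_div_iff₀ (by positivity) (by positivity)]
      have h1 : (2 : ℝ) ^ ⌊N.w1 * J⌋₊ * ((2 ^ (d.g' 2 - ⌊N.w1 * J⌋₊) : ℕ) : ℝ) ≤ 2 ^ J := by
        push_cast
        rw [← pow_add]
        exact pow_le_pow_right₀ (by norm_num) (by
          have := d.top
          omega)
      have h2 : (0 : ℝ) < 2 ^ J := by positivity
      nlinarith) hvd hld (fun ω hω => by
      refine (hB ω (hA'B ω hω)).2.2.2.1.trans ?_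
      exact one_div_le_one_div_of_le (by positivity) (pow_le_pow_right₀ (by norm_num) (by omega)))
    (fun ω hω => by
      rw [← pow_mul]
      have h1 := (hB ω (hA'B ω hω)).2.2.2.2
      refine (mul_le_mul_of_nonneg_right h1 (by positivity)).trans ?_
      have h2 : Cr * 2 ^ (r * ((K + D) * (K + D + 1) ^ 5)) ≤
          (2 : ℝ) ^ (c₀ + r * ((K + D) * (K + D + 1) ^ 5)) :=
        mul_two_le hCr2 (le_refl ((2 : ℝ) ^ (r * ((K + D) * (K + D + 1) ^ 5))))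
          (by positivity) le_rfl
      have e1 : Cr * (1 / 2 ^ n₁) * (2 : ℝ) ^ (r * ((K + D) * (K + D + 1) ^ 5)) =
          Cr * 2 ^ (r * ((K + D) * (K + D + 1) ^ 5)) / 2 ^ n₁ := by ring
      rw [e1, div_le_div_iff₀ (by positivity) (by positivity), one_mul]
      calc Cr * 2 ^ (r * ((K + D) * (K + D + 1) ^ 5)) * 2 ^ N' ≤
            2 ^ (c₀ + r * ((K + D) * (K + D + 1) ^ 5)) * 2 ^ N' :=
            mul_le_mul_of_nonneg_right h2 (by positivity)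
        _ = 2 ^ (c₀ + r * ((K + D) * (K + D + 1) ^ 5) + N') := (pow_add _ _ _).symm
        _ ≤ _ := pow_le_pow_right₀ (by norm_num) hN1)
    (fun ω hω => (hB ω (hA'B ω hω)).2.2.1)
  have h9 : Ce * (2 ^ M / 2 ^ N') < 1 := by
    rw [mul_div_assoc', div_lt_one (by positivity)]
    calc Ce * 2 ^ M ≤ 2 ^ c₀ * 2 ^ M := mul_le_mul_of_nonneg_right hCe2 (by positivity)
      _ = 2 ^ (c₀ + M) := (pow_add _ _ _).symm
      _ < 2 ^ N' := pow_lt_pow_right₀ (by norm_num) hN2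
  linarith

end Pool.FAL
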