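import Pool.Agent.H5.GEO.ToO
import Pool.Agent.H5.M3F.All

/-!
# Natural boxes of triangular systems: neighbouring points

`near_box`: a point near a point of a natural box, if the gradients of the system are bounded.
`psi_smear`: the majorant at a fine scale is the value, up to the majorant at a coarse scale.
-/

set_option autoImplicit false

namespace Pool.FAL

open Finset Real MvPolynomial
open Pool.Agent.H49.Ent Pool.Agent.H32.Dense Pool.STK Pool.KAF Pool.KAL Pool.KS3 Pool.M3F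
open Pool.KJA Pool.KA Pool.K2S Pool.KSAT Pool.PB Pool.STAT Pool.STAT.CLO Pool.GEN Pool.CLO37

/-- The variation of a polynomial along a segment. -/
theorem seg_val {F : PN} {i : ℕ} (hv : F.vars ⊆ range i) {b₀ b : ℕ → ℝ} {s L : ℝ} (hs0 : 0 ≤ s)
    (hs : ∀ l < i, |b l - b₀ l| ≤ s)
    (hL : ∀ τ : ℝ, 0 ≤ τ → τ ≤ 1 → ∀ l < i,
      |eval (fun j => b₀ j + τ * (b j - b₀ j)) (pderiv l F)| ≤ L) :
    |eval b F - eval b₀ F| ≤ i * (s * L) := by
  have hd : ∀ τ : ℝ, HasDerivAt (fun τ => eval (fun j => b₀ j + τ * (b j - b₀ j)) F)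
      (∑ j ∈ range i, (b j - b₀ j) * eval (fun j => b₀ j + τ * (b j - b₀ j)) (pderiv j F)) τ := by
    intro τ
    refine curve_sum (x := fun τ j => b₀ j + τ * (b j - b₀ j)) (x' := fun j => b j - b₀ j)
      (fun j => ?_) hv
    have h1 := ((hasDerivAt_id τ).mul_const (b j - b₀ j)).const_add (b₀ j)
    simpa using h1
  have h1 := norm_image_sub_le_of_norm_deriv_le_segment_01'
    (f := fun τ => eval (fun j => b₀ j + τ * (b j - b₀ j)) F)
    (f' := fun τ => ∑ j ∈ range i, (b j - b₀ j) *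
      eval (fun j => b₀ j + τ * (b j - b₀ j)) (pderiv j F)) (C := i * (s * L))
    (fun τ _ => (hd τ).hasDerivWithinAt) (fun τ hτ => by
      rw [Real.norm_eq_abs]
      refine (Finset.abs_sum_le_sum_abs _ _).trans ?_
      calc ∑ j ∈ range i, |(b j - b₀ j) * eval (fun j => b₀ j + τ * (b j - b₀ j)) (pderiv j F)| ≤
            ∑ _j ∈ range i, s * L := by
              refine Finset.sum_le_sum fun j hj => ?_
              rw [abs_mul]
              exact mul_le_mul (hs j (mem_range.1 hj))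
                (hL τ hτ.1 hτ.2.le j (mem_range.1 hj)) (abs_nonneg _) hs0
        _ = i * (s * L) := by rw [Finset.sum_const, card_range, nsmul_eq_mul])
  rw [Real.norm_eq_abs] at h1
  have e1 : (fun j => b₀ j + 1 * (b j - b₀ j)) = b := by
    funext j
    ring
  have e0 : (fun j => b₀ j + 0 * (b j - b₀ j)) = b₀ := by
    funext j
    ring
  rw [e1, e0] at h1
  exact h1

/-- **A point near a point of a natural box.** -/
theorem near_box {Φ : ℕ → PN} (hΦ : TriN Φ) {wd : ℕ → ℕ} {n : ℕ} {L s ρ : ℝ} (hL : 0 ≤ L)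
    (hs0 : 0 ≤ s) (hρ : 0 ≤ ρ) (hρ4 : ρ + 1 ≤ 4)
    (hg : ∀ b, Bxr 4 wd Φ n b → ∀ i ≤ n, ∀ l < i, |eval b (pderiv l (Φ i))| ≤ L)
    {b₀ : ℕ → ℝ} (hb₀ : Bxr ρ wd Φ n b₀) (hsw : ∀ i < n, (1 + n * L) * s ≤ 1 / 2 ^ wd i)
    {b : ℕ → ℝ} (hb : ∀ l < n, |b l - b₀ l| ≤ s) :
    Bxr (ρ + 1) wd Φ n b ∧ ∀ i ≤ n, |eval b (Φ i) - eval b₀ (Φ i)| ≤ n * (s * L) := by
  have hval : ∀ i ≤ n, (∀ b : ℕ → ℝ, (∀ l < n, |b l - b₀ l| ≤ s) → Bxr (ρ + 1) wd Φ i b) →
      ∀ b : ℕ → ℝ, (∀ l < n, |b l - b₀ l| ≤ s) →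
        |eval b (Φ i) - eval b₀ (Φ i)| ≤ n * (s * L) := by
    intro i hi hbx b hb
    refine (seg_val (L := L) (hΦ i) hs0 (fun l hl => hb l (by omega))
      fun τ hτ0 hτ1 l hl => ?_).trans ?_
    · have h1 : ∀ l < n, |(fun j => b₀ j + τ * (b j - b₀ j)) l - b₀ l| ≤ s := by
        intro l hl
        have e1 : (fun j => b₀ j + τ * (b j - b₀ j)) l - b₀ l = τ * (b l - b₀ l) := by
          simp only
          ring
        rw [e1, abs_mul, abs_of_nonneg hτ0]
        calc τ * |b l - b₀ l| ≤ 1 * s :=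
              mul_le_mul hτ1 (hb l hl) (abs_nonneg _) zero_le_one
          _ = s := one_mul s
      obtain ⟨b', hb1, hb2⟩ := bxr_ext hΦ (by linarith) (hbx _ h1) n
      have h2 := hg b' (hb2.mono hρ4 le_rfl) i hi l hl
      have h3 : eval b' (pderiv l (Φ i)) =
          eval (fun j => b₀ j + τ * (b j - b₀ j)) (pderiv l (Φ i)) :=
        eval_cg ((NEAR.vars_pd _ _).trans (hΦ i)) fun k hk => hb1 k hk
      rw [← h3]
      exact h2
    · have : (i : ℝ) ≤ n := by exact_mod_cast hi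
      exact mul_le_mul_of_nonneg_right this (by positivity)
  have hbox : ∀ i ≤ n, ∀ b : ℕ → ℝ, (∀ l < n, |b l - b₀ l| ≤ s) → Bxr (ρ + 1) wd Φ i b := by
    intro i
    induction i with
    | zero => exact fun _ b _ j hj => absurd hj (Nat.not_lt_zero j)
    | succ i ih =>
      intro hi b hb j hj
      rcases Nat.lt_or_ge j i with h1 | h1
      · exact ih (by omega) b hb j h1
      · have h2 : j = i := by omega
        subst h2
        have h3 := hval j (by omega) (ih (by omega)) b hb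
        have h4 := hb₀ j (by omega)
        have h5 := hb j (by omega)
        have h6 := hsw j (by omega)
        have e1 : b j - eval b (Φ j) = (b j - b₀ j) + (b₀ j - eval b₀ (Φ j)) -
            (eval b (Φ j) - eval b₀ (Φ j)) := by ring
        rw [e1]
        refine (abs_sub _ _).trans ?_
        have h7 := abs_add_le (b j - b₀ j) (b₀ j - eval b₀ (Φ j))
        have e2 : (ρ + 1) / 2 ^ wd j = ρ / 2 ^ wd j + 1 / 2 ^ wd j := by ring
        rw [e2]
        have e3 : (1 + n * L) * s = s + n * (s * L) := by ring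
        linarith
  exact ⟨hbox n le_rfl b hb, fun i hi => hval i hi (hbox i hi) b hb⟩

section psi

variable {σ : Type} [Fintype σ]

/-- The majorant at a fine scale. -/
theorem psi_smear {D : ℕ} {Q : MvPolynomial σ ℝ} (hQ : Q.totalDegree ≤ D) {h s : ℝ} (hh : 0 ≤ h)
    (hs : 0 < s) (hhs : h ≤ s) (x : σ → ℝ) :
    Psi Q h x ≤ |eval x Q| + Fintype.card σ * D * (h / s) * Psi Q s x := by
  have h1 := SML.Psi_le_pderiv Q hh x
  have h2 : ∀ o : σ, Psi (pderiv o Q) h x ≤ D / s * Psi Q s x := by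
    intro o
    have h3 := Psi_mono (pderiv o Q) h s hh hhs x
    have h4 := Psi_pderiv_le Q s hs.le x o
    have h5 : (Q.totalDegree : ℝ) ≤ D := by exact_mod_cast hQ
    have h6 := mul_le_mul_of_nonneg_right h5 (Psi_nonneg Q s x)
    refine h3.trans ?_
    rw [div_mul_eq_mul_div, le_div_iff₀ hs, mul_comm]
    exact h4.trans h6
  have h3 : ∑ o, Psi (pderiv o Q) h x ≤ Fintype.card σ * (D / s * Psi Q s x) := by
    refine (Finset.sum_le_sum fun o _ => h2 o).trans ?_
    rw [Finset.sum_const, Finset.card_univ, nsmul_eq_mul]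
  have h4 := mul_le_mul_of_nonneg_left h3 hh
  have e1 : h * (Fintype.card σ * (D / s * Psi Q s x)) =
      Fintype.card σ * D * (h / s) * Psi Q s x := by ring
  linarith

omit [Fintype σ] in
/-- The majorant of a derivative. -/
theorem psi_pd {D : ℕ} {Q : MvPolynomial σ ℝ} (hQ : Q.totalDegree ≤ D) {h s : ℝ} (hh : 0 ≤ h)
    (hs : 0 < s) (hhs : h ≤ s) (x : σ → ℝ) (o : σ) :
    Psi (pderiv o Q) h x ≤ D / s * Psi Q s x := by
  have h3 := Psi_mono (pderiv o Q) h s hh hhs x
  have h4 := Psi_pderiv_le Q s hs.le x o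
  have h5 : (Q.totalDegree : ℝ) ≤ D := by exact_mod_cast hQ
  have h6 := mul_le_mul_of_nonneg_right h5 (Psi_nonneg Q s x)
  refine h3.trans ?_
  rw [div_mul_eq_mul_div, le_div_iff₀ hs, mul_comm]
  exact h4.trans h6

end psi

end Pool.FAL
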