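import Pool.Agent.H57.FAL.Own
import Pool.Agent.H37.CLO.Fal
import Pool.Agent.H37.CLO.Cod
import Pool.Agent.H1.PLN.Stm

/-!
# (FALLN) for one member: if there is no fall, then there is a closed relation
-/

set_option autoImplicit false

namespace Pool.FAL

open Finset Real MvPolynomial
open Pool.Agent.H49.Ent Pool.Agent.H32.Dense Pool.STK Pool.KAF Pool.KAL Pool.KS3 Pool.M3F
open Pool.KJA Pool.KA Pool.K2S Pool.KSAT Pool.PB Pool.STAT Pool.STAT.CLO Pool.GEN Pool.CLO37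
open Pool.PLN
open Pool.GEO (toO uno eval_toO deg_toO pd_toO)

variable {m J : ℕ}

theorem nlab_up {F : Fam m J} {c : ℕ → Fin m} {r W sg : ℕ} {g : ℕ → ℕ} {K KK : ℕ} {L : ℝ}
    {A : F.Ω → Prop} {V : Type} {z : PtT F → V} {z' : LnT F → V} {P : V → ℕ → PN}
    (h : NLabW F c r W sg g K L A z z' P) (hK : K ≤ KK) : NLabW F c r W sg g KK L A z z' P :=
  ⟨fun v i => (h.deg v i).trans hK, h.tri, h.cls, h.zero, h.pos, h.posN, h.grad⟩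

/-- The maximum is attained. -/
theorem mx_att {Ω : Type} [Fintype Ω] {P : Ω → Prop} {f : Ω → ℝ} (h : 0 < mx P f) :
    ∃ ω, P ω ∧ f ω = mx P f := by
  classical
  have hne : Nonempty Ω := by
    by_contra hcon
    rw [not_nonempty_iff] at hcon
    unfold mx at h
    rw [Real.iSup_of_isEmpty] at h
    exact lt_irrefl _ h
  obtain ⟨ω, hω⟩ := exists_eq_ciSup_of_finite (f := fun ω => if P ω then f ω else 0)
  have h1 : (if P ω then f ω else 0) = mx P f := hω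
  by_cases hP : P ω
  · rw [if_pos hP] at h1
    exact ⟨ω, hP, h1⟩
  · rw [if_neg hP] at h1
    rw [← h1] at h
    exact absurd h (lt_irrefl _)

section dat

variable {N : Nums} {φ : ℝ} {K : ℕ} {F : Fam m J} {c : ℕ → Fin m} {A : F.Ω → Prop}

/-- The ratio of the weights. -/
noncomputable def wa (d : Dat N φ K F c A) : ℝ := 2 ^ d.sg0 / 2 ^ d.sg

theorem wa_pos (d : Dat N φ K F c A) : 0 < wa d := by
  unfold wa
  positivity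

/-- The scale of the window `w0`. -/
noncomputable def sz (d : Dat N φ K F c A) : ℝ :=
  2 ^ ⌊N.w1 * J⌋₊ * min 1 (wa d) / ((1 + 3 * d.L) * 2 ^ (d.g0' 2 + d.kap))

theorem sz_pos (d : Dat N φ K F c A) : 0 < sz d := by
  have h1 := wa_pos d
  have h2 := d.L0
  unfold sz
  have h3 : 0 < min 1 (wa d) := lt_min one_pos h1
  positivity

theorem sz_eq (d : Dat N φ K F c A) : (1 + 3 * d.L) * (sz d / 2 ^ ⌊N.w1 * J⌋₊) =
    min 1 (wa d) / 2 ^ (d.g0' 2 + d.kap) := by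
  have h2 := d.L0
  have h3 : (1 + 3 * d.L) ≠ 0 := by positivity
  unfold sz
  field_simp

theorem sz_g (d : Dat N φ K F c A) :
    (1 + 3 * d.L) * (sz d / 2 ^ ⌊N.w1 * J⌋₊) ≤ 1 / 2 ^ (d.g0' 2 + d.kap) := by
  rw [sz_eq]
  exact div_le_div_of_nonneg_right (min_le_left _ _) (by positivity)

theorem sz_g2 (d : Dat N φ K F c A) :
    (1 + 3 * d.L) * (sz d / 2 ^ ⌊N.w1 * J⌋₊) ≤ 1 / 2 ^ d.g0' 2 :=
  (sz_g d).trans (one_div_le_one_div_of_le (by positivity)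
    (pow_le_pow_right₀ (by norm_num) (by omega)))

theorem sz_w (d : Dat N φ K F c A) {i : ℕ} (hi : i < 3) :
    (1 + 3 * d.L) * (sz d / 2 ^ ⌊N.w1 * J⌋₊) ≤ 1 / 2 ^ wid ⌊N.w0 * J⌋₊ d.g0' i := by
  refine (sz_g d).trans (one_div_le_one_div_of_le (by positivity)
    (pow_le_pow_right₀ (by norm_num) ?_))
  rcases Nat.eq_zero_or_pos i with rfl | h0
  · rw [wid_zero]
    have h1 := d.win0 1 (by omega)
    rw [wid_succ] at h1
    have h2 := d.srt0 0 (by omega)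
    omega
  · obtain ⟨j, rfl⟩ : ∃ j, i = j + 1 := ⟨i - 1, by omega⟩
    rw [wid_succ]
    have h2 := d.srt0 j (by omega)
    omega

theorem sz_a (d : Dat N φ K F c A) :
    sz d / (2 ^ ⌊N.w1 * J⌋₊ * wa d) ≤ 1 / 2 ^ d.g0' 2 := by
  have h1 := wa_pos d
  have h2 := d.L0
  have h3 := sz_eq d
  have h4 : sz d / 2 ^ ⌊N.w1 * J⌋₊ ≤ (1 + 3 * d.L) * (sz d / 2 ^ ⌊N.w1 * J⌋₊) := by
    have : 0 ≤ sz d / 2 ^ ⌊N.w1 * J⌋₊ := div_nonneg (sz_pos d).le (by positivity)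
    have h5 : 0 ≤ 3 * d.L * (sz d / 2 ^ ⌊N.w1 * J⌋₊) := by positivity
    linarith
  rw [h3] at h4
  rw [← div_div, div_le_iff₀ h1]
  refine h4.trans ?_
  rw [div_mul_eq_mul_div, one_mul]
  refine (div_le_div_of_nonneg_right (min_le_right _ _) (by positivity)).trans ?_
  exact div_le_div_of_nonneg_left h1.le (by positivity)
    (pow_le_pow_right₀ (by norm_num) (by omega))

theorem h0_pos (d : Dat N φ K F c A) : 0 < d.h0 := by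
  unfold Dat.h0
  have := clC_ge (r := 2) (kap := d.kap) d.L0
  have h1 : 0 < clC 2 d.kap d.L := by linarith
  positivity

theorem h0_eq (d : Dat N φ K F c A) (h : ⌊N.w1 * J⌋₊ ≤ d.g' 2) :
    d.h0 / 2 ^ ⌊N.w1 * J⌋₊ = clC 2 d.kap d.L / 2 ^ d.g' 2 := by
  unfold Dat.h0
  have e1 : (2 : ℝ) ^ d.g' 2 = 2 ^ (d.g' 2 - ⌊N.w1 * J⌋₊) * 2 ^ ⌊N.w1 * J⌋₊ := by
    rw [← pow_add]
    congr 1
    omega
  rw [e1]
  push_cast
  rw [div_div]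

/-- The samples of a leaf. -/
def lef (d : Dat N φ K F c A) (κ : d.V) (ω : F.Ω) : Prop := A ω ∧ 0 < F.p ω ∧ d.κ ω = κ

/-- **If there is no fall, then the norms are comparable.** -/
theorem cmp_mem (d : Dat N φ K F c A) {D : ℕ} {κ₁ κ₂ : d.V} {εF R fl Cu ν s₀ : ℝ}
    {w : MvPolynomial (Option (Fin 3)) ℝ} (hw : w.totalDegree ≤ D)
    (hfal : ¬ d.Fal D εF κ₂ κ₁) (hR : R = 1 / εF) (hε : 0 < εF) (hε2 : εF ≤ 1 / 2) (hs : 0 < s₀)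
    (hhs : d.h0 ≤ s₀) (hfl0 : 0 ≤ fl) (hfl : 4 * D * (d.h0 / s₀) * Cu ≤ fl)
    (hν : 0 ≤ ν) (hup : ∀ ω, lef d κ₁ ω → Psi w s₀ (d.zs ω) ≤ Cu * ν) :
    mx (lef d κ₁) (fun ω => Psi w d.h0 (d.zs ω)) ≤
      R * (mx (lef d κ₂) (fun ω => Psi w d.h0 (d.zs ω)) + fl * ν) := by
  by_contra hcon
  push Not at hcon
  obtain ⟨M₁, hM₁⟩ : ∃ M₁, M₁ = mx (lef d κ₁) (fun ω => Psi w d.h0 (d.zs ω)) := ⟨_, rfl⟩
  obtain ⟨M₂, hM₂⟩ : ∃ M₂, M₂ = mx (lef d κ₂) (fun ω => Psi w d.h0 (d.zs ω)) := ⟨_, rfl⟩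
  rw [← hM₁, ← hM₂] at hcon
  have hM20 : 0 ≤ M₂ := by
    rw [hM₂]
    exact mx_nonneg fun ω => Psi_nonneg _ _ _
  have hR0 : 0 < R := by
    rw [hR]
    positivity
  have hflν : 0 ≤ fl * ν := mul_nonneg hfl0 hν
  have hM1 : 0 < M₁ := lt_of_le_of_lt (mul_nonneg hR0.le (by linarith)) hcon
  have hRe : εF * R = 1 := by
    rw [hR]
    field_simp
  have h1 : M₂ + fl * ν ≤ εF * M₁ := by
    have h2 := mul_le_mul_of_nonneg_left hcon.le hε.le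
    rw [← mul_assoc, hRe, one_mul] at h2
    exact h2
  have hh0 := h0_pos d
  obtain ⟨Q, hQ⟩ : ∃ Q : MvPolynomial (Option (Fin 3)) ℝ, Q = MvPolynomial.C (1 / M₁) * w :=
    ⟨_, rfl⟩
  have hQd : Q.totalDegree ≤ D := by
    rw [hQ]
    refine (totalDegree_mul _ _).trans ?_
    rw [totalDegree_C, zero_add]
    exact hw
  have hQP : ∀ h x, Psi Q h x = Psi w h x / M₁ := by
    intro h x
    rw [hQ, CLO37.Psi_C_mul, abs_of_pos (by positivity), div_mul_eq_mul_div, one_mul]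
  have hsm : ∀ ω, lef d κ₁ ω → Psi Q d.h0 (d.zs ω) ≤ |eval (d.zs ω) Q| + εF := by
    intro ω hω
    have h2 := psi_smear hQd hh0.le hs hhs (d.zs ω)
    refine h2.trans ?_
    have e1 : (Fintype.card (Option (Fin 3)) : ℝ) = 4 := by
      rw [Fintype.card_option, Fintype.card_fin]
      norm_num
    rw [e1, hQP]
    have h3 := hup ω hω
    have h4 : 4 * D * (d.h0 / s₀) * (Psi w s₀ (d.zs ω) / M₁) ≤ εF := by
      rw [mul_div_assoc', div_le_iff₀ hM1]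
      have h5 : 4 * D * (d.h0 / s₀) * Psi w s₀ (d.zs ω) ≤ 4 * D * (d.h0 / s₀) * (Cu * ν) :=
        mul_le_mul_of_nonneg_left h3 (by positivity)
      have h6 : 4 * D * (d.h0 / s₀) * Cu * ν ≤ fl * ν := mul_le_mul_of_nonneg_right hfl hν
      have e2 : 4 * D * (d.h0 / s₀) * (Cu * ν) = 4 * D * (d.h0 / s₀) * Cu * ν := by ring
      linarith
    linarith
  refine hfal ⟨Q, hQd, ?_, ?_, ?_⟩
  · intro ω hA hp hκ
    rw [hQP, div_le_iff₀ hM1]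
    have h2 : Psi w d.h0 (d.zs ω) ≤ M₂ := by
      rw [hM₂]
      exact le_mx (P := lef d κ₂) (f := fun ω => Psi w d.h0 (d.zs ω)) ⟨hA, hp, hκ⟩
    linarith
  · intro ω hA hp hκ
    refine ⟨?_, hsm ω ⟨hA, hp, hκ⟩⟩
    rw [hQP, div_le_one hM1, hM₁]
    exact le_mx (P := lef d κ₁) (f := fun ω => Psi w d.h0 (d.zs ω)) ⟨hA, hp, hκ⟩
  · obtain ⟨ω, hω, hωM⟩ := mx_att (P := lef d κ₁) (f := fun ω => Psi w d.h0 (d.zs ω)) (by
      rw [← hM₁]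
      exact hM1)
    refine ⟨ω, hω.1, hω.2.1, hω.2.2, ?_⟩
    have h2 := hsm ω hω
    rw [hQP] at h2
    rw [hωM, ← hM₁, div_self hM1.ne'] at h2
    linarith

/-- The leaf has an equation. -/
def Jt (d : Dat N φ K F c A) (D : ℕ) (Rk : ℝ) (ω : F.Ω) : Prop :=
  ∃ (Q : PN) (S : ℝ) (k : ℕ), (2 : ℝ) ^ (k + 2) ≤ Rk ∧
    Jet 2 D (wid ⌊N.w1 * J⌋₊ d.g') (d.P (d.κ ω)) Q (2 ^ (k + 2) / 2 ^ d.g' 2) S

/-- There is no fall for the pair, and the leaf of the first sample has an equation and enough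
samples. -/
def Evf (d : Dat N φ K F c A) (D q : ℕ) (εF H Rk : ℝ) (v : F.Ω × F.Ω) : Prop :=
  ¬ d.Fal D εF (d.κ v.1) (d.κ v.2) ∧ ¬ d.Fal D εF (d.κ v.2) (d.κ v.1) ∧ d.Lr D q H v.1 ∧
    Jt d D Rk v.1

end dat

/-- **The own equation** is small on the leaf and not small in the norm of the window `w0`. -/
theorem eqn_mem (D : ℕ) : ∃ C : ℝ, 1 ≤ C ∧ ∀ {m J : ℕ} {N : Nums} {φ : ℝ} {K : ℕ} {F : Fam m J}
    {c : ℕ → Fin m} {A : F.Ω → Prop} (d : Dat N φ K F c A) {q : ℕ} {H Rk Cu s₀ : ℝ} {ω₁ : F.Ω},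
    ⌊N.w1 * J⌋₊ ≤ J → ⌊N.w1 * J⌋₊ ≤ d.g' 2 →
    (∀ i < 3, (1 + 3 * d.L) * (d.h0 / 2 ^ ⌊N.w1 * J⌋₊) ≤ 1 / 2 ^ wid ⌊N.w1 * J⌋₊ d.g' i) →
    A ω₁ → 0 < F.p ω₁ → 0 ≤ H → 0 < s₀ → d.h0 ≤ s₀ → 0 ≤ Cu →
    d.Lr D q H ω₁ → Jt d D Rk ω₁ →
    ∃ w : MvPolynomial (Option (Fin 3)) ℝ, w ≠ 0 ∧ w.totalDegree ≤ D ∧
      ∀ ν : ℝ, 0 ≤ ν → (∀ ω, lef d (d.κ ω₁) ω → Psi w s₀ (d.zs ω) ≤ Cu * ν) →
      mx (lef d (d.κ ω₁)) (fun ω => Psi w d.h0 (d.zs ω)) ≤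
        C * (2 + (1 + 3 * d.L) * clC 2 d.kap d.L) ^ D * H * Rk * (d.h0 / s₀) * Cu * ν := by
  obtain ⟨C₂, hC₂, hup⟩ := own_up D
  refine ⟨C₂ * (D + 1), one_le_mul_of_one_le_of_one_le hC₂ (by
    have : (0 : ℝ) ≤ D := Nat.cast_nonneg D
    linarith), ?_⟩
  intro m J N φ K F c A d q H Rk Cu s₀ ω₁ hW1J hW1 hgap hA1 hp1 hH hs hhs hCu hLr hJt
  obtain ⟨Q, S, k, hk, hJ⟩ := hJt
  have hne : Nonempty F.Ω := ⟨ω₁⟩
  have hh0 := h0_pos d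
  have hL := d.L0
  have hcl := clC_ge (r := 2) (kap := d.kap) d.L0
  have hlow : ∀ ν : ℝ, 0 ≤ ν → (∀ ω, lef d (d.κ ω₁) ω →
      Psi (toO 3 ⌊N.w1 * J⌋₊ Q) s₀ (d.zs ω) ≤ ν) →
      toO 3 ⌊N.w1 * J⌋₊ Q ≠ 0 ∧ S ≤ 2 ^ ⌊N.w1 * J⌋₊ * (H * (D / s₀ * ν)) := by
    intro ν hν hn
    exact own_low hJ hh0.le hs hhs hH hν (fun Q' hQ' b hb => hLr Q' hQ' b hb)
      fun ω hω => hn ω ⟨hω.1, hω.2.1, hω.2.2.1⟩
  refine ⟨toO 3 ⌊N.w1 * J⌋₊ Q, ?_, (deg_toO Q).trans hJ.deg, ?_⟩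
  · obtain ⟨B, hB⟩ : ∃ B : ℝ, B = mx (lef d (d.κ ω₁))
      (fun ω => Psi (toO 3 ⌊N.w1 * J⌋₊ Q) s₀ (d.zs ω)) := ⟨_, rfl⟩
    exact (hlow B (by
      rw [hB]
      exact mx_nonneg fun ω => Psi_nonneg _ _ _) fun ω hω => by
      rw [hB]
      exact le_mx (P := lef d (d.κ ω₁))
        (f := fun ω => Psi (toO 3 ⌊N.w1 * J⌋₊ Q) s₀ (d.zs ω)) hω).1
  intro ν hν hn
  have h1 := (hlow (Cu * ν) (mul_nonneg hCu hν) hn).2
  obtain ⟨X, hX⟩ : ∃ X : ℝ, X = 1 + (1 + 3 * d.L) * clC 2 d.kap d.L := ⟨_, rfl⟩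
  have hX0 : 0 ≤ X := by
    rw [hX]
    positivity
  have hρ : (0 : ℝ) < 2 ^ (k + 2) / 2 ^ d.g' 2 := by positivity
  have hρX : 2 / 2 ^ d.g' 2 + (1 + 3 * d.L) * (d.h0 / 2 ^ ⌊N.w1 * J⌋₊) ≤
      X * (2 ^ (k + 2) / 2 ^ d.g' 2) := by
    rw [h0_eq d hW1]
    have h3 : (4 : ℝ) ≤ 2 ^ (k + 2) := by
      rw [pow_add]
      have : (1 : ℝ) ≤ 2 ^ k := one_le_pow₀ one_le_two
      linarith
    have e1 : 2 / 2 ^ d.g' 2 + (1 + 3 * d.L) * (clC 2 d.kap d.L / 2 ^ d.g' 2) =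
        (2 + (1 + 3 * d.L) * clC 2 d.kap d.L) / 2 ^ d.g' 2 := by ring
    rw [e1, mul_div_assoc']
    refine div_le_div_of_nonneg_right ?_ (by positivity)
    have h4 : X * 4 ≤ X * 2 ^ (k + 2) := mul_le_mul_of_nonneg_left h3 hX0
    have h5 : 0 ≤ (1 + 3 * d.L) * clC 2 d.kap d.L := by positivity
    rw [hX] at h4 ⊢
    linarith
  refine mx_le ?_ fun ω hω => ?_
  · have h5 : 0 ≤ Rk := le_trans (by positivity) hk
    positivity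
  have hκ : d.z (ptr F J ω) = d.κ ω₁ := hω.2.2
  have hg2J : d.g' 2 ≤ J := d.top
  have h2 := hup (Q := Q) (S := S) (ρ := 2 ^ (k + 2) / 2 ^ d.g' 2) (X := X) (s := d.h0) d.lab hL
    hW1J hg2J hω.1 hh0.le hgap (by
      rw [hκ]
      exact hJ) hρ hX0 hρX
  have e0 : zsw c 2 ⌊N.w1 * J⌋₊ d.sg (ptr F J ω) = d.zs ω := rfl
  rw [e0] at h2
  refine h2.trans ?_
  have e1 : 1 + X = 2 + (1 + 3 * d.L) * clC 2 d.kap d.L := by
    rw [hX]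
    ring
  rw [e1]
  have h3 : 2 ^ (k + 2) / 2 ^ d.g' 2 * S ≤ (D + 1) * H * Rk * (d.h0 / s₀) * Cu * ν := by
    have h4 : 2 ^ (k + 2) / 2 ^ d.g' 2 * S ≤ 2 ^ (k + 2) / 2 ^ d.g' 2 *
        (2 ^ ⌊N.w1 * J⌋₊ * (H * (D / s₀ * (Cu * ν)))) := mul_le_mul_of_nonneg_left h1 hρ.le
    refine h4.trans ?_
    have h5 : (2 : ℝ) ^ ⌊N.w1 * J⌋₊ / 2 ^ d.g' 2 ≤ d.h0 := by
      have h6 := h0_eq d hW1
      rw [div_eq_iff (by positivity)] at h6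
      rw [h6, div_mul_eq_mul_div]
      refine div_le_div_of_nonneg_right ?_ (by positivity)
      have : (0 : ℝ) < 2 ^ ⌊N.w1 * J⌋₊ := by positivity
      nlinarith
    have e2 : 2 ^ (k + 2) / 2 ^ d.g' 2 * (2 ^ ⌊N.w1 * J⌋₊ * (H * (D / s₀ * (Cu * ν)))) =
        2 ^ (k + 2) * ((2 : ℝ) ^ ⌊N.w1 * J⌋₊ / 2 ^ d.g' 2) * (H * (D / s₀ * (Cu * ν))) := by
      ring
    rw [e2]
    have h6 : 0 ≤ H * (D / s₀ * (Cu * ν)) := by positivity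
    have h7 : 2 ^ (k + 2) * ((2 : ℝ) ^ ⌊N.w1 * J⌋₊ / 2 ^ d.g' 2) ≤ Rk * d.h0 :=
      mul_le_mul hk h5 (by positivity) (le_trans (by positivity) hk)
    refine (mul_le_mul_of_nonneg_right h7 h6).trans ?_
    have h8 : 0 ≤ Rk * d.h0 * (H * (1 / s₀ * (Cu * ν))) := by
      have h9 : 0 ≤ Rk := le_trans (by positivity) hk
      positivity
    have e3 : (D + 1) * H * Rk * (d.h0 / s₀) * Cu * ν =
        Rk * d.h0 * (H * (D / s₀ * (Cu * ν))) + Rk * d.h0 * (H * (1 / s₀ * (Cu * ν))) := by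
      ring
    rw [e3]
    linarith
  have h9 : 0 ≤ C₂ * (2 + (1 + 3 * d.L) * clC 2 d.kap d.L) ^ D := by positivity
  refine (mul_le_mul_of_nonneg_left h3 h9).trans (le_of_eq ?_)
  ring

theorem pol_sub' {σ : Type} {Mb : ℕ} (mn : Fin Mb → MvPolynomial σ ℝ) (v w : Fin Mb → ℝ) :
    pol mn (v - w) = pol mn v - pol mn w := by
  unfold pol
  rw [← Finset.sum_sub_distrib]
  exact Finset.sum_congr rfl fun i _ => by rw [Pi.sub_apply, sub_smul]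

theorem sg_anti {K K' : ℝ} (h0 : 0 < K) (h : K ≤ K') (k : ℕ) :
    Pool.CLO37.sg K' k ≤ Pool.CLO37.sg K k := by
  unfold Pool.CLO37.sg
  exact one_div_le_one_div_of_le (by positivity) (pow_le_pow_left₀ h0.le h _)

/-- **No fall: a closed relation.** -/
theorem rel_mem (D K Mb : ℕ) : ∃ C : ℝ, 1 ≤ C ∧ ∀ {m J : ℕ} {N : Nums} {φ : ℝ} {F : Fam m J}
    {c : ℕ → Fin m} {A : F.Ω → Prop} (d : Dat N φ K F c A)
    {mn : Fin Mb → MvPolynomial (Option (Fin 3)) ℝ} {q : ℕ} {εF H Rk fl ε K' : ℝ},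
    (∀ i, (mn i).totalDegree ≤ D) → (∀ v, v ≠ 0 → pol mn v ≠ 0) →
    (∀ P : MvPolynomial (Option (Fin 3)) ℝ, P.totalDegree ≤ D → ∃ v, pol mn v = P) →
    ⌊N.w0 * J⌋₊ ≤ J → ⌊N.w1 * J⌋₊ ≤ J → ⌊N.w1 * J⌋₊ ≤ d.g' 2 →
    (∀ i < 3, (1 + 3 * d.L) * (d.h0 / 2 ^ ⌊N.w1 * J⌋₊) ≤ 1 / 2 ^ wid ⌊N.w1 * J⌋₊ d.g' i) →
    0 < Pe F.p A → 0 < εF → εF ≤ 1 / 2 → 1 ≤ H → 1 ≤ Rk → d.h0 ≤ sz d →
    C * ((2 + (1 + 3 * d.L) * clC 2 d.kap d.L) ^ D * H * Rk * (d.h0 / sz d)) ≤ fl → fl ≤ 1 →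
    0 < ε → ε ≤ 1 → K' = C / (εF ^ 2 * ε) → C * fl < Pool.CLO37.sg K' Mb →
    0 < Pe (p2 F A ⌊N.w0 * J⌋₊) (Evf d D q εF H Rk) →
    ∃ (vq : PtT F → MvPolynomial (Option (Fin 3)) ℝ)
      (lq : LnT F → MvPolynomial (Option (Fin 3)) ℝ) (B' : F.Ω → Prop),
      Pe (p2 F A ⌊N.w0 * J⌋₊) (Evf d D q εF H Rk) ≤ C * Pe (pA F A) B' ∧
      (∀ y, (vq y).totalDegree ≤ D) ∧ (∀ s, (lq s).totalDegree ≤ D) ∧
      ∀ ω, B' ω → A ω ∧ 0 < F.p ω ∧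
        1 ≤ nz ⌊N.w1 * J⌋₊ (wa d) (wid ⌊N.w0 * J⌋₊ d.g0') (d.P0 (d.zz (ptr F J ω)))
          (vq (ptr F J ω)) ∧
        Psi (vq (ptr F J ω)) d.h0 (d.zs ω) ≤ ε ∧
        nz ⌊N.w1 * J⌋₊ (wa d) (wid ⌊N.w0 * J⌋₊ d.g0') (d.P0 (d.zz (ptr F J ω)))
          (vq (ptr F J ω) - lq (slam F ⌊N.w0 * J⌋₊ ω)) ≤ C * ε := by
  obtain ⟨C₁, hC₁, hps⟩ := psi_nz D (K + D) (Nat.le_add_left D K)
  obtain ⟨C₂, hC₂, heq⟩ := eqn_mem D
  have hMb0 : (0 : ℝ) ≤ Mb := Nat.cast_nonneg Mb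
  have hD0 : (0 : ℝ) ≤ D := Nat.cast_nonneg D
  obtain ⟨C, hC⟩ : ∃ C : ℝ, C = C₂ * C₁ + 4 * D * C₁ + 10 * Mb * (C₁ + 1) +
      Mb * 2 ^ Mb * Mb + 2 * Mb + 1 := ⟨_, rfl⟩
  have hC21 : 0 ≤ C₂ * C₁ := by positivity
  have hDC : 0 ≤ 4 * D * C₁ := by positivity
  have hMC : 0 ≤ 10 * Mb * (C₁ + 1) := by positivity
  have hMM : (0 : ℝ) ≤ Mb * 2 ^ Mb * Mb := by positivity
  have hC1 : 1 ≤ C := by linarith
  refine ⟨C, hC1, ?_⟩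
  intro m J N φ F c A d mn q εF H Rk fl ε K' hdeg hinj hrep hW0J hW1J hW1 hgap hA hεF hεF2 hH hRk
    hhs hfl hfl1 hε hε1 hK' hsg hEv
  have hne : Nonempty F.Ω := by
    by_contra hcon
    rw [not_nonempty_iff] at hcon
    rw [Pe_eq] at hA
    rw [Finset.univ_eq_empty, Finset.sum_empty] at hA
    exact lt_irrefl _ hA
  have hMb1 : 1 ≤ Mb := by
    rcases Nat.eq_zero_or_pos Mb with h | h
    · subst h
      obtain ⟨v, hv⟩ := hrep 1 (by rw [totalDegree_one]; exact Nat.zero_le _)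
      unfold pol at hv
      rw [Finset.univ_eq_empty, Finset.sum_empty] at hv
      exact absurd hv zero_ne_one
    · exact h
  have hMb1' : (1 : ℝ) ≤ Mb := by exact_mod_cast hMb1
  have hh0 := h0_pos d
  have hL := d.L0
  have hs0 := sz_pos d
  have hcl := clC_ge (r := 2) (kap := d.kap) d.L0
  have hpl : IsLaw (pA F A) := isLaw_cond F.isLaw hA
  have hpos : ∀ ω, 0 < pA F A ω → A ω ∧ 0 < F.p ω := fun ω hω => by
    have h1 := (cond_pos_iff F.isLaw.nonneg A True ω).1 hω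
    exact ⟨h1.2.mpr trivial, h1.1⟩
  -- the numbers
  obtain ⟨X₀, hX₀⟩ : ∃ X₀ : ℝ, X₀ = (2 + (1 + 3 * d.L) * clC 2 d.kap d.L) ^ D * H * Rk *
      (d.h0 / sz d) := ⟨_, rfl⟩
  rw [← hX₀] at hfl
  have hr0 : 0 ≤ d.h0 / sz d := by positivity
  have hX₀r : d.h0 / sz d ≤ X₀ := by
    rw [hX₀]
    refine le_mul_of_one_le_left hr0 ?_
    refine one_le_mul_of_one_le_of_one_le (one_le_mul_of_one_le_of_one_le (one_le_pow₀ ?_) hH) hRk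
    have : 0 ≤ (1 + 3 * d.L) * clC 2 d.kap d.L := by positivity
    linarith
  have hX₀0 : 0 ≤ X₀ := hr0.trans hX₀r
  have hfl0 : 0 ≤ fl := le_trans (by positivity) hfl
  have hfl2 : C₂ * C₁ * X₀ ≤ fl := by
    refine le_trans (mul_le_mul_of_nonneg_right ?_ hX₀0) hfl
    linarith
  have hfl3 : 4 * D * (d.h0 / sz d) * C₁ ≤ fl := by
    have h1 : 4 * D * C₁ * (d.h0 / sz d) ≤ C * X₀ :=
      mul_le_mul (by linarith) hX₀r hr0 (by linarith)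
    have e1 : 4 * D * (d.h0 / sz d) * C₁ = 4 * D * C₁ * (d.h0 / sz d) := by ring
    rw [e1]
    exact h1.trans hfl
  -- the norms
  obtain ⟨Nm, hNm⟩ : ∃ Nm : d.V0 → (Fin Mb → ℝ) → ℝ, Nm = fun ζ v =>
    nz ⌊N.w1 * J⌋₊ (wa d) (wid ⌊N.w0 * J⌋₊ d.g0') (d.P0 ζ) (pol mn v) := ⟨_, rfl⟩
  obtain ⟨nx, hnx⟩ : ∃ nx : PtT F → (Fin Mb → ℝ) → ℝ, nx = fun ξ v =>
    mx (lef d (d.z ξ)) (fun ω => Psi (pol mn v) d.h0 (d.zs ω)) := ⟨_, rfl⟩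
  have hNrm : ∀ ζ, Nrm (Nm ζ) := fun ζ => by
    rw [hNm]
    exact nrm_nz mn
  have hnxm : ∀ ξ, Nrm (nx ξ) := fun ξ => by
    rw [hnx]
    exact nrm_mx _ _ fun ω => nrm_psi mn _ _
  have hlow : ∀ ζ : d.V0, ∃ δ : ℝ, 0 < δ ∧ ∀ v, δ * ‖v‖ ≤ Nm ζ v := fun ζ =>
    nrm_low (hNrm ζ) fun v hv => by
      rw [hNm]
      exact nz_pos (wa_pos d).ne' (d.lab0.tri ζ) (hinj v hv)
  choose δz hδz hδz2 using hlow
  obtain ⟨ω₀, hω₀⟩ := Finite.exists_min fun ω : F.Ω => δz (d.zz (ptr F J ω))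
  have hup : ∀ ω, 0 < pA F A ω → ∀ w : MvPolynomial (Option (Fin 3)) ℝ, w.totalDegree ≤ D →
      ∀ ω', lef d (d.κ ω) ω' → Psi w (sz d) (d.zs ω') ≤ C₁ *
        nz ⌊N.w1 * J⌋₊ (wa d) (wid ⌊N.w0 * J⌋₊ d.g0') (d.P0 (d.zz (ptr F J ω))) w := by
    intro ω hω w hw ω' hω'
    have h1 := hps (s := sz d) (ω := ω') (Q := w) (sg := d.sg) (W1 := ⌊N.w1 * J⌋₊) (a := wa d)
      (nlab_up d.lab0 (Nat.le_add_right K D)) hL hW0J d.top0 hω'.1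
      rfl hs0.le (fun i hi => sz_w d hi) (sz_g2 d) (sz_a d) hw
    have e : d.zz (ptr F J ω') = d.zz (ptr F J ω) := by
      rw [d.prz ω' hω'.1, d.prz ω (hpos ω hω).1]
      congr 1
      exact hω'.2.2
    rw [e] at h1
    exact h1
  have hnz0 : ∀ ζ v, 0 ≤ Nm ζ v := fun ζ v => (hNrm ζ).nonneg v
  -- the constants
  obtain ⟨R, hR⟩ : ∃ R : ℝ, R = 1 / εF := ⟨_, rfl⟩
  have hR1 : 1 ≤ R := by
    rw [hR, le_div_iff₀ hεF]
    linarith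
  obtain ⟨Kf, hKf⟩ : ∃ Kf : ℝ, Kf = (1 + 2 * R * (2 * R)) * (2 * (Mb * (C₁ + 1))) / ε := ⟨_, rfl⟩
  have hKf0 : 0 < Kf := by
    rw [hKf]
    positivity
  have hKfK : Kf ≤ K' := by
    rw [hKf, hK', hR]
    have e1 : (1 + 2 * (1 / εF) * (2 * (1 / εF))) * (2 * (Mb * (C₁ + 1))) / ε =
        (εF ^ 2 + 4) * (2 * (Mb * (C₁ + 1))) / (εF ^ 2 * ε) := by
      field_simp
      ring
    rw [e1]
    refine div_le_div_of_nonneg_right ?_ (by positivity)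
    have h1 : εF ^ 2 + 4 ≤ 5 := by nlinarith
    have h2 : (εF ^ 2 + 4) * (2 * (Mb * (C₁ + 1))) ≤ 5 * (2 * (Mb * (C₁ + 1))) :=
      mul_le_mul_of_nonneg_right h1 (by positivity)
    have e2 : 5 * (2 * (Mb * (C₁ + 1))) = 10 * Mb * (C₁ + 1) := by ring
    linarith
  have hcls : ∀ ω, 0 < pA F A ω → d.zz (ptr F J ω) = d.zz' (slam F ⌊N.w0 * J⌋₊ ω) :=
    fun ω hω => d.lab0.cls ω (hpos ω hω).1
  obtain ⟨vx, vl, B', hB', hB⟩ := fal (Mb := Mb) (p := pA F A) (lam₀ := slam F ⌊N.w0 * J⌋₊)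
    (x := ptr F J) (ζ := d.zz) (ζl := d.zz') (Nm := Nm) (nx := nx)
    (E := Evf d D q εF H Rk) (Cu := C₁) (fl := fl) (R := R) (δ := δz (d.zz (ptr F J ω₀)))
    (ε := ε) (K := Kf) hpl hcls (fun ω _ => hNrm _) (fun ω _ => hnxm _)
    (fun ω _ v => (mul_le_mul_of_nonneg_right (hω₀ ω) (norm_nonneg v)).trans (hδz2 _ v))
    (fun ω hω v => by
      rw [hnx]
      refine mx_le (mul_nonneg (by linarith) (hnz0 _ _)) fun ω' hω' => ?_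
      rw [hNm]
      exact (Psi_mono _ _ _ hh0.le hhs _).trans (hup ω hω _ (pol_deg hdeg v) ω' hω'))
    (fun v hv hE => by
      obtain ⟨p1, p2, p3⟩ := cp_pos hpl.nonneg hv
      obtain ⟨a1, a2⟩ := hpos _ p1
      obtain ⟨Q, hQ0, hQd, hQ⟩ := heq d (Cu := C₁) hW1J hW1 hgap a1 a2 (by linarith) hs0 hhs
        (by linarith) hE.2.2.1 hE.2.2.2
      obtain ⟨w, hw⟩ := hrep Q hQd
      refine ⟨w, fun h => hQ0 ?_, ?_⟩
      · rw [← hw, h]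
        unfold pol
        exact Finset.sum_eq_zero fun i _ => by rw [Pi.zero_apply, zero_smul]
      · have h1 := hQ (Nm (d.zz (ptr F J v.1)) w) (hnz0 _ _) fun ω' hω' => by
          rw [hNm]
          simp only
          rw [hw]
          exact hup v.1 p1 Q hQd ω' hω'
        rw [hnx]
        simp only
        rw [hw]
        refine h1.trans ?_
        refine mul_le_mul_of_nonneg_right ?_ (hnz0 _ _)
        refine le_trans (le_of_eq ?_) hfl2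
        rw [hX₀]
        ring)
    (fun v hv hE w => by
      obtain ⟨p1, p2, p3⟩ := cp_pos hpl.nonneg hv
      have e1 : d.zz (ptr F J v.2) = d.zz (ptr F J v.1) := by
        rw [hcls _ p1, hcls _ p2, p3]
      have hwd := pol_deg hdeg w
      constructor
      · rw [hnx]
        refine cmp_mem d hwd hE.2.1 hR hεF hεF2 hs0 hhs hfl0 hfl3 (hnz0 _ _) fun ω' hω' => ?_
        rw [hNm]
        exact hup v.1 p1 _ hwd ω' hω'
      · rw [hnx]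
        refine cmp_mem d hwd hE.1 hR hεF hεF2 hs0 hhs hfl0 hfl3 (hnz0 _ _) fun ω' hω' => ?_
        rw [hNm, ← e1]
        exact hup v.2 p2 _ hwd ω' hω')
    (hδz _) (by linarith) hfl0 hfl1 hR1 hε hε1 (by
      rw [cp_eq]
      exact hEv) hKf (by
      refine lt_of_le_of_lt ?_ (lt_of_lt_of_le hsg (sg_anti hKf0 hKfK Mb))
      have : 2 * fl * Mb = 2 * Mb * fl := by ring
      rw [this]
      exact mul_le_mul_of_nonneg_right (by linarith) hfl0)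
  rw [cp_eq] at hB'
  refine ⟨fun y => pol mn (vx y), fun s => pol mn (vl s), B', hB'.trans ?_,
    fun y => pol_deg hdeg _, fun s => pol_deg hdeg _, fun ω hω => ?_⟩
  · refine mul_le_mul_of_nonneg_right (by linarith) (Pe_nonneg hpl _)
  · obtain ⟨q1, -, q2, q3, q4⟩ := hB ω hω
    obtain ⟨a1, a2⟩ := hpos _ q1
    refine ⟨a1, a2, ?_, ?_, ?_⟩
    · rw [hNm] at q2
      exact q2
    · refine le_trans ?_ q3
      rw [hnx]
      exact le_mx (P := lef d (d.z (ptr F J ω)))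
        (f := fun ω' => Psi (pol mn (vx (ptr F J ω))) d.h0 (d.zs ω')) ⟨a1, a2, rfl⟩
    · rw [hNm] at q4
      simp only at q4 ⊢
      rw [← pol_sub']
      refine q4.trans (mul_le_mul_of_nonneg_right (by linarith) hε.le)

end Pool.FAL
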