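import Pool.Agent.H57.FAL.Mem

/-!
# Numbers
-/

set_option autoImplicit false

namespace Pool.FAL

open Finset Real MvPolynomial
open Pool.Agent.H49.Ent Pool.Agent.H32.Dense Pool.STK Pool.KAF Pool.KAL Pool.KS3 Pool.M3F
open Pool.KJA Pool.KA Pool.K2S Pool.KSAT Pool.PB Pool.STAT Pool.STAT.CLO Pool.GEN Pool.CLO37
open Pool.PLN

/-! ### Powers of two -/

theorem exp_le_two {x : ℝ} {n : ℕ} (h : 2 * x ≤ n) : Real.exp x ≤ 2 ^ n := by
  have h1 := Real.log_two_gt_d9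
  have e1 : (2 : ℝ) ^ n = Real.exp (n * Real.log 2) := by
    rw [mul_comm, Real.exp_mul, Real.exp_log (by norm_num), Real.rpow_natCast]
  rw [e1]
  refine Real.exp_le_exp.2 ?_
  have h2 : (0 : ℝ) ≤ n := Nat.cast_nonneg n
  nlinarith

theorem ex_le_two {h : ℝ} {J n : ℕ} (hn : (n : ℝ) ≤ h * J) : ex h J ≤ 1 / 2 ^ n := by
  have h1 := Real.log_pos one_lt_two
  have e1 : (1 : ℝ) / 2 ^ n = Real.exp (-(n * Real.log 2)) := by
    rw [Real.exp_neg, mul_comm, Real.exp_mul, Real.exp_log (by norm_num), Real.rpow_natCast,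
      one_div]
  rw [e1]
  unfold PLN.ex
  refine Real.exp_le_exp.2 (neg_le_neg ?_)
  have e2 : h * Real.log 2 * J = (h * J) * Real.log 2 := by ring
  rw [e2]
  exact mul_le_mul_of_nonneg_right hn h1.le

theorem two_le_ex {h : ℝ} {J n : ℕ} (hn : h * J ≤ n) : 1 / 2 ^ n ≤ ex h J := by
  have h1 := Real.log_pos one_lt_two
  have e1 : (1 : ℝ) / 2 ^ n = Real.exp (-(n * Real.log 2)) := by
    rw [Real.exp_neg, mul_comm, Real.exp_mul, Real.exp_log (by norm_num), Real.rpow_natCast,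
      one_div]
  rw [e1]
  unfold PLN.ex
  refine Real.exp_le_exp.2 (neg_le_neg ?_)
  have e2 : h * Real.log 2 * J = (h * J) * Real.log 2 := by ring
  rw [e2]
  exact mul_le_mul_of_nonneg_right hn h1.le

theorem ex_neg_le {h : ℝ} {J n : ℕ} (hn : h * J ≤ n) : ex (-h) J ≤ 2 ^ n := by
  have h1 := two_le_ex hn
  have e1 : ex (-h) J = 1 / ex h J := by
    unfold PLN.ex
    rw [one_div, ← Real.exp_neg]
    congr 1
    ring
  rw [e1, div_le_iff₀ (ex_pos _ _)]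
  have e2 : (1 : ℝ) = 2 ^ n * (1 / 2 ^ n) := by
    field_simp
  calc (1 : ℝ) = 2 ^ n * (1 / 2 ^ n) := e2
    _ ≤ 2 ^ n * ex h J := mul_le_mul_of_nonneg_left h1 (by positivity)

theorem one_le_ex_neg {h : ℝ} {J : ℕ} (h0 : 0 ≤ h) : 1 ≤ ex (-h) J := by
  unfold PLN.ex
  rw [← Real.exp_zero]
  refine Real.exp_le_exp.2 ?_
  have h1 := Real.log_pos one_lt_two
  have : 0 ≤ h * Real.log 2 * J := by positivity
  linarith

/-- The constant of the leaf. -/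
theorem cl_le {kap n : ℕ} {L : ℝ} (hL : 0 ≤ L) (hLn : 1 + L ≤ 2 ^ n) (hk : kap ≤ n) :
    1 + 3 * L ≤ 2 ^ (n + 2) ∧ clC 2 kap L ≤ 2 ^ (10 * n + 24) ∧
      2 + (1 + 3 * L) * clC 2 kap L ≤ 2 ^ (11 * n + 27) := by
  have h1 : 1 + 3 * L ≤ 2 ^ (n + 2) := by
    rw [pow_add]
    linarith
  have h2 : clC 2 kap L ≤ 2 ^ (10 * n + 24) := by
    unfold clC
    push_cast
    have h3 : (2 : ℝ) ^ (kap + 2) ≤ 2 ^ (n + 2) := pow_le_pow_right₀ (by norm_num) (by omega)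
    have h4 : (1 + (2 + 1) * L) ^ (2 + 1 + 1) ≤ (2 ^ (n + 2)) ^ 4 := by
      have e1 : 1 + (2 + 1) * L = 1 + 3 * L := by ring
      rw [e1]
      exact pow_le_pow_left₀ (by linarith) h1 4
    have h5 : 2 ^ (kap + 2) * (1 + (2 + 1) * L) ^ (2 + 1 + 1) ≤
        (2 : ℝ) ^ (n + 2) * (2 ^ (n + 2)) ^ 4 :=
      mul_le_mul h3 h4 (by positivity) (by positivity)
    have h6 : (2 ^ (kap + 2) * (1 + (2 + 1) * L) ^ (2 + 1 + 1)) ^ 2 ≤
        ((2 : ℝ) ^ (n + 2) * (2 ^ (n + 2)) ^ 4) ^ 2 := pow_le_pow_left₀ (by positivity) h5 2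
    have e2 : ((2 : ℝ) ^ (n + 2) * (2 ^ (n + 2)) ^ 4) ^ 2 = 2 ^ (10 * n + 20) := by
      rw [← pow_mul, ← pow_add, ← pow_mul]
      congr 1
      ring
    rw [e2] at h6
    have e3 : (2 : ℝ) ^ (10 * n + 24) = 16 * 2 ^ (10 * n + 20) := by
      rw [pow_add, pow_add]
      norm_num
      ring
    have h7 : (1 : ℝ) ≤ 2 ^ (10 * n + 20) := one_le_pow₀ one_le_two
    rw [e3]
    norm_num at h6 ⊢
    linarith
  refine ⟨h1, h2, ?_⟩
  have h3 : (1 + 3 * L) * clC 2 kap L ≤ 2 ^ (n + 2) * 2 ^ (10 * n + 24) :=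
    mul_le_mul h1 h2 (by
      have := clC_ge (r := 2) (kap := kap) hL
      linarith) (by positivity)
  have e1 : (2 : ℝ) ^ (n + 2) * 2 ^ (10 * n + 24) = 2 ^ (11 * n + 26) := by
    rw [← pow_add]
    congr 1
    ring
  rw [e1] at h3
  have e2 : (2 : ℝ) ^ (11 * n + 27) = 2 * 2 ^ (11 * n + 26) := by
    rw [pow_succ]
    ring
  have h4 : (2 : ℝ) ≤ 2 ^ (11 * n + 26) := by
    calc (2 : ℝ) = 2 ^ 1 := (pow_one 2).symm
      _ ≤ _ := pow_le_pow_right₀ (by norm_num) (by omega)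
  rw [e2]
  linarith

section dat

variable {m J : ℕ} {N : Nums} {φ : ℝ} {K : ℕ} {F : Fam m J} {c : ℕ → Fin m} {A : F.Ω → Prop}

/-- The ratio of the scales. -/
theorem hs_le (d : Dat N φ K F c A) {n μ : ℕ} (hW1 : ⌊N.w1 * J⌋₊ ≤ d.g' 2)
    (hLn : 1 + d.L ≤ 2 ^ n) (hk : d.kap ≤ n) (h1 : d.g0' 2 + μ ≤ d.g' 2)
    (h2 : d.g0' 2 + d.sg + μ ≤ d.g' 2 + d.sg0) :
    d.h0 / sz d ≤ 2 ^ (12 * n + 26) / 2 ^ μ := by
  obtain ⟨c1, c2, -⟩ := cl_le d.L0 hLn hk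
  have hcl := clC_ge (r := 2) (kap := d.kap) d.L0
  have hL := d.L0
  have ha := wa_pos d
  have hmin : 0 < min 1 (wa d) := lt_min one_pos ha
  have e1 : d.h0 / sz d = clC 2 d.kap d.L * (1 + 3 * d.L) * 2 ^ d.kap *
      (2 ^ d.g0' 2 / (2 ^ d.g' 2 * min 1 (wa d))) := by
    have h3 := h0_eq d hW1
    rw [div_eq_iff (by positivity)] at h3
    rw [h3]
    unfold sz
    rw [pow_add]
    field_simp
  have h4 : 2 ^ d.g0' 2 / (2 ^ d.g' 2 * min 1 (wa d)) ≤ 1 / 2 ^ μ := by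
    rw [div_le_div_iff₀ (by positivity) (by positivity), one_mul, ← pow_add]
    rcases le_total 1 (wa d) with h5 | h5
    · rw [min_eq_left h5, mul_one]
      exact pow_le_pow_right₀ (by norm_num) h1
    · rw [min_eq_right h5]
      unfold wa
      rw [mul_div_assoc', le_div_iff₀ (by positivity), ← pow_add, ← pow_add]
      exact pow_le_pow_right₀ (by norm_num) (by omega)
  rw [e1]
  have h5 : clC 2 d.kap d.L * (1 + 3 * d.L) * 2 ^ d.kap ≤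
      2 ^ (10 * n + 24) * 2 ^ (n + 2) * 2 ^ n := by
    refine mul_le_mul (mul_le_mul c2 c1 (by linarith) (by positivity))
      (pow_le_pow_right₀ (by norm_num) hk) (by positivity) (by positivity)
  have e2 : (2 : ℝ) ^ (10 * n + 24) * 2 ^ (n + 2) * 2 ^ n = 2 ^ (12 * n + 26) := by
    rw [← pow_add, ← pow_add]
    congr 1
    ring
  rw [e2] at h5
  calc _ ≤ 2 ^ (12 * n + 26) * (1 / 2 ^ μ) := mul_le_mul h5 h4 (by positivity) (by positivity)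
    _ = _ := by rw [mul_one_div]

/-- The gap. -/
theorem gap_le (d : Dat N φ K F c A) {n : ℕ} (hW1 : ⌊N.w1 * J⌋₊ ≤ d.g' 2)
    (hLn : 1 + d.L ≤ 2 ^ n) (hk : d.kap ≤ n) {i : ℕ}
    (h1 : wid ⌊N.w1 * J⌋₊ d.g' i + (11 * n + 27) ≤ d.g' 2) :
    (1 + 3 * d.L) * (d.h0 / 2 ^ ⌊N.w1 * J⌋₊) ≤ 1 / 2 ^ wid ⌊N.w1 * J⌋₊ d.g' i := by
  obtain ⟨-, -, c3⟩ := cl_le d.L0 hLn hk
  rw [h0_eq d hW1, mul_div_assoc', div_le_div_iff₀ (by positivity) (by positivity), one_mul]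
  calc (1 + 3 * d.L) * clC 2 d.kap d.L * 2 ^ wid ⌊N.w1 * J⌋₊ d.g' i ≤
        2 ^ (11 * n + 27) * 2 ^ wid ⌊N.w1 * J⌋₊ d.g' i :=
        mul_le_mul_of_nonneg_right (by linarith) (by positivity)
    _ = 2 ^ (11 * n + 27 + wid ⌊N.w1 * J⌋₊ d.g' i) := (pow_add _ _ _).symm
    _ ≤ _ := pow_le_pow_right₀ (by norm_num) (by omega)

end dat

end Pool.FAL
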