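import Pool.Agent.H57.FAL.Geo
import Pool.Agent.H37.CLO.CAbs2

/-!
# The natural norm of a polynomial at a label

The scaled variables of the window `w1` are expressed by the variables of the label, with the
weight `a` for the last one. `nz`: the sum of the coefficients in the natural coordinates of the
label.
-/

set_option autoImplicit false

namespace Pool.FAL

open Finset Real MvPolynomial
open Pool.Agent.H49.Ent Pool.Agent.H32.Dense Pool.STK Pool.KAF Pool.KAL Pool.KS3 Pool.M3F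
open Pool.KJA Pool.KA Pool.K2S Pool.KSAT Pool.PB Pool.STAT Pool.STAT.CLO Pool.GEN Pool.CLO37

/-- The scaled variables as polynomials in the variables of the label. -/
noncomputable def sbv (W : ℕ) (a : ℝ) (o : Option (Fin 3)) : PN :=
  o.elim (C ((2 : ℝ) ^ W * a) * MvPolynomial.X 3) (fun i => C ((2 : ℝ) ^ W) * MvPolynomial.X i.val)

/-- The scaled point. -/
noncomputable def spt (W : ℕ) (a : ℝ) (b : ℕ → ℝ) (o : Option (Fin 3)) : ℝ :=
  o.elim (2 ^ W * a * b 3) (fun i => 2 ^ W * b i.val)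

/-- The polynomial in the variables of the label. -/
noncomputable def tpn (W : ℕ) (a : ℝ) (Q : MvPolynomial (Option (Fin 3)) ℝ) : PN :=
  bind₁ (sbv W a) Q

/-- The point in the variables of the label. -/
noncomputable def ipt (W : ℕ) (a : ℝ) (y : Option (Fin 3) → ℝ) (n : ℕ) : ℝ :=
  if h : n < 3 then y (some ⟨n, h⟩) / 2 ^ W else if n = 3 then y none / (2 ^ W * a) else 0

variable {W : ℕ} {a : ℝ}

theorem eval_tpn (b : ℕ → ℝ) (Q : MvPolynomial (Option (Fin 3)) ℝ) :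
    eval b (tpn W a Q) = eval (spt W a b) Q := by
  unfold tpn
  rw [AdxRow.evl_bnd]
  congr 2
  funext o
  cases o with
  | none =>
    show eval b (C ((2 : ℝ) ^ W * a) * MvPolynomial.X 3) = 2 ^ W * a * b 3
    rw [map_mul, eval_C, eval_X]
  | some i =>
    show eval b (C ((2 : ℝ) ^ W) * MvPolynomial.X i.val) = 2 ^ W * b i.val
    rw [map_mul, eval_C, eval_X]

theorem spt_ipt (ha : a ≠ 0) (y : Option (Fin 3) → ℝ) : spt W a (ipt W a y) = y := by
  have hW : (2 : ℝ) ^ W ≠ 0 := by positivity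
  funext o
  cases o with
  | none =>
    show 2 ^ W * a * ipt W a y 3 = _
    unfold ipt
    rw [dif_neg (by omega), if_pos rfl]
    field_simp
  | some i =>
    show 2 ^ W * ipt W a y i.val = _
    unfold ipt
    rw [dif_pos i.2]
    field_simp

theorem deg_sbv (o : Option (Fin 3)) : (sbv W a o).totalDegree ≤ 1 := by
  cases o with
  | none =>
    show (C ((2 : ℝ) ^ W * a) * MvPolynomial.X 3 : PN).totalDegree ≤ 1
    refine (totalDegree_mul _ _).trans ?_
    rw [totalDegree_C, totalDegree_X]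
  | some i =>
    show (C ((2 : ℝ) ^ W) * MvPolynomial.X i.val : PN).totalDegree ≤ 1
    refine (totalDegree_mul _ _).trans ?_
    rw [totalDegree_C, totalDegree_X]

theorem deg_tpn (Q : MvPolynomial (Option (Fin 3)) ℝ) :
    (tpn W a Q).totalDegree ≤ Q.totalDegree := by
  have h2 := SML.totalDegree_bind_le (sbv W a) 1 deg_sbv Q
  rwa [one_mul] at h2

theorem vars_tpn (Q : MvPolynomial (Option (Fin 3)) ℝ) : (tpn W a Q).vars ⊆ range 4 := by
  classical
  unfold tpn
  refine (vars_bind₁ _ _).trans ?_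
  rw [Finset.biUnion_subset]
  intro o _
  cases o with
  | none =>
    show (C ((2 : ℝ) ^ W * a) * MvPolynomial.X 3 : PN).vars ⊆ _
    exact AdxRow.vars_mul_le (AdxRow.vars_C_le _) (AdxRow.vars_X_le (by omega))
  | some i =>
    show (C ((2 : ℝ) ^ W) * MvPolynomial.X i.val : PN).vars ⊆ _
    exact AdxRow.vars_mul_le (AdxRow.vars_C_le _) (AdxRow.vars_X_le (by omega))

theorem n1_cs (F : PN) : n1 F = coefSum F := n1_eq F

/-- **The natural norm.** -/
noncomputable def nz (W : ℕ) (a : ℝ) (wd : ℕ → ℕ) (Φ : ℕ → PN)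
    (Q : MvPolynomial (Option (Fin 3)) ℝ) : ℝ := n1 (bind₁ (nuc wd Φ) (tpn W a Q))

variable {wd : ℕ → ℕ} {Φ : ℕ → PN}

theorem nrm_nz {Mb : ℕ} (mn : Fin Mb → MvPolynomial (Option (Fin 3)) ℝ) :
    Nrm (fun v => nz W a wd Φ (pol mn v)) where
  smul t v := by
    unfold nz tpn
    rw [pol_smul, map_mul, bind₁_C_right, map_mul, bind₁_C_right, n1_cs, n1_cs, coefSum_C_mul]
  add v w := by
    unfold nz tpn
    rw [pol_add, map_add, map_add, n1_cs, n1_cs, n1_cs]
    exact coefSum_add_le _ _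

theorem nz_pos (ha : a ≠ 0) (hΦ : TriN Φ) {Q : MvPolynomial (Option (Fin 3)) ℝ} (hQ : Q ≠ 0) :
    0 < nz W a wd Φ Q := by
  unfold nz
  rw [n1_cs]
  refine coefSum_pos fun h => hQ ?_
  refine MvPolynomial.funext fun y => ?_
  have h1 := eval_nat hΦ wd (ipt W a y) (tpn W a Q)
  rw [h, map_zero, eval_tpn, spt_ipt ha] at h1
  rw [h1, map_zero]

/-- The values on the natural boxes. -/
theorem nz_ev {KK : ℕ} (hΦ : TriN Φ) (hK : ∀ j, (Φ j).totalDegree ≤ KK)
    {Q : MvPolynomial (Option (Fin 3)) ℝ} (hQ : Q.totalDegree ≤ KK) {ρ : ℝ} (hρ : 1 ≤ ρ)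
    {b : ℕ → ℝ} (hb : Bxr ρ wd Φ 4 b) :
    |eval (spt W a b) Q| ≤ nz W a wd Φ Q * ρ ^ (KK * (KK + 1) ^ 5) := by
  obtain ⟨h2, h3⟩ := nat_deg hΦ hK wd (n := 4) le_rfl (vars_tpn (W := W) (a := a) Q)
    ((deg_tpn Q).trans hQ)
  rw [← eval_tpn, eval_nat hΦ wd b]
  exact eval_le hρ h2 h3 fun j hj => nc_le.2 (hb j hj)

/-- From the values on the natural box to the norm; the box may be shifted in the time. -/
theorem nz_le (KK : ℕ) : ∃ C₁ : ℝ, 1 ≤ C₁ ∧ ∀ (W : ℕ) (a : ℝ) (wd : ℕ → ℕ) (Φ : ℕ → PN)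
    (Q : MvPolynomial (Option (Fin 3)) ℝ) (t t' S : ℝ), TriN Φ →
    (∀ j, (Φ j).totalDegree ≤ KK) → Q.totalDegree ≤ KK → Φ 0 = MvPolynomial.C t →
    |t - t'| ≤ 1 / 2 ^ wd 0 →
    (∀ b, Bxr 1 wd (Function.update Φ 0 (MvPolynomial.C t')) 4 b →
      |eval (spt W a b) Q| ≤ S) → nz W a wd Φ Q ≤ C₁ * S := by
  obtain ⟨C, hC, hn⟩ := n1_of_box 4 KK
  obtain ⟨C', hC', hdil⟩ := dil 4 KK
  have hp : (1 : ℝ) ≤ 2 ^ (KK * (KK + 1) ^ (4 + 1)) := one_le_pow₀ one_le_two
  refine ⟨C * (C' * 2 ^ (KK * (KK + 1) ^ (4 + 1))),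
    one_le_mul_of_one_le_of_one_le hC (one_le_mul_of_one_le_of_one_le hC' hp), ?_⟩
  intro W a wd Φ Q t t' S hΦ hK hQ h0 ht hS
  obtain ⟨Φ', hΦ'⟩ : ∃ Φ', Φ' = Function.update Φ 0 (MvPolynomial.C t') := ⟨_, rfl⟩
  have e0 : Φ' 0 = MvPolynomial.C t' := by rw [hΦ', Function.update_self]
  have e1 : ∀ i, i ≠ 0 → Φ' i = Φ i := fun i hi => by rw [hΦ', Function.update_of_ne hi]
  have htri : TriN Φ' := by
    intro i
    by_cases hi : i = 0
    · subst hi
      rw [e0, vars_C]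
      exact Finset.empty_subset _
    · rw [e1 i hi]
      exact hΦ i
  have hdeg : ∀ j, (Φ' j).totalDegree ≤ KK := by
    intro i
    by_cases hi : i = 0
    · subst hi
      rw [e0, totalDegree_C]
      exact Nat.zero_le _
    · rw [e1 i hi]
      exact hK i
  rw [← hΦ'] at hS
  have hQ' := (deg_tpn (W := W) (a := a) Q).trans hQ
  have h1 : ∀ b, Bxr 1 wd Φ' 4 b → |eval b (tpn W a Q)| ≤ S := fun b hb => by
    rw [eval_tpn]
    exact hS b hb
  have h2 := hdil Φ' wd (tpn W a Q) 4 S 2 htri hdeg le_rfl (vars_tpn Q) hQ' (by norm_num) h1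
  have h3 := hn Φ wd (tpn W a Q) 4 (C' * S * 2 ^ (KK * (KK + 1) ^ (4 + 1))) hΦ hK le_rfl
    (vars_tpn Q) hQ' fun b hb => h2 b fun i hi => by
      by_cases hi0 : i = 0
      · subst hi0
        have h4 := hb 0 hi
        rw [h0, eval_C] at h4
        rw [e0, eval_C]
        have e2 : b 0 - t' = (b 0 - t) + (t - t') := by ring
        rw [e2]
        refine (abs_add_le _ _).trans ?_
        have e3 : (2 : ℝ) / 2 ^ wd 0 = 1 / 2 ^ wd 0 + 1 / 2 ^ wd 0 := by ring
        rw [e3]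
        exact add_le_add h4 ht
      · rw [e1 i hi0]
        exact (hb i hi).trans (div_le_div_of_nonneg_right (by norm_num) (by positivity))
  unfold nz
  refine h3.trans (le_of_eq ?_)
  ring

end Pool.FAL
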