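import Pool.Agent.H57.FAL.Smp

/-!
# The own equation of a leaf

`own_up`: the equation is small near the samples of the leaf; `own_low`: its derivative is bounded
by its natural norm.
-/

set_option autoImplicit false

namespace Pool.FAL

open Finset Real MvPolynomial
open Pool.Agent.H49.Ent Pool.Agent.H32.Dense Pool.STK Pool.KAF Pool.KAL Pool.KS3 Pool.M3F
open Pool.KJA Pool.KA Pool.K2S Pool.KSAT Pool.PB Pool.STAT Pool.STAT.CLO Pool.GEN Pool.CLO37
open Pool.GEO (toO uno eval_toO deg_toO pd_toO)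

theorem uno_ipt (W : ℕ) (y : Option (Fin 3) → ℝ) : uno 3 W y = ipt W 1 y := by
  funext n
  unfold uno ipt
  rw [mul_one]

/-- The scaled point of a leaf. -/
noncomputable def lfw (W : ℕ) (P : ℕ → PN) (b : ℕ → ℝ) (o : Option (Fin 3)) : ℝ :=
  o.elim (2 ^ W * eval b (P 3)) (fun i => 2 ^ W * b i.val)

/-- The equation near the samples. -/
theorem own_up (D : ℕ) : ∃ C : ℝ, 1 ≤ C ∧ ∀ {m J : ℕ} {F : Fam m J} {c : ℕ → Fin m} {W sg K : ℕ}
    {g : ℕ → ℕ} {L : ℝ} {B : F.Ω → Prop} {V : Type} {z : PtT F → V} {z' : LnT F → V}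
    {P : V → ℕ → PN} {s ρ S X : ℝ} {ω : F.Ω} {Q : PN},
    NLabW F c 2 W sg g K L B z z' P → 0 ≤ L → W ≤ J → g 2 ≤ J → B ω → 0 ≤ s →
    (∀ i < 3, (1 + 3 * L) * (s / 2 ^ W) ≤ 1 / 2 ^ wid W g i) →
    Jet 2 D (wid W g) (P (z (ptr F J ω))) Q ρ S → 0 < ρ → 0 ≤ X →
    2 / 2 ^ g 2 + (1 + 3 * L) * (s / 2 ^ W) ≤ X * ρ →
    Psi (toO 3 W Q) s (zsw c 2 W sg (ptr F J ω)) ≤ C * (1 + X) ^ D * (ρ * S) := by
  obtain ⟨K₁, hK₁, hsup⟩ := exists_Psi_le_sup (Option (Fin 3)) D
  refine ⟨K₁ * (D + 1), one_le_mul_of_one_le_of_one_le hK₁ (by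
    have : (0 : ℝ) ≤ D := Nat.cast_nonneg D
    linarith), ?_⟩
  intro m J F c W sg K g L B V z z' P s ρ S X ω Q hN hL hWJ hgJ hω hs hsw hJ hρ hX hXρ
  have hS := hJ.pos
  have hρS : 0 ≤ ρ * S := by positivity
  have h1 := hsup (toO 3 W Q) s (zsw c 2 W sg (ptr F J ω)) ((D + 1) * ((1 + X) ^ D * (ρ * S)))
    ((deg_toO Q).trans hJ.deg) hs fun y hy => by
      have ha : (1 : ℝ) = 2 ^ sg / 2 ^ sg := by
        rw [div_self (by positivity)]
      obtain ⟨h2, h3⟩ := cube hN hL hWJ hgJ hω ha hs hsw hy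
      rw [eval_toO, uno_ipt]
      obtain ⟨b, hb⟩ : ∃ b, b = ipt W 1 y := ⟨_, rfl⟩
      rw [← hb] at h2 h3 ⊢
      obtain ⟨x, hx⟩ : ∃ x, x = b 3 - eval b (P (z (ptr F J ω)) 3) := ⟨_, rfl⟩
      rw [← hx] at h3
      have hx1 : |x| ≤ X * ρ := by
        refine h3.trans ?_
        rw [mul_one]
        have e1 : (1 + 3 * L) * (s / 2 ^ W) = s / 2 ^ W + 3 * (s / 2 ^ W * L) := by ring
        linarith
      have e2 : b = Function.update b 3 (eval b (P (z (ptr F J ω)) 3) + x) := by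
        have e3 : eval b (P (z (ptr F J ω)) 3) + x = b 3 := by
          rw [hx]
          ring
        rw [e3, Function.update_eq_self]
      have e4 := tay_upd 3 b (eval b (P (z (ptr F J ω)) 3)) x hJ.deg
      rw [← e2] at e4
      rw [e4]
      refine (Finset.abs_sum_le_sum_abs _ _).trans ?_
      have h4 : ∀ i ∈ range (D + 1), |x ^ i / (i.factorial : ℝ) *
          eval (Function.update b 3 (eval b (P (z (ptr F J ω)) 3)))
            ((fun R => pderiv 3 R)^[i] Q)| ≤ (1 + X) ^ D * (ρ * S) := by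
        intro i hi
        have hi' : i ≤ D := by
          have := mem_range.1 hi
          omega
        have h5 := hJ.jet b h2 i
        have h6 : |eval (Function.update b 3 (eval b (P (z (ptr F J ω)) 3)))
            ((fun R => pderiv 3 R)^[i] Q)| * ρ ^ i ≤ ρ * S := by
          rw [mul_comm]
          exact h5
        have hf : (1 : ℝ) ≤ (i.factorial : ℝ) := by exact_mod_cast Nat.factorial_pos i
        rw [abs_mul, abs_div, abs_pow, abs_of_pos (by linarith : (0 : ℝ) < i.factorial)]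
        have h7 : |x| ^ i / (i.factorial : ℝ) ≤ (X * ρ) ^ i := by
          refine (div_le_self (by positivity) hf).trans ?_
          exact pow_le_pow_left₀ (abs_nonneg _) hx1 i
        have h0 := abs_nonneg (eval (Function.update b 3 (eval b (P (z (ptr F J ω)) 3)))
            ((fun R => pderiv 3 R)^[i] Q))
        refine (mul_le_mul_of_nonneg_right h7 h0).trans ?_
        rw [mul_pow, mul_assoc, mul_comm (ρ ^ i)]
        have h8 : X ^ i ≤ (1 + X) ^ D := by
          calc X ^ i ≤ (1 + X) ^ i := pow_le_pow_left₀ hX (by linarith) i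
            _ ≤ (1 + X) ^ D := pow_le_pow_right₀ (by linarith) hi'
        exact mul_le_mul h8 h6 (by positivity) (by positivity)
      refine (Finset.sum_le_sum h4).trans ?_
      rw [Finset.sum_const, card_range, nsmul_eq_mul]
      push_cast
      exact le_rfl
  refine h1.trans (le_of_eq ?_)
  ring

/-- The values of the derivative of the equation on the leaf. -/
theorem eval_lfw {W : ℕ} {P : ℕ → PN} {b : ℕ → ℝ} {R : PN} (hR : R.vars ⊆ range 4) :
    eval (lfw W P b) (toO 3 W R) = eval (lfpt 2 P b) R := by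
  rw [eval_toO]
  refine eval_cg hR fun j hj => ?_
  have hW : (2 : ℝ) ^ W ≠ 0 := by positivity
  unfold uno lfpt
  rcases Nat.lt_or_ge j 3 with h | h
  · rw [dif_pos h, Function.update_of_ne (by omega)]
    show 2 ^ W * b j / 2 ^ W = b j
    field_simp
  · have h1 : j = 3 := by omega
    subst h1
    rw [dif_neg (by omega), if_pos rfl, Function.update_self]
    show 2 ^ W * eval b (P 3) / 2 ^ W = _
    field_simp

/-- **The derivative of the equation** is bounded by its majorants at the samples. -/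
theorem own_low {D : ℕ} {Ω : Type} [Fintype Ω] [Nonempty Ω] {W : ℕ} {wd : ℕ → ℕ} {P : ℕ → PN}
    {Q : PN} {ρ S h s H ν : ℝ} {T : Ω → Prop} {x : Ω → Option (Fin 3) → ℝ}
    (hJ : Jet 2 D wd P Q ρ S) (hh : 0 ≤ h) (hs : 0 < s) (hhs : h ≤ s) (hH : 0 ≤ H) (hν : 0 ≤ ν)
    (hLr : ∀ Q' : MvPolynomial (Option (Fin 3)) ℝ, Q'.totalDegree ≤ D → ∀ b : ℕ → ℝ,
      Bxr 2 wd P 3 b → Psi Q' h (lfw W P b) ≤ H * mx T (fun ω => Psi Q' h (x ω)))
    (hn : ∀ ω, T ω → Psi (toO 3 W Q) s (x ω) ≤ ν) :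
    toO 3 W Q ≠ 0 ∧ S ≤ 2 ^ W * (H * (D / s * ν)) := by
  have hW : (0 : ℝ) < 2 ^ W := by positivity
  have hQd : (toO 3 W Q).totalDegree ≤ D := (deg_toO Q).trans hJ.deg
  obtain ⟨b, hb, hbS⟩ := hJ.att
  have hv : (pderiv 3 Q).vars ⊆ range 4 := (NEAR.vars_pd _ _).trans hJ.vars
  have h1 : |eval (lfw W P b) (pderiv none (toO 3 W Q))| = S / 2 ^ W := by
    rw [pd_toO, map_mul, eval_C, eval_lfw hv, abs_mul, abs_of_pos (by positivity)]
    have e1 : |eval (lfpt 2 P b) (pderiv 3 Q)| = S := hbS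
    rw [e1]
    ring
  constructor
  · intro h0
    rw [h0, map_zero, map_zero, abs_zero] at h1
    have h2 : 0 < S / 2 ^ W := div_pos hJ.pos hW
    linarith
  · have hd : (pderiv none (toO 3 W Q)).totalDegree ≤ D :=
      SML.totalDegree_pderiv_le _ _ D (hQd.trans (Nat.le_succ _))
    have h2 := hLr _ hd b hb
    have h3 : mx T (fun ω => Psi (pderiv none (toO 3 W Q)) h (x ω)) ≤ D / s * ν := by
      refine mx_le (by positivity) fun ω hω => ?_
      exact (psi_pd hQd hh hs hhs (x ω) none).trans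
        (mul_le_mul_of_nonneg_left (hn ω hω) (by positivity))
    have h4 : S / 2 ^ W ≤ H * (D / s * ν) := by
      rw [← h1]
      exact (abs_eval_le_Psi _ h _).trans (h2.trans (mul_le_mul_of_nonneg_left h3 hH))
    rw [div_le_iff₀ hW] at h4
    linarith

end Pool.FAL
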