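import Pool.Agent.H57.FAL.Smp

/-!
# The labels as a chain, and relations in the scaled variables
-/

set_option autoImplicit false

namespace Pool.FAL

open Finset Real MvPolynomial
open Pool.Agent.H49.Ent Pool.Agent.H32.Dense Pool.STK Pool.KAF Pool.KAL Pool.KS3 Pool.M3F
open Pool.KJA Pool.KA Pool.K2S Pool.KSAT Pool.PB Pool.STAT Pool.STAT.CLO Pool.GEN Pool.CLO37
open Pool.S6C

variable {m : ℕ}

/-- The point in the variables of the label. -/
noncomputable def lab (c : ℕ → Fin m) (sg : ℕ) (b : Option (Fin m) → ℝ) (n : ℕ) : ℝ :=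
  if n = 0 then b none else if n < 3 then b (some (c (n - 1))) else
    if n = 3 then b (some (c 2)) / 2 ^ sg else 0

/-- The chain of the labels. -/
noncomputable def gch (c : ℕ → Fin m) (sg : ℕ) (P : ℕ → PN) (i : ℕ) :
    MvPolynomial (Option (Fin m)) ℝ :=
  if i < 2 then bk c (P (i + 1)) else if i = 2 then C ((2 : ℝ) ^ sg) * bk c (P 3) else 0

/-- The classes of the labels. -/
def kcl (K i : ℕ) : ℕ := if i < 2 then 1 else K

variable {c : ℕ → Fin m} {sg : ℕ} {P : ℕ → PN}

theorem gch_deg {K : ℕ} (h1 : ∀ i < 3, (P i).totalDegree ≤ 1) (hK : (P 3).totalDegree ≤ K)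
    (i : ℕ) : (gch c sg P i).totalDegree ≤ kcl K i := by
  unfold gch kcl
  by_cases hi : i < 2
  · rw [if_pos hi, if_pos hi]
    exact (bk_deg _ _).trans (h1 _ (by omega))
  · rw [if_neg hi, if_neg hi]
    split_ifs
    · refine (totalDegree_mul _ _).trans ?_
      rw [totalDegree_C, zero_add]
      exact (bk_deg _ _).trans hK
    · rw [totalDegree_zero]
      exact Nat.zero_le _

theorem bk_dep' {i : ℕ} {Q : PN} (hQ : Q.vars ⊆ range (i + 1)) : DepC c i (bk c Q) := by
  intro b b' h0 h
  rw [eval_bk, eval_bk]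
  refine eval_cg hQ fun j hj => ?_
  rcases Nat.eq_zero_or_pos j with rfl | h1
  · rw [if_pos rfl, if_pos rfl, h0]
  · rw [if_neg (by omega), if_neg (by omega), h (j - 1) (by omega)]

theorem gch_dep (hP : TriN P) (i : ℕ) : DepC c i (gch c sg P i) := by
  unfold gch
  by_cases hi : i < 2
  · rw [if_pos hi]
    exact bk_dep' (hP _)
  · rw [if_neg hi]
    split_ifs with h2
    · subst h2
      intro b b' h0 h
      rw [map_mul, map_mul, eval_C, eval_C, bk_dep' (c := c) (hP 3) b b' h0 h]
    · exact fun b b' _ _ => by rw [map_zero, map_zero]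

theorem eval_bk' {Q : PN} (hQ : Q.vars ⊆ range 3) (b : Option (Fin m) → ℝ) :
    eval b (bk c Q) = eval (lab c sg b) Q := by
  rw [eval_bk]
  refine eval_cg hQ fun j hj => ?_
  unfold lab
  rcases Nat.eq_zero_or_pos j with rfl | h1
  · rw [if_pos rfl, if_pos rfl]
  · rw [if_neg (by omega), if_neg (by omega), if_pos hj]

theorem gch_lt (hP : TriN P) {i : ℕ} (hi : i < 2) (b : Option (Fin m) → ℝ) :
    eval b (gch c sg P i) = eval (lab c sg b) (P (i + 1)) := by
  unfold gch
  rw [if_pos hi]
  exact eval_bk' ((hP _).trans (Finset.range_mono (by omega))) b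

theorem gch_two (hP : TriN P) (b : Option (Fin m) → ℝ) :
    eval b (gch c sg P 2) = 2 ^ sg * eval (lab c sg b) (P 3) := by
  unfold gch
  rw [if_neg (by omega), if_pos rfl, map_mul, eval_C, eval_bk' (sg := sg) (hP 3) b]

/-- The derivatives. -/
theorem pd_bk (hc : Inj c 3) {i l : ℕ} (hi : i ≤ 2) (hl : l < i) {Q : PN}
    (hQ : Q.vars ⊆ range (i + 1)) (b : Option (Fin m) → ℝ) :
    eval b (pderiv (some (c l)) (bk c Q)) = eval (lab c sg b) (pderiv (l + 1) Q) := by
  obtain ⟨r, rfl⟩ : ∃ r, i = r + 1 := ⟨i - 1, by omega⟩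
  have hc' : Inj c (r + 1) := fun x hx y hy h => hc x (by omega) y (by omega) h
  have h1 : DepC c (r + 1) (bk c Q) := bk_dep hQ
  have h2 := eval_tr (b := lab c sg b) (B := b) hc' le_rfl (DepC.pderiv h1 l) (by
      unfold lab
      rw [if_pos rfl]) fun l' hl' => by
      unfold lab
      rw [if_neg (by omega), if_pos (by omega)]
      rfl
  rw [← h2, ← pd_tr hc' le_rfl hl, tr_bk hc' hQ]

section box

variable {W0 : ℕ} {g0 gc : ℕ → ℕ} {t t1 ρ : ℝ}

/-- From the boxes of the chain to the boxes of the label. -/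
theorem nbx_bxr (hP : TriN P) (h0 : P 0 = MvPolynomial.C t1) (ht : |t - t1| ≤ 1 / 2 ^ W0)
    (hρ : 2 ≤ ρ) (hg : ∀ l < 2, (2 : ℝ) ^ (g0 l) ≤ ρ * 2 ^ gc l)
    (hg2 : (2 : ℝ) ^ g0 2 ≤ ρ * (2 ^ sg * 2 ^ gc 2)) {i : ℕ} (hi : i ≤ 3)
    {b : Option (Fin m) → ℝ} (hb : NBx c (gch c sg P) gc W0 t i b) :
    Bxr ρ (wid W0 g0) P (i + 1) (lab c sg b) := by
  intro j hj
  rcases Nat.eq_zero_or_pos j with rfl | hj0
  · rw [h0, eval_C, wid_zero]
    have e1 : lab c sg b 0 = b none := if_pos rfl
    rw [e1]
    have e2 : b none - t1 = (b none - t) + (t - t1) := by ring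
    rw [e2]
    refine (abs_add_le _ _).trans ((add_le_add hb.1 ht).trans ?_)
    rw [← add_div]
    exact div_le_div_of_nonneg_right (by linarith) (by positivity)
  · obtain ⟨j, rfl⟩ : ∃ j', j = j' + 1 := ⟨j - 1, by omega⟩
    rw [wid_succ]
    have h1 := hb.2 j (by omega)
    rcases Nat.lt_or_ge j 2 with h2 | h2
    · rw [gch_lt hP h2] at h1
      have e1 : lab c sg b (j + 1) = b (some (c j)) := by
        unfold lab
        rw [if_neg (by omega), if_pos (by omega)]
        rfl
      rw [e1]
      refine h1.trans ?_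
      rw [div_le_div_iff₀ (by positivity) (by positivity), one_mul]
      exact hg j h2
    · have h3 : j = 2 := by omega
      subst h3
      rw [gch_two hP] at h1
      have e1 : lab c sg b 3 = b (some (c 2)) / 2 ^ sg := by
        unfold lab
        rw [if_neg (by omega), if_neg (by omega), if_pos rfl]
      rw [e1]
      have hs : (0 : ℝ) < 2 ^ sg := by positivity
      have e2 : b (some (c 2)) / 2 ^ sg - eval (lab c sg b) (P 3) =
          (b (some (c 2)) - 2 ^ sg * eval (lab c sg b) (P 3)) / 2 ^ sg := by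
        field_simp
      show |b (some (c 2)) / 2 ^ sg - eval (lab c sg b) (P 3)| ≤ _
      rw [e2, abs_div, abs_of_pos hs, div_le_iff₀ hs]
      refine h1.trans ?_
      rw [div_mul_eq_mul_div, div_le_div_iff₀ (by positivity) (by positivity), one_mul, mul_assoc]
      exact hg2

open Classical in
/-- The point in the variables of the family. -/
noncomputable def amb (c : ℕ → Fin m) (sg : ℕ) (b : ℕ → ℝ) : Option (Fin m) → ℝ
  | none => b 0
  | some j => if j = c 0 then b 1 else if j = c 1 then b 2 else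
      if j = c 2 then 2 ^ sg * b 3 else 0

theorem lab_amb (hc : Inj c 3) (b : ℕ → ℝ) {n : ℕ} (hn : n < 4) :
    lab c sg (amb c sg b) n = b n := by
  classical
  have h10 : c 1 ≠ c 0 := fun h => by
    have := hc 1 (by omega) 0 (by omega) h
    omega
  have h20 : c 2 ≠ c 0 := fun h => by
    have := hc 2 (by omega) 0 (by omega) h
    omega
  have h21 : c 2 ≠ c 1 := fun h => by
    have := hc 2 (by omega) 1 (by omega) h
    omega
  have hs : (2 : ℝ) ^ sg ≠ 0 := by positivity
  unfold lab
  interval_cases n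
  · rw [if_pos rfl]
    rfl
  · rw [if_neg (by omega), if_pos (by omega)]
    show (if c 0 = c 0 then b 1 else _) = b 1
    rw [if_pos rfl]
  · rw [if_neg (by omega), if_pos (by omega)]
    show (if c 1 = c 0 then b 1 else if c 1 = c 1 then b 2 else _) = b 2
    rw [if_neg h10, if_pos rfl]
  · rw [if_neg (by omega), if_neg (by omega), if_pos rfl]
    show (if c 2 = c 0 then b 1 else if c 2 = c 1 then b 2 else
      if c 2 = c 2 then 2 ^ sg * b 3 else 0) / 2 ^ sg = b 3
    rw [if_neg h20, if_neg h21, if_pos rfl]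
    field_simp

/-- From the boxes of the label to the boxes of the chain. -/
theorem nbx_amb (hc : Inj c 3) (hP : TriN P) (hg : ∀ l < 2, gc l ≤ g0 l)
    (hg2 : gc 2 + sg ≤ g0 2) {b : ℕ → ℝ}
    (hb : Bxr 1 (wid W0 g0) (Function.update P 0 (MvPolynomial.C t)) 4 b) :
    NBx c (gch c sg P) gc W0 t 3 (amb c sg b) := by
  have hev : ∀ i ≤ 3, eval (lab c sg (amb c sg b)) (P i) = eval b (P i) := fun i hi =>
    eval_cg (hP i) fun j hj => lab_amb hc b (by omega)
  have hl : ∀ l < 2, amb c sg b (some (c l)) = b (l + 1) := by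
    intro l hl
    have h1 := lab_amb (sg := sg) hc b (n := l + 1) (by omega)
    unfold lab at h1
    rw [if_neg (by omega), if_pos (by omega)] at h1
    exact h1
  have h3 : amb c sg b (some (c 2)) / 2 ^ sg = b 3 := by
    have h1 := lab_amb (sg := sg) hc b (n := 3) (by omega)
    unfold lab at h1
    rw [if_neg (by omega), if_neg (by omega), if_pos rfl] at h1
    exact h1
  refine ⟨?_, ?_⟩
  · have h1 := hb 0 (by omega)
    rw [Function.update_self, eval_C, wid_zero] at h1
    exact h1
  · intro l hl3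
    have h1 := hb (l + 1) (by omega)
    rw [Function.update_of_ne (by omega), wid_succ] at h1
    rcases Nat.lt_or_ge l 2 with h2 | h2
    · rw [gch_lt hP h2, hev _ (by omega), hl l h2]
      refine h1.trans ?_
      exact one_div_le_one_div_of_le (by positivity) (pow_le_pow_right₀ (by norm_num) (hg l h2))
    · have h4 : l = 2 := by omega
      subst h4
      rw [gch_two hP, hev 3 le_rfl]
      have hs : (0 : ℝ) < 2 ^ sg := by positivity
      have e1 : amb c sg b (some (c 2)) = 2 ^ sg * b 3 := by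
        rw [← h3]
        field_simp
      rw [e1, ← mul_sub, abs_mul, abs_of_pos hs]
      calc 2 ^ sg * |b 3 - eval b (P 3)| ≤ 2 ^ sg * (1 / 2 ^ g0 2) :=
            mul_le_mul_of_nonneg_left h1 hs.le
        _ = 2 ^ sg / 2 ^ g0 2 := by ring
        _ ≤ 1 / 2 ^ gc 2 := by
            rw [div_le_div_iff₀ (by positivity) (by positivity), one_mul, ← pow_add]
            exact pow_le_pow_right₀ (by norm_num) (by omega)

end box

/-! ### Polynomials in the scaled variables -/

/-- The substitution. -/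
noncomputable def adv (c : ℕ → Fin m) (W sg : ℕ) (o : Option (Fin 3)) :
    MvPolynomial (Option (Fin m)) ℝ :=
  o.elim (C ((2 : ℝ) ^ W / 2 ^ sg) * MvPolynomial.X (some (c 2)))
    (fun i => C ((2 : ℝ) ^ W) * MvPolynomial.X (if i.val = 0 then none else some (c (i.val - 1))))

/-- The polynomial in the variables of the family. -/
noncomputable def adx (c : ℕ → Fin m) (W sg : ℕ) (Q : MvPolynomial (Option (Fin 3)) ℝ) :
    MvPolynomial (Option (Fin m)) ℝ := bind₁ (adv c W sg) Q

theorem eval_adx {W sg sg0 : ℕ} {a : ℝ} (ha : a = 2 ^ sg0 / 2 ^ sg)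
    (Q : MvPolynomial (Option (Fin 3)) ℝ) (b : Option (Fin m) → ℝ) :
    eval b (adx c W sg Q) = eval (spt W a (lab c sg0 b)) Q := by
  unfold adx
  rw [AdxRow.evl_bnd]
  congr 2
  funext o
  cases o with
  | none =>
    show eval b (C ((2 : ℝ) ^ W / 2 ^ sg) * MvPolynomial.X (some (c 2))) =
      2 ^ W * a * lab c sg0 b 3
    have e1 : lab c sg0 b 3 = b (some (c 2)) / 2 ^ sg0 := by
      unfold lab
      rw [if_neg (by omega), if_neg (by omega), if_pos rfl]
    rw [map_mul, eval_C, eval_X, e1, ha]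
    field_simp
  | some i =>
    show eval b (C ((2 : ℝ) ^ W) * MvPolynomial.X (if i.val = 0 then none else
      some (c (i.val - 1)))) = 2 ^ W * lab c sg0 b i.val
    rw [map_mul, eval_C, eval_X]
    unfold lab
    split_ifs with h1 h2
    · rfl
    · rfl
    · omega
    · omega

theorem deg_adx {W sg : ℕ} (Q : MvPolynomial (Option (Fin 3)) ℝ) :
    (adx c W sg Q).totalDegree ≤ Q.totalDegree := by
  have h1 : ∀ o, (adv c W sg o).totalDegree ≤ 1 := by
    intro o
    cases o with
    | none =>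
      show (C ((2 : ℝ) ^ W / 2 ^ sg) * MvPolynomial.X (some (c 2)) :
        MvPolynomial (Option (Fin m)) ℝ).totalDegree ≤ 1
      refine (totalDegree_mul _ _).trans ?_
      rw [totalDegree_C, totalDegree_X]
    | some i =>
      show (C ((2 : ℝ) ^ W) * MvPolynomial.X (if i.val = 0 then none else
        some (c (i.val - 1))) : MvPolynomial (Option (Fin m)) ℝ).totalDegree ≤ 1
      refine (totalDegree_mul _ _).trans ?_
      rw [totalDegree_C, totalDegree_X]
  have h2 := SML.totalDegree_bind_le (adv c W sg) 1 h1 Q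
  rwa [one_mul] at h2

theorem dep_adx {W sg : ℕ} (Q : MvPolynomial (Option (Fin 3)) ℝ) :
    DepC c 3 (adx c W sg Q) := by
  intro b b' h0 h
  rw [eval_adx (sg0 := 0) rfl, eval_adx (sg0 := 0) rfl]
  congr 2
  funext o
  have hlab : ∀ n < 4, lab c 0 b n = lab c 0 b' n := by
    intro n hn
    unfold lab
    split_ifs with h1 h2 h3
    · exact h0
    · rw [h (n - 1) (by omega)]
    · rw [h 2 (by omega)]
    · rfl
  cases o with
  | none =>
    show 2 ^ W * _ * lab c 0 b 3 = 2 ^ W * _ * lab c 0 b' 3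
    rw [hlab 3 (by omega)]
  | some i =>
    show 2 ^ W * lab c 0 b i.val = 2 ^ W * lab c 0 b' i.val
    rw [hlab i.val (by omega)]

end Pool.FAL
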