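import Pool.Agent.H57.FAL.Nz
import Pool.Agent.H37.CLO.Mxw

/-!
# The samples and their neighbours in the natural boxes of a closed label
-/

set_option autoImplicit false

namespace Pool.FAL

open Finset Real MvPolynomial
open Pool.Agent.H49.Ent Pool.Agent.H32.Dense Pool.STK Pool.KAF Pool.KAL Pool.KS3 Pool.M3F
open Pool.KJA Pool.KA Pool.K2S Pool.KSAT Pool.PB Pool.STAT Pool.STAT.CLO Pool.GEN Pool.CLO37

variable {m J : ℕ} {F : Fam m J} {c : ℕ → Fin m}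

/-- The rounded position in the variables of the label, with the weight `2 ^ (-sg)`. -/
noncomputable def lbp (c : ℕ → Fin m) (sg : ℕ) (ξ : PtT F) (n : ℕ) : ℝ :=
  if n < 3 then px c ξ n else if n = 3 then px c ξ 3 / 2 ^ sg else 0

theorem lbp_lt {sg : ℕ} {ξ : PtT F} {n : ℕ} (h : n < 3) : lbp c sg ξ n = px c ξ n := if_pos h

theorem lbp_three {sg : ℕ} {ξ : PtT F} : lbp c sg ξ 3 = px c ξ 3 / 2 ^ sg := by
  unfold lbp
  rw [if_neg (by omega), if_pos rfl]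

/-- The sample is in the natural box. -/
theorem smp {W sg : ℕ} {g : ℕ → ℕ} {K : ℕ} {L : ℝ} {B : F.Ω → Prop} {V : Type} {z : PtT F → V}
    {z' : LnT F → V} {P : V → ℕ → PN} (hN : NLabW F c 2 W sg g K L B z z' P) (hWJ : W ≤ J)
    (hgJ : g 2 ≤ J) {ω : F.Ω} (hω : B ω) :
    Bxr 1 (wid W g) (P (z (ptr F J ω))) 3 (lbp c sg (ptr F J ω)) ∧
      |lbp c sg (ptr F J ω) 3 - eval (lbp c sg (ptr F J ω)) (P (z (ptr F J ω)) 3)| ≤
        2 / 2 ^ g 2 := by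
  have hev : ∀ i ≤ 3, eval (lbp c sg (ptr F J ω)) (P (z (ptr F J ω)) i) =
      eval (px c (ptr F J ω)) (P (z (ptr F J ω)) i) := fun i hi =>
    eval_cg (hN.tri _ i) fun j hj => lbp_lt (by omega)
  refine ⟨fun i hi => ?_, ?_⟩
  · rw [hev i (by omega), lbp_lt hi]
    exact pos_w hN hWJ hω hi
  · rw [hev 3 le_rfl, lbp_three]
    have h1 := hN.posN ω hω
    refine h1.trans ?_
    have h2 : (1 : ℝ) / 2 ^ J ≤ 1 / 2 ^ g 2 :=
      one_div_le_one_div_of_le (by positivity) (pow_le_pow_right₀ (by norm_num) hgJ)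
    have e1 : (2 : ℝ) / 2 ^ g 2 = 1 / 2 ^ g 2 + 1 / 2 ^ g 2 := by ring
    rw [e1]
    linarith

/-- **The neighbours of a sample.** -/
theorem nbr {W sg : ℕ} {g : ℕ → ℕ} {K : ℕ} {L : ℝ} {B : F.Ω → Prop} {V : Type} {z : PtT F → V}
    {z' : LnT F → V} {P : V → ℕ → PN} (hN : NLabW F c 2 W sg g K L B z z' P) (hL : 0 ≤ L)
    (hWJ : W ≤ J) (hgJ : g 2 ≤ J) {ω : F.Ω} (hω : B ω) {s s' : ℝ} (hs : 0 ≤ s)
    (hsw : ∀ i < 3, (1 + 3 * L) * s ≤ 1 / 2 ^ wid W g i) {b : ℕ → ℝ}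
    (hb : ∀ l < 3, |b l - lbp c sg (ptr F J ω) l| ≤ s)
    (hb3 : |b 3 - lbp c sg (ptr F J ω) 3| ≤ s') :
    Bxr 2 (wid W g) (P (z (ptr F J ω))) 3 b ∧
      |b 3 - eval b (P (z (ptr F J ω)) 3)| ≤ 2 / 2 ^ g 2 + s' + 3 * (s * L) := by
  obtain ⟨h1, h2⟩ := smp hN hWJ hgJ hω
  obtain ⟨h3, h4⟩ := near_box (hN.tri (z (ptr F J ω))) hL hs
    zero_le_one (by norm_num) (fun b hb i hi l hl => hN.grad ω hω b hb i hi l hl) h1
    (fun i hi => by
      have := hsw i hi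
      push_cast
      exact this) hb
  refine ⟨?_, ?_⟩
  · have e1 : (2 : ℝ) = 1 + 1 := by norm_num
    rw [e1]
    exact h3
  · have h5 := h4 3 le_rfl
    push_cast at h5
    have e1 : b 3 - eval b (P (z (ptr F J ω)) 3) =
        (b 3 - lbp c sg (ptr F J ω) 3) + (lbp c sg (ptr F J ω) 3 -
          eval (lbp c sg (ptr F J ω)) (P (z (ptr F J ω)) 3)) -
        (eval b (P (z (ptr F J ω)) 3) -
          eval (lbp c sg (ptr F J ω)) (P (z (ptr F J ω)) 3)) := by ring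
    rw [e1]
    refine (abs_sub _ _).trans ?_
    have h6 := abs_add_le (b 3 - lbp c sg (ptr F J ω) 3)
      (lbp c sg (ptr F J ω) 3 - eval (lbp c sg (ptr F J ω)) (P (z (ptr F J ω)) 3))
    linarith

/-- The neighbours in the scaled variables of the window `W1` with the weight `2 ^ (-sg)`;
`a = 2 ^ (sgl - sg)`. -/
theorem cube {W sgl : ℕ} {g : ℕ → ℕ} {K : ℕ} {L : ℝ} {B : F.Ω → Prop} {V : Type} {z : PtT F → V}
    {z' : LnT F → V} {P : V → ℕ → PN} (hN : NLabW F c 2 W sgl g K L B z z' P) (hL : 0 ≤ L)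
    (hWJ : W ≤ J) (hgJ : g 2 ≤ J) {ω : F.Ω} (hω : B ω) {W1 sg : ℕ} {a s : ℝ}
    (ha : a = 2 ^ sgl / 2 ^ sg) (hs : 0 ≤ s)
    (hsw : ∀ i < 3, (1 + 3 * L) * (s / 2 ^ W1) ≤ 1 / 2 ^ wid W g i)
    {y : Option (Fin 3) → ℝ} (hy : ∀ o, |y o - zsw c 2 W1 sg (ptr F J ω) o| ≤ s) :
    Bxr 2 (wid W g) (P (z (ptr F J ω))) 3 (ipt W1 a y) ∧
      |ipt W1 a y 3 - eval (ipt W1 a y) (P (z (ptr F J ω)) 3)| ≤
        2 / 2 ^ g 2 + s / (2 ^ W1 * a) + 3 * (s / 2 ^ W1 * L) := by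
  have hW : (0 : ℝ) < 2 ^ W1 := by positivity
  have ha0 : 0 < a := by
    rw [ha]
    positivity
  refine nbr hN hL hWJ hgJ hω (by positivity) hsw ?_ ?_
  · intro l hl
    have h3 := hy (some ⟨l, hl⟩)
    have e1 : zsw c 2 W1 sg (ptr F J ω) (some ⟨l, hl⟩) = 2 ^ W1 * px c (ptr F J ω) l := rfl
    rw [e1] at h3
    rw [lbp_lt hl]
    unfold ipt
    rw [dif_pos hl]
    have e2 : y (some ⟨l, hl⟩) / 2 ^ W1 - px c (ptr F J ω) l =
        (y (some ⟨l, hl⟩) - 2 ^ W1 * px c (ptr F J ω) l) / 2 ^ W1 := by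
      field_simp
    rw [e2, abs_div, abs_of_pos hW]
    exact div_le_div_of_nonneg_right h3 hW.le
  · have h3 := hy none
    have e1 : zsw c 2 W1 sg (ptr F J ω) none = 2 ^ W1 * (px c (ptr F J ω) 3 / 2 ^ sg) := rfl
    rw [e1] at h3
    rw [lbp_three]
    unfold ipt
    rw [dif_neg (by omega), if_pos rfl]
    have e2 : y none / (2 ^ W1 * a) - px c (ptr F J ω) 3 / 2 ^ sgl =
        (y none - 2 ^ W1 * (px c (ptr F J ω) 3 / 2 ^ sg)) / (2 ^ W1 * a) := by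
      rw [ha]
      field_simp
    rw [e2, abs_div, abs_of_pos (by positivity : 0 < 2 ^ W1 * a)]
    exact div_le_div_of_nonneg_right h3 (by positivity)

/-- The majorant of a polynomial near a sample and the natural norm. -/
theorem psi_nz (D KK : ℕ) (hD : D ≤ KK) : ∃ C : ℝ, 1 ≤ C ∧ ∀ {m J : ℕ} {F : Fam m J}
    {c : ℕ → Fin m} {W sgl : ℕ} {g : ℕ → ℕ} {L : ℝ} {B : F.Ω → Prop} {V : Type}
    {z : PtT F → V} {z' : LnT F → V} {P : V → ℕ → PN} {W1 sg : ℕ} {a s : ℝ} {ω : F.Ω}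
    {Q : MvPolynomial (Option (Fin 3)) ℝ},
    NLabW F c 2 W sgl g KK L B z z' P → 0 ≤ L → W ≤ J → g 2 ≤ J → B ω → a = 2 ^ sgl / 2 ^ sg →
    0 ≤ s → (∀ i < 3, (1 + 3 * L) * (s / 2 ^ W1) ≤ 1 / 2 ^ wid W g i) →
    (1 + 3 * L) * (s / 2 ^ W1) ≤ 1 / 2 ^ g 2 → s / (2 ^ W1 * a) ≤ 1 / 2 ^ g 2 →
    Q.totalDegree ≤ D →
    Psi Q s (zsw c 2 W1 sg (ptr F J ω)) ≤ C * nz W1 a (wid W g) (P (z (ptr F J ω))) Q := by
  obtain ⟨K₁, hK₁, hsup⟩ := exists_Psi_le_sup (Option (Fin 3)) D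
  refine ⟨K₁ * 4 ^ (KK * (KK + 1) ^ 5), one_le_mul_of_one_le_of_one_le hK₁
    (one_le_pow₀ (by norm_num)), ?_⟩
  intro m J F c W sgl g L B V z z' P W1 sg a s ω Q hN hL hWJ hgJ hω ha hs hsw hsg hsa hQ
  have ha0 : 0 < a := by
    rw [ha]
    positivity
  have h1 := hsup Q s (zsw c 2 W1 sg (ptr F J ω))
    (nz W1 a (wid W g) (P (z (ptr F J ω))) Q * 4 ^ (KK * (KK + 1) ^ 5)) hQ hs fun y hy => by
      obtain ⟨h2, h3⟩ := cube hN hL hWJ hgJ hω ha hs hsw hy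
      have h4 : Bxr 4 (wid W g) (P (z (ptr F J ω))) 4 (ipt W1 a y) := by
        intro i hi
        rcases Nat.lt_or_ge i 3 with h5 | h5
        · exact (h2 i h5).trans (div_le_div_of_nonneg_right (by norm_num) (by positivity))
        · have h6 : i = 3 := by omega
          subst h6
          refine h3.trans ?_
          have e1 : wid W g 3 = g 2 := rfl
          rw [e1]
          have e2 : (4 : ℝ) / 2 ^ g 2 = 2 / 2 ^ g 2 + 1 / 2 ^ g 2 + 1 / 2 ^ g 2 := by ring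
          rw [e2]
          have h7 : 3 * (s / 2 ^ W1 * L) ≤ (1 + 3 * L) * (s / 2 ^ W1) := by
            have : 0 ≤ s / 2 ^ W1 := by positivity
            linarith
          linarith
      have h5 := nz_ev (W := W1) (a := a) (hN.tri (z (ptr F J ω))) (fun j => hN.deg _ j)
        (hQ.trans hD) (by norm_num) h4
      rw [spt_ipt ha0.ne'] at h5
      exact h5
  refine h1.trans (le_of_eq ?_)
  ring

end Pool.FAL
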